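import Mathlib

set_option autoImplicit false

/-!
# MP_4b24a5_an: Nevanlinna theory in the unit disc, definitions
-/

noncomputable section

namespace Pool.Agent.MP4b24a5

open Complex Metric Real MeasureTheory Filter Topology

/-- the order of `f` at `u` (positive at zeros, negative at poles, `0` where `f` vanishes
identically near `u`) -/
def od (f : ℂ → ℂ) (u : ℂ) : ℤ := (meromorphicOrderAt f u).untop₀

/-- the sum `∑ D(u) log (r / |u|)` over the points `u` with `0 < |u| < r` -/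
def S (D : ℂ → ℝ) (r : ℝ) : ℝ := ∑ᶠ u : ℂ, D u * log⁺ (r / ‖u‖)

/-- the Nevanlinna proximity function `m(r, f)` -/
def prox (f : ℂ → ℂ) (r : ℝ) : ℝ := circleAverage (fun z => log⁺ ‖f z‖) 0 r

/-- the Nevanlinna counting function `N(r, f)` of the poles, with multiplicity -/
def cnt (f : ℂ → ℂ) (r : ℝ) : ℝ :=
  S (fun u => ((max (-od f u) 0 : ℤ) : ℝ)) r + ((max (-od f 0) 0 : ℤ) : ℝ) * Real.log r

/-- the Nevanlinna characteristic `T(r, f) = m(r, f) + N(r, f)` -/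
def T (f : ℂ → ℂ) (r : ℝ) : ℝ := prox f r + cnt f r

/-- `- log (1 - r)` -/
def L (r : ℝ) : ℝ := -Real.log (1 - r)

/-- `α(f)`, the upper limit of `T(r, f) / (- log (1 - r))` for `r → 1` -/
def alph (f : ℂ → ℂ) : EReal := limsup (fun r : ℝ => ((T f r / L r : ℝ) : EReal)) (𝓝[<] (1 : ℝ))

/-- the differential monomial with exponents `m 0, ..., m k` -/
def Psi {k : ℕ} (m : Fin (k + 1) → ℕ) (f : ℂ → ℂ) (z : ℂ) : ℂ :=
  ∏ j : Fin (k + 1), iteratedDeriv (j : ℕ) f z ^ m j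

/-- the degree `m 0 + ... + m k` -/
def deg {k : ℕ} (m : Fin (k + 1) → ℕ) : ℕ := ∑ j : Fin (k + 1), m j

/-- the weight `m 1 + 2 m 2 + ... + k m k` -/
def wgt {k : ℕ} (m : Fin (k + 1) → ℕ) : ℕ := ∑ j : Fin (k + 1), (j : ℕ) * m j

/-- `f` is meromorphic in the unit disc and nowhere locally zero -/
def Mer (f : ℂ → ℂ) : Prop :=
  MeromorphicOn f (ball 0 1) ∧ ∀ z ∈ ball (0 : ℂ) 1, meromorphicOrderAt f z ≠ ⊤

/-- finitely many points of the support in every smaller disc -/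
def LF (D : ℂ → ℝ) : Prop := ∀ r < 1, {u : ℂ | ‖u‖ ≤ r ∧ D u ≠ 0}.Finite

/-- `f` is meromorphic, nowhere locally zero and `T(r, f) = O(- log (1 - r))` -/
def Slow (f : ℂ → ℂ) : Prop := Mer f ∧ ∃ K : ℝ, ∀ᶠ r in 𝓝[<] (1 : ℝ), T f r ≤ K * L r

/-- the points where `Ψ_f` takes the value `w` -/
def Wset {k : ℕ} (m : Fin (k + 1) → ℕ) (f : ℂ → ℂ) (w : ℂ) : Set ℂ :=
  {z | z ∈ ball (0 : ℂ) 1 ∧ AnalyticAt ℂ f z ∧ Psi m f z = w}

/-- zeros of `f` with multiplicity -/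
def Zf (f : ℂ → ℂ) (u : ℂ) : ℝ := ((max (od f u) 0 : ℤ) : ℝ)

/-- poles of `f` without multiplicity -/
def Pf (f : ℂ → ℂ) (u : ℂ) : ℝ := if od f u < 0 then 1 else 0

end Pool.Agent.MP4b24a5
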