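import Mathlib
import Pool.Agent.Lib.MP_4b24a5_an.Defs

set_option autoImplicit false

noncomputable section

namespace Pool.Agent.MP4b24a5

open Complex Metric Real MeasureTheory Filter Topology

namespace SC

theorem lg_zero_of_le {r : ℝ} (h0 : 0 < r) {u : ℂ} (h : r ≤ ‖u‖) : log⁺ (r / ‖u‖) = 0 := by
  rw [Real.posLog_eq_zero_iff, abs_of_nonneg (by positivity)]
  exact div_le_one_of_le₀ h (norm_nonneg u)

theorem lg_zero (r : ℝ) : log⁺ (r / ‖(0 : ℂ)‖) = 0 := by
  rw [norm_zero, div_zero, Real.posLog_zero]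

theorem supp_fin {D : ℂ → ℝ} (hD : LF D) {r : ℝ} (h0 : 0 < r) (hr : r < 1) :
    (Function.support fun u : ℂ => D u * log⁺ (r / ‖u‖)).Finite := by
  apply (hD r hr).subset
  intro u hu
  rw [Function.mem_support] at hu
  constructor
  · by_contra hlt
    push Not at hlt
    apply hu
    rw [lg_zero_of_le h0 hlt.le, mul_zero]
  · intro hz
    apply hu
    rw [hz, zero_mul]

end SC

theorem lf_od {f : ℂ → ℂ} (hf : Mer f) : LF (fun u => (od f u : ℝ)) := by
  intro r hr
  have hsub : closedBall (0 : ℂ) r ⊆ ball (0 : ℂ) 1 := closedBall_subset_ball hr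
  have hm : MeromorphicOn f (closedBall (0 : ℂ) r) := fun z hz => hf.1 z (hsub hz)
  have hfin := (MeromorphicOn.divisor f (closedBall (0 : ℂ) r)).finiteSupport
    (isCompact_closedBall (0 : ℂ) r)
  apply hfin.subset
  intro u hu
  obtain ⟨h1, h2⟩ := hu
  have hu' : u ∈ closedBall (0 : ℂ) r := by
    rw [mem_closedBall, dist_zero_right]
    exact h1
  rw [Function.mem_support, MeromorphicOn.divisor_apply hm hu']
  intro h3
  apply h2
  change ((od f u : ℤ) : ℝ) = 0
  unfold od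
  rw [h3, Int.cast_zero]

theorem LF.comp {D : ℂ → ℝ} (hD : LF D) {g : ℝ → ℝ} (hg : g 0 = 0) : LF (fun u => g (D u)) := by
  intro r hr
  apply (hD r hr).subset
  rintro u ⟨h1, h2⟩
  refine ⟨h1, fun h3 => h2 ?_⟩
  simp only [h3, hg]

theorem LF.add {D D' : ℂ → ℝ} (hD : LF D) (hD' : LF D') : LF (fun u => D u + D' u) := by
  intro r hr
  apply ((hD r hr).union (hD' r hr)).subset
  rintro u ⟨h1, h2⟩
  by_cases h3 : D u = 0
  · right
    refine ⟨h1, fun h4 => h2 ?_⟩
    simp only [h3, h4, add_zero]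
  · left
    exact ⟨h1, h3⟩

theorem S_add {D D' : ℂ → ℝ} (hD : LF D) (hD' : LF D') {r : ℝ} (h0 : 0 < r) (hr : r < 1) :
    S (fun u => D u + D' u) r = S D r + S D' r := by
  unfold S
  rw [← finsum_add_distrib (SC.supp_fin hD h0 hr) (SC.supp_fin hD' h0 hr)]
  apply finsum_congr
  intro u
  rw [add_mul]

theorem S_smul {D : ℂ → ℝ} (c : ℝ) {r : ℝ} : S (fun u => c * D u) r = c * S D r := by
  unfold S
  rw [mul_finsum]
  apply finsum_congr
  intro u
  rw [mul_assoc]

theorem S_mono {D D' : ℂ → ℝ} (hD : LF D) (hD' : LF D')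
    (h : ∀ u : ℂ, u ≠ 0 → ‖u‖ < 1 → D u ≤ D' u) {r : ℝ} (h0 : 0 < r) (hr : r < 1) :
    S D r ≤ S D' r := by
  unfold S
  apply finsum_le_finsum' (SC.supp_fin hD h0 hr) (SC.supp_fin hD' h0 hr)
  intro u
  beta_reduce
  by_cases hu : u = 0
  · rw [hu, SC.lg_zero, mul_zero, mul_zero]
  · by_cases h1 : r ≤ ‖u‖
    · rw [SC.lg_zero_of_le h0 h1, mul_zero, mul_zero]
    · push Not at h1
      exact mul_le_mul_of_nonneg_right (h u hu (h1.trans hr)) Real.posLog_nonneg

theorem S_nonneg {D : ℂ → ℝ} (h : ∀ u : ℂ, u ≠ 0 → ‖u‖ < 1 → 0 ≤ D u) {r : ℝ} (h0 : 0 < r)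
    (hr : r < 1) : 0 ≤ S D r := by
  unfold S
  apply finsum_nonneg
  intro u
  by_cases hu : u = 0
  · rw [hu, SC.lg_zero, mul_zero]
  · by_cases h1 : r ≤ ‖u‖
    · rw [SC.lg_zero_of_le h0 h1, mul_zero]
    · push Not at h1
      exact mul_nonneg (h u hu (h1.trans hr)) Real.posLog_nonneg

theorem S_bdd {D : ℂ → ℝ} (h : {u : ℂ | ‖u‖ < 1 ∧ D u ≠ 0}.Finite) :
    ∃ C : ℝ, ∀ r : ℝ, 0 < r → r < 1 → |S D r| ≤ C := by
  refine ⟨∑ u ∈ h.toFinset, |D u| * log⁺ (1 / ‖u‖), ?_⟩
  intro r h0 hr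
  unfold S
  rw [finsum_eq_sum_of_support_subset (s := h.toFinset)]
  · refine (Finset.abs_sum_le_sum_abs _ _).trans ?_
    apply Finset.sum_le_sum
    intro u _
    rw [abs_mul, abs_of_nonneg (Real.posLog_nonneg)]
    apply mul_le_mul_of_nonneg_left _ (abs_nonneg _)
    apply Real.posLog_le_posLog (by positivity)
    exact div_le_div_of_nonneg_right hr.le (norm_nonneg u)
  · intro u hu
    rw [Function.mem_support] at hu
    rw [Set.Finite.coe_toFinset]
    constructor
    · by_contra hlt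
      push Not at hlt
      apply hu
      rw [SC.lg_zero_of_le h0 (hr.le.trans hlt), mul_zero]
    · intro hz
      apply hu
      rw [hz, zero_mul]

theorem S_count {D : ℂ → ℝ} (hD : LF D) (h : ∀ u, 0 ≤ D u) {R R' : ℝ} (hR : 0 < R) (hRR : R < R')
    (hR' : R' < 1) :
    ∑ᶠ u : ℂ, (if ‖u‖ < R then D u else 0) ≤ D 0 + S D R' / Real.log (R' / R) := by
  classical
  have hR0 : 0 < R' := hR.trans hRR
  have hlog : 0 < Real.log (R' / R) := Real.log_pos ((one_lt_div hR).mpr hRR)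
  have f1 : (Function.support fun u : ℂ => if ‖u‖ < R then D u else 0).Finite := by
    apply (hD R (hRR.trans hR')).subset
    intro u hu
    rw [Function.mem_support] at hu
    by_cases h1 : ‖u‖ < R
    · rw [if_pos h1] at hu
      exact ⟨h1.le, hu⟩
    · rw [if_neg h1] at hu
      exact absurd rfl hu
  have f2 : (Function.support fun u : ℂ => if u = 0 then D 0 else 0).Finite := by
    apply (Set.finite_singleton (0 : ℂ)).subset
    intro u hu
    rw [Function.mem_support] at hu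
    by_contra h1
    rw [Set.mem_singleton_iff] at h1
    rw [if_neg h1] at hu
    exact hu rfl
  have f3 : (Function.support fun u : ℂ =>
      (D u * log⁺ (R' / ‖u‖)) * (Real.log (R' / R))⁻¹).Finite := by
    apply (SC.supp_fin hD hR0 hR').subset
    intro u hu
    rw [Function.mem_support] at hu ⊢
    intro h1
    apply hu
    rw [h1, zero_mul]
  have e1 : S D R' / Real.log (R' / R) =
      ∑ᶠ u : ℂ, (D u * log⁺ (R' / ‖u‖)) * (Real.log (R' / R))⁻¹ := by
    unfold S
    rw [div_eq_mul_inv, finsum_mul]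
  have e2 : D 0 = ∑ᶠ u : ℂ, (if u = 0 then D 0 else 0) := by
    rw [finsum_eq_single _ (0 : ℂ) (fun x hx => if_neg hx), if_pos rfl]
  have e3 : D 0 + ∑ᶠ u : ℂ, (D u * log⁺ (R' / ‖u‖)) * (Real.log (R' / R))⁻¹ =
      ∑ᶠ u : ℂ, ((if u = 0 then D 0 else 0) +
        (D u * log⁺ (R' / ‖u‖)) * (Real.log (R' / R))⁻¹) := by
    rw [finsum_add_distrib f2 f3, ← e2]
  rw [e1, e3]
  apply finsum_le_finsum' f1
  · apply (f2.union f3).subset
    exact Function.support_add _ _
  · intro u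
    beta_reduce
    by_cases hu : u = 0
    · rw [hu, norm_zero, if_pos hR, if_pos rfl]
      have : 0 ≤ (D 0 * log⁺ (R' / (0 : ℝ))) * (Real.log (R' / R))⁻¹ :=
        mul_nonneg (mul_nonneg (h 0) Real.posLog_nonneg) (inv_nonneg.mpr hlog.le)
      linarith
    · rw [if_neg hu, zero_add]
      have hnn : 0 ≤ (D u * log⁺ (R' / ‖u‖)) * (Real.log (R' / R))⁻¹ :=
        mul_nonneg (mul_nonneg (h u) Real.posLog_nonneg) (inv_nonneg.mpr hlog.le)
      by_cases h1 : ‖u‖ < R
      · rw [if_pos h1]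
        have hu0 : 0 < ‖u‖ := norm_pos_iff.mpr hu
        have h2 : Real.log (R' / R) ≤ log⁺ (R' / ‖u‖) := by
          have h3 : R' / R ≤ R' / ‖u‖ := div_le_div_of_nonneg_left hR0.le hu0 h1.le
          have h4 : Real.log (R' / R) ≤ Real.log (R' / ‖u‖) :=
            Real.log_le_log (div_pos hR0 hR) h3
          exact h4.trans (le_max_right _ _)
        have h5 : 1 ≤ log⁺ (R' / ‖u‖) * (Real.log (R' / R))⁻¹ := by
          rw [← div_eq_mul_inv, le_div_iff₀ hlog, one_mul]
          exact h2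
        calc D u = D u * 1 := (mul_one _).symm
          _ ≤ D u * (log⁺ (R' / ‖u‖) * (Real.log (R' / R))⁻¹) :=
            mul_le_mul_of_nonneg_left h5 (h u)
          _ = _ := by ring
      · rw [if_neg h1]
        exact hnn

end Pool.Agent.MP4b24a5
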