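import Mathlib
import Pool.Agent.Lib.MP_4b24a5_an.Defs
import Pool.Agent.Lib.MP_4b24a5_an.SC

set_option autoImplicit false

noncomputable section

namespace Pool.Agent.MP4b24a5

open Complex Metric Real MeasureTheory Filter Topology

theorem jensen {f : ℂ → ℂ} (hf : Mer f) : ∃ c : ℝ, ∀ r : ℝ, 0 < r → r < 1 →
    circleAverage (fun z => Real.log ‖f z‖) 0 r =
      S (fun u => (od f u : ℝ)) r + (od f 0 : ℝ) * Real.log r + c := by
  refine ⟨Real.log ‖meromorphicTrailingCoeffAt f 0‖, fun r h0 h1 => ?_⟩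
  have hsub : closedBall (0 : ℂ) |r| ⊆ ball 0 1 := by
    rw [abs_of_pos h0]
    exact closedBall_subset_ball h1
  have hm : MeromorphicOn f (closedBall 0 |r|) := fun z hz => hf.1 z (hsub hz)
  rw [MeromorphicOn.circleAverage_log_norm h0.ne' hm]
  have hd : ∀ u ∈ closedBall (0 : ℂ) |r|,
      MeromorphicOn.divisor f (closedBall 0 |r|) u = od f u := by
    intro u hu
    rw [MeromorphicOn.divisor_apply hm hu]
    rfl
  have h2 : (MeromorphicOn.divisor f (closedBall (0 : ℂ) |r|) 0 : ℝ) = (od f 0 : ℝ) := by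
    rw [hd 0 (by simp)]
  rw [h2]
  have h3 : ∑ᶠ u : ℂ, (MeromorphicOn.divisor f (closedBall (0 : ℂ) |r|) u : ℝ) *
      Real.log (r * ‖(0 : ℂ) - u‖⁻¹) = S (fun u => (od f u : ℝ)) r := by
    unfold S
    refine finsum_congr fun u => ?_
    rw [zero_sub, norm_neg, ← div_eq_mul_inv]
    by_cases hu : u ∈ closedBall (0 : ℂ) |r|
    · rw [hd u hu]
      congr 1
      rcases eq_or_ne u 0 with hu0 | hu0
      · simp [hu0]
      · have hn : 0 < ‖u‖ := norm_pos_iff.mpr hu0
        have hle : ‖u‖ ≤ r := by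
          rw [abs_of_pos h0, mem_closedBall, dist_zero_right] at hu
          exact hu
        rw [Real.posLog_eq_log]
        rw [abs_of_pos (div_pos h0 hn)]
        exact (one_le_div hn).mpr hle
    · have hz : (MeromorphicOn.divisor f (closedBall (0 : ℂ) |r|)) u = 0 :=
        Function.locallyFinsuppWithin.apply_eq_zero_of_notMem _ hu
      have hlt : r < ‖u‖ := by
        rw [abs_of_pos h0, mem_closedBall, dist_zero_right, not_le] at hu
        exact hu
      have hp : log⁺ (r / ‖u‖) = 0 := by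
        rw [Real.posLog_eq_zero_iff, abs_of_nonneg (by positivity)]
        exact ((div_lt_one (h0.trans hlt)).mpr hlt).le
      rw [hz, hp]
      simp
  rw [h3]

private theorem mer_sphere {f : ℂ → ℂ} (hf : MeromorphicOn f (ball 0 1)) {r : ℝ} (h0 : 0 < r)
    (h1 : r < 1) : MeromorphicOn f (sphere 0 |r|) := by
  intro z hz
  apply hf
  rw [abs_of_pos h0] at hz
  rw [mem_sphere_zero_iff_norm] at hz
  rw [mem_ball_zero_iff, hz]
  exact h1

theorem ci_log {f : ℂ → ℂ} (hf : Mer f) {r : ℝ} (h0 : 0 < r) (h1 : r < 1) :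
    CircleIntegrable (fun z => Real.log ‖f z‖) 0 r :=
  (mer_sphere hf.1 h0 h1).circleIntegrable_log_norm

theorem ci_pos {f : ℂ → ℂ} (hf : MeromorphicOn f (ball 0 1)) {r : ℝ} (h0 : 0 < r) (h1 : r < 1) :
    CircleIntegrable (fun z => log⁺ ‖f z‖) 0 r :=
  (mer_sphere hf h0 h1).circleIntegrable_posLog_norm

theorem ci_meas {f : ℂ → ℂ} (hf : MeromorphicOn f (ball 0 1)) {r : ℝ} (h0 : 0 < r) (h1 : r < 1) :
    AEStronglyMeasurable (fun θ : ℝ => f (circleMap 0 r θ))
      (volume.restrict (Set.uIoc 0 (2 * π))) := by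
  have hm : MeromorphicOn f (closedBall 0 r) := fun z hz =>
    hf z (closedBall_subset_ball h1 hz)
  -- a finite exceptional set on the compact disc
  obtain ⟨E, hE, hEf⟩ : ∃ E : Set ℂ, E.Finite ∧
      ∀ z ∈ closedBall (0 : ℂ) r, z ∉ E → ContinuousAt f z := by
    have hloc : ∀ z ∈ closedBall (0 : ℂ) r, {x | x = z ∨ ContinuousAt f x} ∈ 𝓝 z := by
      intro z hz
      have hc := (hm z hz).eventually_continuousAt
      rw [eventually_nhdsWithin_iff] at hc
      filter_upwards [hc] with x hx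
      by_cases hxz : x = z
      · exact Or.inl hxz
      · exact Or.inr (hx hxz)
    obtain ⟨t, ht, hcov⟩ := (isCompact_closedBall (0 : ℂ) r).elim_nhds_subcover _ hloc
    refine ⟨(t : Set ℂ), t.finite_toSet, fun z hz hzE => ?_⟩
    obtain ⟨y, hy, hzy⟩ := Set.mem_iUnion₂.mp (hcov hz)
    rcases hzy with h | h
    · exact absurd (h ▸ (Finset.mem_coe.mpr hy) : z ∈ (t : Set ℂ)) hzE
    · exact h
  have hcount : (circleMap 0 r ⁻¹' E).Countable :=
    hE.countable.preimage_circleMap 0 h0.ne'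
  set C : Set ℝ := circleMap 0 r ⁻¹' E with hC
  have hcont : ContinuousOn (fun θ : ℝ => f (circleMap 0 r θ)) Cᶜ := by
    intro θ hθ
    apply ContinuousAt.continuousWithinAt
    have hz : ContinuousAt f (circleMap 0 r θ) :=
      hEf _ (circleMap_mem_closedBall 0 h0.le θ) hθ
    exact ContinuousAt.comp (f := circleMap 0 r) (g := f) hz (continuous_circleMap 0 r).continuousAt
  have hmeas : MeasurableSet Cᶜ := hcount.measurableSet.compl
  have h2 : AEStronglyMeasurable (fun θ : ℝ => f (circleMap 0 r θ)) (volume.restrict Cᶜ) :=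
    hcont.aestronglyMeasurable hmeas
  have h3 : (volume.restrict Cᶜ : Measure ℝ) = volume := by
    apply Measure.restrict_eq_self_of_ae_mem
    have h4 : ∀ᵐ x ∂(volume : Measure ℝ), x ∉ C := by
      rw [ae_iff]
      simpa using hcount.measure_zero volume
    exact h4
  rw [h3] at h2
  exact h2.restrict

theorem circleAverage_le {g h : ℂ → ℝ} {r : ℝ} (hr : 0 < r) (hg : CircleIntegrable g 0 r)
    (hh : CircleIntegrable h 0 r) {E : Set ℂ} (hE : E.Finite)
    (hle : ∀ z, ‖z‖ = r → z ∉ E → g z ≤ h z) :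
    circleAverage g 0 r ≤ circleAverage h 0 r := by
  have hcount : (circleMap 0 r ⁻¹' E).Countable :=
    hE.countable.preimage_circleMap 0 hr.ne'
  rw [circleAverage_def, circleAverage_def, smul_eq_mul, smul_eq_mul]
  apply mul_le_mul_of_nonneg_left _ (by positivity)
  apply intervalIntegral.integral_mono_ae (by positivity) hg hh
  have h4 : ∀ᵐ x ∂(volume : Measure ℝ), x ∉ circleMap 0 r ⁻¹' E :=
    measure_eq_zero_iff_ae_notMem.mp (hcount.measure_zero volume)
  filter_upwards [h4] with θ hθ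
  apply hle _ _ hθ
  rw [norm_circleMap_zero, abs_of_pos hr]

end Pool.Agent.MP4b24a5
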