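import Mathlib
import Pool.Agent.Lib.MP_4b24a5_an.Defs
import Pool.Agent.Lib.MP_4b24a5_an.SC
import Pool.Agent.Lib.MP_4b24a5_an.Jen

set_option autoImplicit false

noncomputable section

namespace Pool.Agent.MP4b24a5

open Complex Metric Real MeasureTheory Filter Topology

namespace Dec

/-- zero free analytic functions on the closed disc: the logarithmic derivative is given by the
boundary values of the modulus -/
theorem logDeriv_eq {g : ℂ → ℂ} {R : ℝ} (hR : 0 < R) (hg : AnalyticOnNhd ℂ g (closedBall 0 R))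
    (h0 : ∀ u ∈ closedBall (0 : ℂ) R, g u ≠ 0) {z : ℂ} (hz : z ∈ ball (0 : ℂ) R) :
    logDeriv g z =
      circleAverage (fun ζ => (2 * ζ / (ζ - z) ^ 2) • ((Real.log ‖g ζ‖ : ℝ) : ℂ)) 0 R := by
  have hci : CircleIntegrable (fun ζ => Real.log ‖g ζ‖) 0 R := by
    apply MeromorphicOn.circleIntegrable_log_norm
    intro x hx
    rw [abs_of_pos hR] at hx
    exact (hg x (sphere_subset_closedBall hx)).meromorphicAt
  have hci' : CircleIntegrable (fun ζ => ((Real.log ‖g ζ‖ : ℝ) : ℂ)) 0 R := by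
    simp only [CircleIntegrable, intervalIntegrable_iff] at hci ⊢
    exact Complex.ofRealCLM.integrable_comp hci
  set F : ℂ → ℂ := fun w => circleAverage
    (fun ζ => herglotzRieszKernel 0 w ζ • ((Real.log ‖g ζ‖ : ℝ) : ℂ)) 0 R with hF
  have hFd : ∀ w ∈ ball (0 : ℂ) R, HasDerivAt F
      (circleAverage (fun ζ => (2 * ζ / (ζ - w) ^ 2) • ((Real.log ‖g ζ‖ : ℝ) : ℂ)) 0 R) w :=
    fun w hw => hasDerivAt_circleAverage_herglotzRieszKernel_smul hci' hw
  have hFre : ∀ w ∈ ball (0 : ℂ) R, (F w).re = Real.log ‖g w‖ := by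
    intro w hw
    rw [hF]
    beta_reduce
    rw [re_circleAverage_herglotzRieszKernel_smul hci hw]
    exact InnerProductSpace.HarmonicOnNhd.circleAverage_re_herglotzRieszKernel_smul
      (f := fun ζ => Real.log ‖g ζ‖) (fun x hx => (hg x hx).harmonicAt_log_norm (h0 x hx)) hw
  set h : ℂ → ℂ := fun w => g w * Complex.exp (-F w) with hh
  have hhn : ∀ w ∈ ball (0 : ℂ) R, ‖h w‖ = 1 := by
    intro w hw
    have hgw : 0 < ‖g w‖ := norm_pos_iff.mpr (h0 w (ball_subset_closedBall hw))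
    rw [hh]
    beta_reduce
    rw [norm_mul, Complex.norm_exp, Complex.neg_re, hFre w hw, Real.exp_neg, Real.exp_log hgw]
    exact mul_inv_cancel₀ hgw.ne'
  have hgd : ∀ w ∈ ball (0 : ℂ) R, DifferentiableAt ℂ g w := fun w hw =>
    (hg w (ball_subset_closedBall hw)).differentiableAt
  have hed : ∀ w ∈ ball (0 : ℂ) R, HasDerivAt (fun w => Complex.exp (-F w))
      (Complex.exp (-F w) * (-(circleAverage
        (fun ζ => (2 * ζ / (ζ - w) ^ 2) • ((Real.log ‖g ζ‖ : ℝ) : ℂ)) 0 R))) w := fun w hw =>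
    (hFd w hw).neg.cexp
  have hhd : DifferentiableOn ℂ h (ball (0 : ℂ) R) := fun w hw =>
    ((hgd w hw).mul (hed w hw).differentiableAt).differentiableWithinAt
  have hconst := Complex.eqOn_of_isPreconnected_of_isMaxOn_norm
    (convex_ball (0 : ℂ) R).isPreconnected isOpen_ball hhd hz (fun w hw => by
      simp only [Set.mem_ofPred_eq, Function.comp_apply, hhn w hw, hhn z hz, le_refl])
  have hev : h =ᶠ[𝓝 z] fun _ => h z := by
    filter_upwards [isOpen_ball.mem_nhds hz] with w hw using hconst hw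
  have hder : deriv h z = 0 := by
    rw [hev.deriv_eq, deriv_const]
  have hprod : deriv h z = deriv g z * Complex.exp (-F z) + g z * (Complex.exp (-F z) *
      (-(circleAverage
        (fun ζ => (2 * ζ / (ζ - z) ^ 2) • ((Real.log ‖g ζ‖ : ℝ) : ℂ)) 0 R))) :=
    ((hgd z hz).hasDerivAt.mul (hed z hz)).deriv
  have hgz : g z ≠ 0 := h0 z (ball_subset_closedBall hz)
  have hez : Complex.exp (-F z) ≠ 0 := Complex.exp_ne_zero _
  rw [hder] at hprod
  rw [logDeriv_apply, div_eq_iff hgz]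
  have h2 : (deriv g z - g z * (circleAverage
        (fun ζ => (2 * ζ / (ζ - z) ^ 2) • ((Real.log ‖g ζ‖ : ℝ) : ℂ)) 0 R)) *
        Complex.exp (-F z) = 0 := by
    linear_combination (-1) * hprod
  have h3 := (mul_eq_zero.mp h2).resolve_right hez
  rw [sub_eq_zero] at h3
  rw [h3, mul_comm]

theorem norm_le {g : ℂ → ℂ} {R : ℝ} (hR : 0 < R) (hg : AnalyticOnNhd ℂ g (closedBall 0 R))
    (h0 : ∀ u ∈ closedBall (0 : ℂ) R, g u ≠ 0) {z : ℂ} (hz : z ∈ ball (0 : ℂ) R) :
    ‖logDeriv g z‖ ≤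
      circleAverage (fun ζ => 2 * R / ‖ζ - z‖ ^ 2 * |Real.log ‖g ζ‖|) 0 R := by
  rw [logDeriv_eq hR hg h0 hz, circleAverage_def, circleAverage_def, norm_smul,
    smul_eq_mul, Real.norm_of_nonneg (by positivity)]
  apply mul_le_mul_of_nonneg_left _ (by positivity)
  refine (intervalIntegral.norm_integral_le_integral_norm (by positivity)).trans ?_
  apply le_of_eq
  apply intervalIntegral.integral_congr
  intro θ _
  beta_reduce
  rw [norm_smul, norm_div, norm_mul, norm_pow, norm_circleMap_zero, abs_of_pos hR,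
    Complex.norm_real, Real.norm_eq_abs]
  norm_num

/-- the logarithmic derivative of the canonical factor -/
theorem logDeriv_cf {R : ℝ} {u z : ℂ} (hu : ‖u‖ < R) (hz : ‖z‖ < R) (huz : z ≠ u) :
    ‖logDeriv (canonicalFactor R u) z‖ ≤
      ‖z - u‖⁻¹ + ‖z - (R : ℂ) ^ 2 / (starRingEnd ℂ) u‖⁻¹ := by
  have hR : 0 < R := (norm_nonneg u).trans_lt hu
  have hRc : (R : ℂ) ≠ 0 := by exact_mod_cast hR.ne'
  have hzu : z - u ≠ 0 := sub_ne_zero.mpr huz
  have hnum : (R : ℂ) ^ 2 - (starRingEnd ℂ) u * z ≠ 0 := by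
    intro h
    rw [sub_eq_zero] at h
    have h1 := congrArg norm h
    rw [norm_mul, norm_pow, Complex.norm_real, Real.norm_of_nonneg hR.le, RCLike.norm_conj] at h1
    nlinarith [norm_nonneg u, norm_nonneg z]
  have hd1 : HasDerivAt (fun z : ℂ => (R : ℂ) ^ 2 - (starRingEnd ℂ) u * z)
      (-((starRingEnd ℂ) u)) z := by
    have := ((hasDerivAt_id z).const_mul ((starRingEnd ℂ) u)).const_sub ((R : ℂ) ^ 2)
    simpa using this
  have hd2 : HasDerivAt (fun z : ℂ => (R : ℂ) * (z - u)) (R : ℂ) z := by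
    have := ((hasDerivAt_id z).sub_const u).const_mul (R : ℂ)
    simpa using this
  have h1 : logDeriv (canonicalFactor R u) z =
      -((starRingEnd ℂ) u) / ((R : ℂ) ^ 2 - (starRingEnd ℂ) u * z) - (z - u)⁻¹ := by
    rw [canonicalFactor_def, logDeriv_div (f := fun z : ℂ => (R : ℂ) ^ 2 - (starRingEnd ℂ) u * z)
      (g := fun z : ℂ => (R : ℂ) * (z - u)) z hnum (mul_ne_zero hRc hzu) hd1.differentiableAt
      hd2.differentiableAt, logDeriv_apply, logDeriv_apply, hd1.deriv, hd2.deriv]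
    congr 1
    field_simp
  rw [h1, sub_eq_add_neg, add_comm]
  refine (norm_add_le _ _).trans ?_
  rw [norm_neg, norm_inv]
  apply add_le_add le_rfl
  by_cases hu0 : u = 0
  · rw [hu0, map_zero, neg_zero, zero_div, norm_zero]
    positivity
  · have hc : (starRingEnd ℂ) u ≠ 0 := by
      intro h
      exact hu0 ((map_eq_zero _).mp h)
    have h2 : -((starRingEnd ℂ) u) / ((R : ℂ) ^ 2 - (starRingEnd ℂ) u * z) =
        (z - (R : ℂ) ^ 2 / (starRingEnd ℂ) u)⁻¹ := by
      have h3 : z - (R : ℂ) ^ 2 / (starRingEnd ℂ) u =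
          ((R : ℂ) ^ 2 - (starRingEnd ℂ) u * z) / (-((starRingEnd ℂ) u)) := by
        field_simp
        ring
      rw [h3, inv_div]
    rw [h2, norm_inv]

end Dec

theorem dec {f : ℂ → ℂ} (hf : Mer f) {r R : ℝ} (hr : 0 < r) (hrR : r < R) (hR : R < 1)
    (hoff : ∀ u : ℂ, ‖u‖ = R → od f u = 0) : ∃ E : Set ℂ, E.Finite ∧ ∀ z : ℂ, ‖z‖ = r → z ∉ E →
      ‖logDeriv f z‖ ≤
        (∑ᶠ u : ℂ, (if ‖u‖ < R then |(od f u : ℝ)| else 0) *
          (‖z - u‖⁻¹ + ‖z - (R : ℂ) ^ 2 / (starRingEnd ℂ) u‖⁻¹)) +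
        circleAverage (fun ζ => 2 * R / ‖ζ - z‖ ^ 2 * |Real.log ‖f ζ‖|) 0 R := by
  have hR0 : 0 < R := hr.trans hrR
  have hsub : closedBall (0 : ℂ) R ⊆ ball (0 : ℂ) 1 := closedBall_subset_ball hR
  have h1 : MeromorphicOn f (closedBall (0 : ℂ) R) := fun z hz => hf.1 z (hsub hz)
  obtain ⟨g, D⟩ := h1.exists_ecanonicalDecomp (fun u => hf.2 u (hsub u.2))
  have hmb : MeromorphicOn f (ball (0 : ℂ) R) := fun z hz => h1 z (ball_subset_closedBall hz)
  have hms : MeromorphicOn f (sphere (0 : ℂ) R) := fun z hz => h1 z (sphere_subset_closedBall hz)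
  have hds : MeromorphicOn.divisor f (sphere (0 : ℂ) R) = 0 := by
    ext u
    by_cases hu : u ∈ sphere (0 : ℂ) R
    · rw [MeromorphicOn.divisor_apply hms hu]
      have := hoff u (mem_sphere_zero_iff_norm.mp hu)
      unfold od at this
      rw [this]
      rfl
    · rw [Function.locallyFinsuppWithin.apply_eq_zero_of_notMem _ hu]
      rfl
  have hdb : ∀ u : ℂ, ((MeromorphicOn.divisor f (ball (0 : ℂ) R) u : ℤ) : ℝ) =
      if ‖u‖ < R then (od f u : ℝ) else 0 := by
    intro u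
    by_cases hu : ‖u‖ < R
    · rw [if_pos hu, MeromorphicOn.divisor_apply hmb (mem_ball_zero_iff.mpr hu)]
      rfl
    · rw [if_neg hu, Function.locallyFinsuppWithin.apply_eq_zero_of_notMem _
        (fun h => hu (mem_ball_zero_iff.mp h))]
      norm_num
  have hfin : (MeromorphicOn.divisor f (ball (0 : ℂ) R)).support.Finite :=
    h1.divisor_ball_support_finite
  set s : Finset ℂ := hfin.toFinset with hs
  set P : ℂ → ℂ := ∏ u ∈ s, (canonicalFactor R u) ^ (-MeromorphicOn.divisor f (ball 0 R) u)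
    with hP
  have hPe : (∏ᶠ u, (canonicalFactor R u) ^ (-MeromorphicOn.divisor f (ball 0 R) u)) = P := by
    rw [hP]
    apply finprod_eq_prod_of_mulSupport_subset
    intro u hu
    rw [hs, Set.Finite.coe_toFinset, Function.mem_support]
    intro h
    rw [Function.mem_mulSupport] at hu
    apply hu
    rw [h, neg_zero, zpow_zero]
  have hev : f =ᶠ[codiscreteWithin (closedBall 0 R)] P • g := by
    have h := D.eventuallyEq
    rw [hPe, hds] at h
    simpa using h
  have hperf : Preperfect (closedBall (0 : ℂ) R) := by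
    rw [← closure_ball (0 : ℂ) hR0.ne']
    exact isOpen_ball.perfect_closure.2
  have hPm : Meromorphic P := by
    intro x
    rw [hP]
    apply MeromorphicAt.prod
    intro u _
    exact (meromorphic_canonicalFactor R u x).zpow _
  have hne : ∀ x ∈ closedBall (0 : ℂ) R, f =ᶠ[𝓝[≠] x] P • g := by
    intro x hx
    exact (h1 x hx).eventuallyEq_nhdsNE_of_eventuallyEq_codiscreteWithin_preperfect
      ((hPm x).smul (D.analyticOnNhd x hx).meromorphicAt) hx hperf hev
  -- a finite exceptional set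
  obtain ⟨E, hE, hEf⟩ : ∃ E : Set ℂ, E.Finite ∧
      ∀ z ∈ closedBall (0 : ℂ) R, z ∉ E → f =ᶠ[𝓝 z] P • g := by
    have hloc : ∀ z ∈ closedBall (0 : ℂ) R, {x | x = z ∨ f =ᶠ[𝓝 x] P • g} ∈ 𝓝 z := by
      intro z hz
      have hc := hne z hz
      have hc2 : ∀ᶠ x in 𝓝 z, ∀ᶠ y in 𝓝 x, y ∈ ({z}ᶜ : Set ℂ) → f y = (P • g) y := by
        rw [Filter.EventuallyEq, eventually_nhdsWithin_iff] at hc
        exact hc.eventually_nhds
      filter_upwards [hc2] with x hx
      by_cases hxz : x = z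
      · exact Or.inl hxz
      · right
        have hopen : ({z}ᶜ : Set ℂ) ∈ 𝓝 x := isOpen_compl_singleton.mem_nhds hxz
        filter_upwards [hx, hopen] with y hy hy2 using hy hy2
    obtain ⟨t, ht, hcov⟩ := (isCompact_closedBall (0 : ℂ) R).elim_nhds_subcover _ hloc
    refine ⟨(t : Set ℂ), t.finite_toSet, fun z hz hzE => ?_⟩
    obtain ⟨y, hy, hzy⟩ := Set.mem_iUnion₂.mp (hcov hz)
    rcases hzy with h | h
    · exact absurd (h ▸ (Finset.mem_coe.mpr hy) : z ∈ (t : Set ℂ)) hzE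
    · exact h
  refine ⟨E ∪ (s : Set ℂ), hE.union s.finite_toSet, fun z hz hzE => ?_⟩
  rw [Set.mem_union, not_or] at hzE
  obtain ⟨hzE, hzs⟩ := hzE
  have hzR : z ∈ ball (0 : ℂ) R := by
    rw [mem_ball_zero_iff, hz]
    exact hrR
  have hzR' : z ∈ closedBall (0 : ℂ) R := ball_subset_closedBall hzR
  have hsR : ∀ u ∈ s, u ∈ ball (0 : ℂ) R := by
    intro u hu
    rw [hs, Set.Finite.mem_toFinset] at hu
    exact (MeromorphicOn.divisor f (ball (0 : ℂ) R)).supportWithinDomain hu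
  have hzu : ∀ u ∈ s, z ≠ u := by
    intro u hu h
    exact hzs (Finset.mem_coe.mpr (h ▸ hu))
  have hcn : ∀ u ∈ s, canonicalFactor R u z ≠ 0 := fun u hu =>
    canonicalFactor_ne_zero (hsR u hu) hzR' (hzu u hu)
  have hcd : ∀ u ∈ s, DifferentiableAt ℂ (canonicalFactor R u) z := fun u hu =>
    (analyticOnNhd_canonicalFactor R u z (hzu u hu)).differentiableAt
  have hPz : P z = ∏ u ∈ s,
      canonicalFactor R u z ^ (-MeromorphicOn.divisor f (ball 0 R) u) := by
    rw [hP, Finset.prod_apply]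
    rfl
  have hPn : P z ≠ 0 := by
    rw [hPz]
    exact Finset.prod_ne_zero_iff.mpr fun u hu => zpow_ne_zero _ (hcn u hu)
  have hPfun : P = fun w => ∏ u ∈ s,
      canonicalFactor R u w ^ (-MeromorphicOn.divisor f (ball 0 R) u) := by
    funext w
    rw [hP, Finset.prod_apply]
    rfl
  have hfd : ∀ u ∈ s, DifferentiableAt ℂ
      (fun w => canonicalFactor R u w ^ (-MeromorphicOn.divisor f (ball 0 R) u)) z := fun u hu =>
    (hcd u hu).zpow (Or.inl (hcn u hu))
  have hPd : DifferentiableAt ℂ P z := by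
    rw [hPfun]
    exact DifferentiableAt.fun_finsetProd hfd
  have hPl : logDeriv P z = ∑ u ∈ s,
      ((-MeromorphicOn.divisor f (ball 0 R) u : ℤ) : ℂ) * logDeriv (canonicalFactor R u) z := by
    rw [hPfun, logDeriv_prod (x := z) (f := fun u w =>
      canonicalFactor R u w ^ (-MeromorphicOn.divisor f (ball 0 R) u))
      (fun u hu => zpow_ne_zero _ (hcn u hu)) hfd]
    apply Finset.sum_congr rfl
    intro u hu
    exact logDeriv_fun_zpow (hcd u hu) _
  have hgn : g z ≠ 0 := D.ne_zero z hzR'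
  have hgd : DifferentiableAt ℂ g z := (D.analyticOnNhd z hzR').differentiableAt
  have hfl : logDeriv f z = logDeriv P z + logDeriv g z := by
    rw [(logDeriv_congr_nhds (hEf z hzR' hzE)).eq_of_nhds]
    have : (P • g : ℂ → ℂ) = fun w => P w * g w := rfl
    rw [this, logDeriv_mul z hPn hgn hPd hgd]
  have hsum : (∑ᶠ u : ℂ, (if ‖u‖ < R then |(od f u : ℝ)| else 0) *
      (‖z - u‖⁻¹ + ‖z - (R : ℂ) ^ 2 / (starRingEnd ℂ) u‖⁻¹)) =
      ∑ u ∈ s, |((MeromorphicOn.divisor f (ball (0 : ℂ) R) u : ℤ) : ℝ)| *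
      (‖z - u‖⁻¹ + ‖z - (R : ℂ) ^ 2 / (starRingEnd ℂ) u‖⁻¹) := by
    rw [finsum_eq_sum_of_support_subset (s := s)]
    · apply Finset.sum_congr rfl
      intro u hu
      rw [hdb u, if_pos (mem_ball_zero_iff.mp (hsR u hu)),
        if_pos (mem_ball_zero_iff.mp (hsR u hu))]
    · intro u hu
      rw [hs, Set.Finite.coe_toFinset, Function.mem_support]
      intro h
      rw [Function.mem_support] at hu
      apply hu
      have h2 := hdb u
      rw [h, Int.cast_zero] at h2
      by_cases h3 : ‖u‖ < R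
      · rw [if_pos h3] at h2
        rw [if_pos h3, ← h2, abs_zero, zero_mul]
      · rw [if_neg h3, zero_mul]
  rw [hsum, hfl]
  refine (norm_add_le _ _).trans (add_le_add ?_ ?_)
  · rw [hPl]
    refine (norm_sum_le _ _).trans (Finset.sum_le_sum fun u hu => ?_)
    rw [norm_mul]
    have h3 : ‖((-MeromorphicOn.divisor f (ball 0 R) u : ℤ) : ℂ)‖ =
        |((MeromorphicOn.divisor f (ball (0 : ℂ) R) u : ℤ) : ℝ)| := by
      rw [Complex.norm_intCast, Int.cast_neg, abs_neg]
    rw [h3]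
    apply mul_le_mul_of_nonneg_left _ (abs_nonneg _)
    exact Dec.logDeriv_cf (mem_ball_zero_iff.mp (hsR u hu)) (mem_ball_zero_iff.mp hzR) (hzu u hu)
  · refine (Dec.norm_le hR0 D.analyticOnNhd D.ne_zero hzR).trans (le_of_eq ?_)
    apply circleAverage_congr_codiscreteWithin _ hR0.ne'
    have hcd : (E)ᶜ ∈ codiscreteWithin (sphere (0 : ℂ) |R|) :=
      codiscreteWithin_mono (Set.subset_univ _) hE.compl_mem_codiscrete
    filter_upwards [hcd, self_mem_codiscreteWithin (sphere (0 : ℂ) |R|)] with ζ hζ hζR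
    rw [abs_of_pos hR0] at hζR
    have h4 : f ζ = (P • g) ζ := (hEf ζ (sphere_subset_closedBall hζR) hζ).eq_of_nhds
    have h5 : ‖P ζ‖ = 1 := by
      rw [hPfun]
      beta_reduce
      rw [norm_prod]
      apply Finset.prod_eq_one
      intro u hu
      rw [norm_zpow, norm_canonicalFactor_eval_circle_eq_one (hsR u hu) hζR, one_zpow]
    have h6 : ‖f ζ‖ = ‖g ζ‖ := by
      rw [h4]
      change ‖P ζ * g ζ‖ = _
      rw [norm_mul, h5, one_mul]
    rw [h6]

end Pool.Agent.MP4b24a5
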