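import Mathlib
import Pool.Agent.Lib.MP_4b24a5_an.Defs

set_option autoImplicit false

noncomputable section

namespace Pool.Agent.MP4b24a5

open Complex Metric Real MeasureTheory Filter Topology

/-- the comparison function -/
private def esG (s : ℝ) (t : ℝ) : ℝ := |Real.sin t| ^ (-s)

private theorem esG_nonneg (s t : ℝ) : 0 ≤ esG s t := Real.rpow_nonneg (abs_nonneg _) _

private theorem esG_meas (s : ℝ) : Measurable (esG s) :=
  (Real.measurable_sin.abs).pow_const _

private theorem esG_refl (s t : ℝ) : esG s (Real.pi - t) = esG s t := by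
  unfold esG
  rw [Real.sin_pi_sub]

private theorem esG_periodic (s : ℝ) : Function.Periodic (esG s) Real.pi := by
  intro t
  unfold esG
  rw [Real.sin_add_pi, abs_neg]

private theorem esG_half {s : ℝ} (hs : 0 < s) (hs1 : s < 1) :
    IntervalIntegrable (esG s) volume 0 (Real.pi / 2) := by
  have hpi := Real.pi_pos
  have h1 : IntervalIntegrable (fun t : ℝ => (2 / Real.pi) ^ (-s) * t ^ (-s)) volume 0
      (Real.pi / 2) :=
    (intervalIntegral.intervalIntegrable_rpow' (by linarith)).const_mul _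
  refine h1.mono_fun' (esG_meas s).aestronglyMeasurable ?_
  rw [Set.uIoc_of_le (by positivity)]
  refine (ae_restrict_iff' measurableSet_Ioc).mpr (Eventually.of_forall fun t ht => ?_)
  have ht0 : 0 < t := ht.1
  have h2 : 2 / Real.pi * t ≤ Real.sin t := Real.mul_le_sin ht0.le ht.2
  have h3 : 0 < 2 / Real.pi * t := by positivity
  have h4 : |Real.sin t| = Real.sin t := abs_of_pos (h3.trans_le h2)
  simp only [Real.norm_eq_abs, abs_of_nonneg (esG_nonneg s t)]
  unfold esG
  rw [h4, ← Real.mul_rpow (by positivity) ht0.le]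
  exact Real.rpow_le_rpow_of_nonpos h3 h2 (by linarith)

private theorem esG_int {s : ℝ} (hs : 0 < s) (hs1 : s < 1) (a b : ℝ) :
    IntervalIntegrable (esG s) volume a b := by
  have h1 := esG_half hs hs1
  have h2 := h1.comp_sub_left Real.pi
  have h3 : (fun x => esG s (Real.pi - x)) = esG s := funext fun t => esG_refl s t
  rw [h3] at h2
  have h4 : Real.pi - Real.pi / 2 = Real.pi / 2 := by ring
  rw [sub_zero, h4] at h2
  have h5 : IntervalIntegrable (esG s) volume 0 (0 + Real.pi) := by
    rw [zero_add]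
    exact h1.trans h2.symm
  exact (esG_periodic s).intervalIntegrable Real.pi_pos.ne' h5 a b

private theorem es_lower (r t : ℝ) (hr : 0 < r) (u : ℂ) :
    r * |Real.sin (t - Complex.arg u)| ≤ ‖circleMap 0 r t - u‖ := by
  have h1 : circleMap 0 r t - u =
      Complex.exp (Complex.arg u * Complex.I) *
        (r * Complex.exp ((t - Complex.arg u : ℝ) * Complex.I) - ‖u‖) := by
    have h2 : (‖u‖ : ℂ) * Complex.exp (Complex.arg u * Complex.I) = u :=
      Complex.norm_mul_exp_arg_mul_I u
    have h3 : Complex.exp (t * Complex.I) =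
        Complex.exp (Complex.arg u * Complex.I) *
          Complex.exp ((t - Complex.arg u : ℝ) * Complex.I) := by
      rw [← Complex.exp_add]
      congr 1
      push_cast
      ring
    rw [circleMap, zero_add, h3]
    nth_rewrite 3 [← h2]
    ring
  rw [h1, norm_mul, Complex.norm_exp_ofReal_mul_I, one_mul]
  refine le_trans (le_of_eq ?_) (Complex.abs_im_le_norm _)
  have h4 : ((r : ℂ) * Complex.exp ((t - Complex.arg u : ℝ) * Complex.I) - ‖u‖).im =
      r * Real.sin (t - Complex.arg u) := by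
    rw [Complex.sub_im, Complex.ofReal_im, sub_zero, Complex.im_ofReal_mul,
      Complex.exp_ofReal_mul_I_im]
  rw [h4, abs_mul, abs_of_pos hr]

theorem es {s : ℝ} (hs : 0 < s) (hs1 : s < 1) : ∃ C : ℝ, 0 ≤ C ∧ ∀ (r : ℝ) (u : ℂ), 0 < r →
    CircleIntegrable (fun z => ‖z - u‖ ^ (-s)) 0 r ∧
      circleAverage (fun z => ‖z - u‖ ^ (-s)) 0 r ≤ C * r ^ (-s) := by
  have hpi := Real.pi_pos
  refine ⟨(2 * Real.pi)⁻¹ * ∫ t in (0 : ℝ)..2 * Real.pi, esG s t, ?_, ?_⟩
  · exact mul_nonneg (by positivity)
      (intervalIntegral.integral_nonneg (by positivity) fun t _ => esG_nonneg s t)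
  intro r u hr
  set a : ℝ := Complex.arg u with ha
  -- the exceptional set
  have hnull : ∀ᵐ t : ℝ, Real.sin (t - a) ≠ 0 := by
    have h1 : Set.Countable {t : ℝ | Real.sin (t - a) = 0} := by
      refine (Set.countable_range fun n : ℤ => (n : ℝ) * Real.pi + a).mono ?_
      intro t ht
      obtain ⟨n, hn⟩ := Real.sin_eq_zero_iff.mp ht
      exact ⟨n, by simp only; rw [hn]; ring⟩
    have h2 := h1.ae_notMem volume
    filter_upwards [h2] with t ht using ht
  have hle : ∀ᵐ t : ℝ, ‖circleMap 0 r t - u‖ ^ (-s) ≤ r ^ (-s) * esG s (t - a) := by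
    filter_upwards [hnull] with t ht
    have h1 := es_lower r t hr u
    have h2 : 0 < |Real.sin (t - a)| := abs_pos.mpr ht
    unfold esG
    rw [← Real.mul_rpow hr.le h2.le]
    exact Real.rpow_le_rpow_of_nonpos (mul_pos hr h2) h1 (by linarith)
  have hg : IntervalIntegrable (fun t => r ^ (-s) * esG s (t - a)) volume 0 (2 * Real.pi) := by
    have h1 := (esG_int hs hs1 (0 - a) (2 * Real.pi - a)).comp_sub_right a
    rw [sub_add_cancel, sub_add_cancel] at h1
    exact h1.const_mul _
  have hmeas : Measurable (fun t : ℝ => ‖circleMap 0 r t - u‖ ^ (-s)) :=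
    (((continuous_circleMap 0 r).sub continuous_const).norm.measurable).pow_const _
  have hci : IntervalIntegrable (fun t => ‖circleMap 0 r t - u‖ ^ (-s)) volume 0
      (2 * Real.pi) := by
    refine hg.mono_fun' hmeas.aestronglyMeasurable ?_
    refine ae_restrict_of_ae ?_
    filter_upwards [hle] with t ht
    simp only [Real.norm_eq_abs]
    rw [abs_of_nonneg (Real.rpow_nonneg (norm_nonneg _) _)]
    exact ht
  refine ⟨hci, ?_⟩
  unfold circleAverage
  rw [smul_eq_mul]
  have h1 : ∫ t in (0 : ℝ)..2 * Real.pi, ‖circleMap 0 r t - u‖ ^ (-s) ≤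
      ∫ t in (0 : ℝ)..2 * Real.pi, r ^ (-s) * esG s (t - a) :=
    intervalIntegral.integral_mono_ae (by positivity) hci hg hle
  have h2 : ∫ t in (0 : ℝ)..2 * Real.pi, r ^ (-s) * esG s (t - a) =
      r ^ (-s) * ∫ t in (0 : ℝ)..2 * Real.pi, esG s t := by
    rw [intervalIntegral.integral_const_mul, intervalIntegral.integral_comp_sub_right]
    congr 1
    have hp : Function.Periodic (esG s) (2 * Real.pi) := by
      have := (esG_periodic s).nsmul 2
      simpa [two_mul, two_nsmul] using this
    have h3 := hp.intervalIntegral_add_eq (0 - a) 0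
    rw [zero_add] at h3
    rw [← h3]
    congr 1
    ring
  rw [h2] at h1
  calc (2 * Real.pi)⁻¹ * ∫ t in (0 : ℝ)..2 * Real.pi, ‖circleMap 0 r t - u‖ ^ (-s)
      ≤ (2 * Real.pi)⁻¹ * (r ^ (-s) * ∫ t in (0 : ℝ)..2 * Real.pi, esG s t) :=
        mul_le_mul_of_nonneg_left h1 (by positivity)
    _ = (2 * Real.pi)⁻¹ * (∫ t in (0 : ℝ)..2 * Real.pi, esG s t) * r ^ (-s) := by ring

end Pool.Agent.MP4b24a5
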