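import Mathlib
import Pool.Agent.Lib.MP_4b24a5_an.Defs

set_option autoImplicit false

noncomputable section

namespace Pool.Agent.MP4b24a5

open Complex Metric Real MeasureTheory Filter Topology

namespace KerAux

/-- the mean of the Poisson kernel -/
theorem mean_kernel {r R : ℝ} (hr : 0 < r) (hrR : r < R) {ζ : ℂ} (hζ : ‖ζ‖ = R) :
    circleAverage (fun z => (‖ζ - z‖ ^ 2)⁻¹) 0 r = (R ^ 2 - r ^ 2)⁻¹ := by
  have hR : 0 < R := hr.trans hrR
  have hne : ∀ z ∈ closedBall (0 : ℂ) r, ζ - z ≠ 0 := by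
    intro z hz h
    rw [mem_closedBall_zero_iff] at hz
    have h1 : ζ = z := sub_eq_zero.mp h
    rw [← h1, hζ] at hz
    linarith
  have hd : DifferentiableOn ℂ (fun z => (ζ + z) / (ζ - z)) (closedBall 0 r) := by
    intro z hz
    exact ((differentiableAt_const ζ).add differentiableAt_id).div
      ((differentiableAt_const ζ).sub differentiableAt_id) (hne z hz)
        |>.differentiableWithinAt
  have hdc : DiffContOnCl ℂ (fun z => (ζ + z) / (ζ - z)) (ball 0 |r|) := by
    rw [abs_of_pos hr]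
    exact hd.diffContOnCl_ball subset_rfl
  have h1 : circleAverage (fun z => (ζ + z) / (ζ - z)) 0 r = 1 := by
    rw [hdc.circleAverage, add_zero, sub_zero, div_self]
    intro h
    rw [h, norm_zero] at hζ
    linarith
  have hint : CircleIntegrable (fun z => (ζ + z) / (ζ - z)) 0 r := by
    refine ContinuousOn.circleIntegrable hr.le ?_
    exact hd.continuousOn.mono sphere_subset_closedBall
  have h2 := Complex.reCLM.circleAverage_comp_comm hint
  rw [h1] at h2
  have h3 : circleAverage (fun z => (R ^ 2 - r ^ 2) * (‖ζ - z‖ ^ 2)⁻¹) 0 r = 1 := by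
    rw [show (1 : ℝ) = Complex.reCLM (1 : ℂ) by simp, ← h2]
    refine circleAverage_congr_sphere fun z hz => ?_
    rw [abs_of_pos hr, mem_sphere_zero_iff_norm] at hz
    have h4 : ((ζ + z) / (ζ - z)).re = (‖ζ‖ ^ 2 - ‖z‖ ^ 2) / ‖ζ - z‖ ^ 2 := by
      have h5 := congrFun (poissonKernel_eq_re_herglotzRieszKernel (c := 0) (w := z)) ζ
      simp only [poissonKernel_def, Function.comp_apply, herglotzRieszKernel_def, sub_zero] at h5
      exact h5.symm
    simp only [Function.comp_apply, Complex.reCLM_apply]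
    rw [h4, hζ, hz]
    ring
  have h6 : circleAverage (fun z => (R ^ 2 - r ^ 2) * (‖ζ - z‖ ^ 2)⁻¹) 0 r =
      (R ^ 2 - r ^ 2) * circleAverage (fun z => (‖ζ - z‖ ^ 2)⁻¹) 0 r := by
    have := circleAverage_fun_smul (𝕜 := ℝ) (a := R ^ 2 - r ^ 2)
      (f := fun z => (‖ζ - z‖ ^ 2)⁻¹) (c := 0) (R := r)
    simpa only [smul_eq_mul] using this
  rw [h6] at h3
  exact eq_inv_of_mul_eq_one_right h3

end KerAux

open KerAux in
theorem ker {r R : ℝ} (hr : 0 < r) (hrR : r < R) {φ : ℂ → ℝ} (h0 : ∀ z, 0 ≤ φ z)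
    (hφ : CircleIntegrable φ 0 R) :
    CircleIntegrable (fun z => circleAverage (fun ζ => 2 * R / ‖ζ - z‖ ^ 2 * φ ζ) 0 R) 0 r ∧
    circleAverage (fun z => circleAverage (fun ζ => 2 * R / ‖ζ - z‖ ^ 2 * φ ζ) 0 R) 0 r =
      2 * R / (R ^ 2 - r ^ 2) * circleAverage φ 0 R := by
  have hR : 0 < R := hr.trans hrR
  have hpi : (0 : ℝ) ≤ 2 * π := by positivity
  set μ : Measure ℝ := volume.restrict (Set.Ioc 0 (2 * π)) with hμ
  have hφ' : Integrable (fun η => φ (circleMap 0 R η)) μ := by
    have h1 : IntervalIntegrable (fun η => φ (circleMap 0 R η)) volume 0 (2 * π) := hφ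
    rw [intervalIntegrable_iff_integrableOn_Ioc_of_le hpi] at h1
    exact h1
  -- the kernel
  set K : ℝ × ℝ → ℝ := fun x => 2 * R / ‖circleMap 0 R x.2 - circleMap 0 r x.1‖ ^ 2 with hK
  have hlow : ∀ x : ℝ × ℝ, R - r ≤ ‖circleMap 0 R x.2 - circleMap 0 r x.1‖ := by
    intro x
    have h1 := norm_sub_norm_le (circleMap 0 R x.2) (circleMap 0 r x.1)
    rw [norm_circleMap_zero, norm_circleMap_zero, abs_of_pos hR, abs_of_pos hr] at h1
    exact h1
  have hpos : ∀ x : ℝ × ℝ, 0 < ‖circleMap 0 R x.2 - circleMap 0 r x.1‖ := fun x =>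
    lt_of_lt_of_le (by linarith) (hlow x)
  have hKc : Continuous K := by
    refine Continuous.div continuous_const ?_ fun x => (pow_pos (hpos x) 2).ne'
    exact (((continuous_circleMap 0 R).comp continuous_snd).sub
      ((continuous_circleMap 0 r).comp continuous_fst)).norm.pow 2
  have hKb : ∀ x, ‖K x‖ ≤ 2 * R / (R - r) ^ 2 := by
    intro x
    rw [Real.norm_eq_abs, abs_of_nonneg (div_nonneg (by positivity) (by positivity))]
    refine div_le_div_of_nonneg_left (by positivity) (pow_pos (by linarith) 2) ?_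
    exact pow_le_pow_left₀ (by linarith) (hlow x) 2
  have hprod : Integrable (fun x : ℝ × ℝ => K x * φ (circleMap 0 R x.2)) (μ.prod μ) := by
    have h1 : Integrable (fun x : ℝ × ℝ => φ (circleMap 0 R x.2)) (μ.prod μ) := hφ'.comp_snd μ
    exact h1.bdd_mul hKc.aestronglyMeasurable (Filter.Eventually.of_forall hKb)
  have hF : ∀ θ : ℝ, circleAverage (fun ζ => 2 * R / ‖ζ - circleMap 0 r θ‖ ^ 2 * φ ζ) 0 R =
      (2 * π)⁻¹ * ∫ η, K (θ, η) * φ (circleMap 0 R η) ∂μ := by
    intro θ
    rw [circleAverage_def, intervalIntegral.integral_of_le hpi, smul_eq_mul]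
  constructor
  · change IntervalIntegrable (fun θ => circleAverage
      (fun ζ => 2 * R / ‖ζ - circleMap 0 r θ‖ ^ 2 * φ ζ) 0 R) volume 0 (2 * π)
    rw [intervalIntegrable_iff_integrableOn_Ioc_of_le hpi]
    simp only [hF]
    exact hprod.integral_prod_left.const_mul _
  · rw [circleAverage_def, intervalIntegral.integral_of_le hpi, smul_eq_mul]
    simp only [hF]
    rw [integral_const_mul]
    have hswap := integral_integral_swap (μ := μ) (ν := μ)
      (f := fun θ η => K (θ, η) * φ (circleMap 0 R η)) hprod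
    rw [← hμ, hswap]
    have hinner : ∀ η : ℝ, ∫ θ, K (θ, η) * φ (circleMap 0 R η) ∂μ =
        (2 * π * (2 * R / (R ^ 2 - r ^ 2))) * φ (circleMap 0 R η) := by
      intro η
      rw [integral_mul_const]
      congr 1
      have h1 := mean_kernel hr hrR (ζ := circleMap 0 R η) (by
        rw [norm_circleMap_zero, abs_of_pos hR])
      rw [circleAverage_def, intervalIntegral.integral_of_le hpi, smul_eq_mul] at h1
      have h2 : ∀ θ, K (θ, η) = 2 * R * (‖circleMap 0 R η - circleMap 0 r θ‖ ^ 2)⁻¹ := by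
        intro θ
        rw [hK]
        simp only
        rw [div_eq_mul_inv]
      simp only [h2]
      rw [integral_const_mul]
      have h3 : ∫ θ, (‖circleMap 0 R η - circleMap 0 r θ‖ ^ 2)⁻¹ ∂μ =
          2 * π * (R ^ 2 - r ^ 2)⁻¹ := by
        rw [← h1, ← mul_assoc, mul_inv_cancel₀ (by positivity), one_mul]
      rw [h3]
      ring
    simp only [hinner]
    rw [integral_const_mul, circleAverage_def, intervalIntegral.integral_of_le hpi, smul_eq_mul,
      ← hμ]
    have : (2 * π : ℝ) ≠ 0 := by positivity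
    field_simp

end Pool.Agent.MP4b24a5
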