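import Mathlib
import Pool.Agent.Lib.MP_4b24a5_an.Defs
import Pool.Agent.Lib.MP_4b24a5_an.SC
import Pool.Agent.Lib.MP_4b24a5_an.Jen
import Pool.Agent.Lib.MP_4b24a5_an.Es
import Pool.Agent.Lib.MP_4b24a5_an.Dec
import Pool.Agent.Lib.MP_4b24a5_an.Ker

set_option autoImplicit false

noncomputable section

namespace Pool.Agent.MP4b24a5

open Complex Metric Real MeasureTheory Filter Topology

namespace LdA

theorem rpow_sum_le {s : ℝ} (hs : 0 < s) (hs1 : s < 1) (F : Finset ℂ) (g : ℂ → ℝ)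
    (hg : ∀ i ∈ F, 0 ≤ g i) : (∑ i ∈ F, g i) ^ s ≤ ∑ i ∈ F, g i ^ s := by
  induction F using Finset.induction_on with
  | empty => simp [Real.zero_rpow hs.ne']
  | insert a F ha ih =>
    rw [Finset.sum_insert ha, Finset.sum_insert ha]
    have h1 : 0 ≤ g a := hg a (Finset.mem_insert_self _ _)
    have h2 : ∀ i ∈ F, 0 ≤ g i := fun i hi => hg i (Finset.mem_insert_of_mem hi)
    have h3 := Real.rpow_add_le_add_rpow h1 (Finset.sum_nonneg h2) hs.le hs1.le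
    have h4 := ih h2
    linarith

theorem int_rpow_le {s : ℝ} (hs : 0 < s) (hs1 : s < 1) (k : ℤ) : |(k : ℝ)| ^ s ≤ |(k : ℝ)| := by
  by_cases hk : k = 0
  · rw [hk, Int.cast_zero, abs_zero, Real.zero_rpow hs.ne']
  · have h1 : (1 : ℝ) ≤ |(k : ℝ)| := by
      rw [← Int.cast_abs]
      exact_mod_cast Int.one_le_abs hk
    calc |(k : ℝ)| ^ s ≤ |(k : ℝ)| ^ (1 : ℝ) := Real.rpow_le_rpow_of_exponent_le h1 hs1.le
      _ = |(k : ℝ)| := Real.rpow_one _

theorem inv_rpow_eq {s x : ℝ} (hx : 0 ≤ x) : (x⁻¹) ^ s = x ^ (-s) := by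
  rw [Real.inv_rpow hx, Real.rpow_neg hx]

theorem self_rpow_le {s x : ℝ} (hs : 0 < s) (hs1 : s < 1) (hx : 0 ≤ x) : x ^ s ≤ 1 + x := by
  rcases le_total x 1 with h | h
  · have := Real.rpow_le_one hx h hs.le
    linarith
  · have h1 : x ^ s ≤ x ^ (1 : ℝ) := Real.rpow_le_rpow_of_exponent_le h hs1.le
    rw [Real.rpow_one] at h1
    linarith

theorem ci_sum (F : Finset ℂ) (g : ℂ → ℂ → ℝ) {r : ℝ}
    (h : ∀ i ∈ F, CircleIntegrable (g i) 0 r) : CircleIntegrable (fun z => ∑ i ∈ F, g i z) 0 r := by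
  have h1 := CircleIntegrable.sum F h
  have e : (fun z => ∑ i ∈ F, g i z) = ∑ i ∈ F, g i := by
    ext z
    simp
  rw [e]
  exact h1

/-- a pointwise bound -/
theorem pointwise {s : ℝ} (hs : 0 < s) (hs1 : s < 1) (F : Finset ℂ) (a : ℂ → ℝ)
    (ha : ∀ u, 0 ≤ a u) (has : ∀ u, a u ^ s ≤ a u) (x y : ℂ → ℝ) (hx : ∀ u, 0 ≤ x u)
    (hy : ∀ u, 0 ≤ y u) {X A : ℝ} (hX : 0 ≤ X) (hA : 0 ≤ A)
    (h : X ≤ ∑ u ∈ F, a u * ((x u)⁻¹ + (y u)⁻¹) + A) :
    X ^ s ≤ ∑ u ∈ F, a u * (x u ^ (-s) + y u ^ (-s)) + (1 + A) := by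
  have h0 : ∀ u, 0 ≤ (x u)⁻¹ + (y u)⁻¹ := fun u =>
    add_nonneg (inv_nonneg.2 (hx u)) (inv_nonneg.2 (hy u))
  have h1 : ∀ u ∈ F, 0 ≤ a u * ((x u)⁻¹ + (y u)⁻¹) := fun u _ => mul_nonneg (ha u) (h0 u)
  have h2 := Real.rpow_le_rpow hX h hs.le
  have h3 := Real.rpow_add_le_add_rpow (Finset.sum_nonneg h1) hA hs.le hs1.le
  have h4 := rpow_sum_le hs hs1 F _ h1
  have h5 := self_rpow_le hs hs1 hA
  have h6 : ∑ u ∈ F, (a u * ((x u)⁻¹ + (y u)⁻¹)) ^ s ≤
      ∑ u ∈ F, a u * (x u ^ (-s) + y u ^ (-s)) := by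
    refine Finset.sum_le_sum fun u _ => ?_
    rw [Real.mul_rpow (ha u) (h0 u)]
    have h7 := Real.rpow_add_le_add_rpow (inv_nonneg.2 (hx u)) (inv_nonneg.2 (hy u)) hs.le hs1.le
    rw [inv_rpow_eq (hx u), inv_rpow_eq (hy u)] at h7
    exact mul_le_mul (has u) h7 (Real.rpow_nonneg (h0 u) _) (ha u)
  linarith

end LdA

open LdA in
theorem ldA {s : ℝ} (hs : 0 < s) (hs1 : s < 1) : ∃ C : ℝ, 0 ≤ C ∧ ∀ (f : ℂ → ℂ), Mer f →
    ∀ r R : ℝ, 0 < r → r < R → R < 1 → (∀ u : ℂ, ‖u‖ = R → od f u = 0) →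
      CircleIntegrable (fun z => ‖logDeriv f z‖ ^ s) 0 r ∧
      circleAverage (fun z => ‖logDeriv f z‖ ^ s) 0 r ≤
        1 + 2 * R / (R ^ 2 - r ^ 2) * circleAverage (fun z => |Real.log ‖f z‖|) 0 R +
        C * r ^ (-s) * ∑ᶠ u : ℂ, (if ‖u‖ < R then |(od f u : ℝ)| else 0) := by
  obtain ⟨C0, hC0, hes⟩ := es hs hs1
  refine ⟨2 * C0, by positivity, fun f hf r R hr hrR hR hoff => ?_⟩
  obtain ⟨E, hE, hdec⟩ := dec hf hr hrR hR hoff
  have hR0 : 0 < R := hr.trans hrR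
  have hfin : {u : ℂ | ‖u‖ ≤ R ∧ (od f u : ℝ) ≠ 0}.Finite := lf_od hf R hR
  set a : ℂ → ℝ := fun u => if ‖u‖ < R then |(od f u : ℝ)| else 0 with ha
  set F : Finset ℂ := hfin.toFinset with hF
  have hsupp : Function.support a ⊆ (F : Set ℂ) := by
    intro u hu
    rw [Function.mem_support, ha] at hu
    simp only [ne_eq, ite_eq_right_iff, abs_eq_zero, Classical.not_imp] at hu
    rw [hF, Set.Finite.coe_toFinset]
    exact ⟨hu.1.le, hu.2⟩
  have ha0 : ∀ u, 0 ≤ a u := fun u => by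
    simp only [ha]
    split_ifs
    · exact abs_nonneg _
    · exact le_rfl
  have has : ∀ u, a u ^ s ≤ a u := fun u => by
    simp only [ha]
    split_ifs
    · exact int_rpow_le hs hs1 _
    · rw [Real.zero_rpow hs.ne']
  set A : ℂ → ℝ := fun z => circleAverage (fun ζ => 2 * R / ‖ζ - z‖ ^ 2 * |Real.log ‖f ζ‖|) 0 R
    with hA
  have hA0 : ∀ z, 0 ≤ A z := fun z =>
    circleAverage_nonneg_of_nonneg fun ζ _ => by positivity
  obtain ⟨hAi, hAe⟩ := ker hr hrR (φ := fun z => |Real.log ‖f z‖|) (fun z => abs_nonneg _)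
    ((ci_log hf hR0 hR).abs)
  set H : ℂ → ℝ := fun z => (∑ u ∈ F, a u * (‖z - u‖ ^ (-s) +
    ‖z - (R : ℂ) ^ 2 / (starRingEnd ℂ) u‖ ^ (-s))) + (1 + A z) with hH
  have hle : ∀ z : ℂ, ‖z‖ = r → z ∉ E → ‖logDeriv f z‖ ^ s ≤ H z := by
    intro z hz hzE
    have h1 := hdec z hz hzE
    rw [finsum_eq_sum_of_support_subset (s := F) _ (fun u hu => hsupp (by
      rw [Function.mem_support] at hu ⊢
      intro h0
      apply hu
      simp only [ha] at h0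
      rw [h0, zero_mul]))] at h1
    exact pointwise hs hs1 F a ha0 has (fun u => ‖z - u‖)
      (fun u => ‖z - (R : ℂ) ^ 2 / (starRingEnd ℂ) u‖) (fun u => norm_nonneg _)
      (fun u => norm_nonneg _) (norm_nonneg _) (hA0 z) h1
  -- integrability of the upper bound
  have hi1 : ∀ u ∈ F, CircleIntegrable (fun z => a u * (‖z - u‖ ^ (-s) +
      ‖z - (R : ℂ) ^ 2 / (starRingEnd ℂ) u‖ ^ (-s))) 0 r := fun u _ => by
    have h1 : CircleIntegrable (fun z : ℂ => ‖z - u‖ ^ (-s) +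
      ‖z - (R : ℂ) ^ 2 / (starRingEnd ℂ) u‖ ^ (-s)) 0 r :=
      (hes r u hr).1.add (hes r ((R : ℂ) ^ 2 / (starRingEnd ℂ) u) hr).1
    exact h1.const_smul (a := a u)
  have hi2 : CircleIntegrable (fun z => 1 + A z) 0 r := (circleIntegrable_const 1 0 r).add hAi
  have hHi : CircleIntegrable H 0 r := (ci_sum F _ hi1).add hi2
  -- integrability of the fractional power
  have hgi : CircleIntegrable (fun z => ‖logDeriv f z‖ ^ s) 0 r := by
    refine IntervalIntegrable.mono_fun hHi ?_ ?_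
    · have h1 := ci_meas (MeromorphicOn.logDeriv (hf := hf.1)) hr (hrR.trans hR)
      exact (h1.norm.aemeasurable.pow_const s).aestronglyMeasurable
    · have h1 : ∀ᵐ θ : ℝ, circleMap 0 r θ ∉ E :=
        (hE.countable.preimage_circleMap 0 hr.ne').ae_notMem volume
      filter_upwards [ae_restrict_of_ae h1] with θ hθ
      have h2 : ‖circleMap 0 r θ‖ = r := by
        rw [norm_circleMap_zero, abs_of_pos hr]
      have h3 := hle _ h2 hθ
      have h4 : 0 ≤ ‖logDeriv f (circleMap 0 r θ)‖ ^ s := Real.rpow_nonneg (norm_nonneg _) _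
      rw [Real.norm_of_nonneg h4, Real.norm_of_nonneg (h4.trans h3)]
      exact h3
  refine ⟨hgi, ?_⟩
  have h1 := circleAverage_le hr hgi hHi hE hle
  have h2 : circleAverage H 0 r = (∑ u ∈ F, a u * (circleAverage (fun z => ‖z - u‖ ^ (-s)) 0 r +
      circleAverage (fun z => ‖z - (R : ℂ) ^ 2 / (starRingEnd ℂ) u‖ ^ (-s)) 0 r)) +
      (1 + circleAverage A 0 r) := by
    rw [hH, circleAverage_fun_add (ci_sum F _ hi1) hi2, circleAverage_fun_sum hi1,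
      circleAverage_fun_add (circleIntegrable_const 1 0 r) hAi, circleAverage_const]
    congr 1
    refine Finset.sum_congr rfl fun u _ => ?_
    have h3 := circleAverage_fun_smul (a := a u) (c := 0) (R := r) (f := fun z : ℂ =>
      ‖z - u‖ ^ (-s) + ‖z - (R : ℂ) ^ 2 / (starRingEnd ℂ) u‖ ^ (-s))
    simp only [smul_eq_mul] at h3
    rw [h3, circleAverage_fun_add (hes r u hr).1 (hes r _ hr).1]
  have h3 : ∑ u ∈ F, a u * (circleAverage (fun z => ‖z - u‖ ^ (-s)) 0 r +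
      circleAverage (fun z => ‖z - (R : ℂ) ^ 2 / (starRingEnd ℂ) u‖ ^ (-s)) 0 r) ≤
      2 * C0 * r ^ (-s) * ∑ u ∈ F, a u := by
    rw [Finset.mul_sum]
    refine Finset.sum_le_sum fun u _ => ?_
    have h4 := (hes r u hr).2
    have h5 := (hes r ((R : ℂ) ^ 2 / (starRingEnd ℂ) u) hr).2
    have h6 := mul_le_mul_of_nonneg_left (add_le_add h4 h5) (ha0 u)
    linarith
  have h4 : ∑ᶠ u : ℂ, a u = ∑ u ∈ F, a u := finsum_eq_sum_of_support_subset _ hsupp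
  rw [h4]
  rw [h2, hAe] at h1
  linarith

end Pool.Agent.MP4b24a5
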