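import Mathlib
import Pool.Agent.Lib.MP_4b24a5_an.Defs
import Pool.Agent.Lib.MP_4b24a5_an.SC
import Pool.Agent.Lib.MP_4b24a5_an.Jen

set_option autoImplicit false

noncomputable section

namespace Pool.Agent.MP4b24a5

open Complex Metric Real MeasureTheory Filter Topology

theorem L_tendsto : Tendsto L (𝓝[<] (1 : ℝ)) atTop := by
  unfold L
  have h1 : Tendsto (fun r : ℝ => 1 - r) (𝓝[<] (1 : ℝ)) (𝓝[>] (0 : ℝ)) := by
    refine tendsto_nhdsWithin_iff.2 ⟨?_, ?_⟩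
    · have h2 : Tendsto (fun r : ℝ => 1 - r) (𝓝 (1 : ℝ)) (𝓝 (1 - 1)) :=
        (continuous_const.sub continuous_id).tendsto 1
      rw [sub_self] at h2
      exact h2.mono_left nhdsWithin_le_nhds
    · filter_upwards [self_mem_nhdsWithin] with r hr
      have h3 : r < 1 := hr
      change (0 : ℝ) < 1 - r
      linarith
  exact tendsto_neg_atBot_atTop.comp (Real.tendsto_log_nhdsGT_zero.comp h1)

private lemma ev_half : ∀ᶠ r in 𝓝[<] (1 : ℝ), (1 / 2 : ℝ) < r ∧ r < 1 := by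
  filter_upwards [Ioo_mem_nhdsLT (by norm_num : (1 / 2 : ℝ) < 1)] with r hr
  exact ⟨hr.1, hr.2⟩

private lemma lfP {f : ℂ → ℂ} (hf : Mer f) : LF (fun u => ((max (od f u) 0 : ℤ) : ℝ)) := by
  have h := (lf_od hf).comp (g := fun x => max x 0) (by simp)
  have e : (fun u => ((max (od f u) 0 : ℤ) : ℝ)) = fun u => max (od f u : ℝ) 0 := by
    funext u; push_cast; rfl
  rw [e]; exact h

private lemma lfQ {f : ℂ → ℂ} (hf : Mer f) : LF (fun u => ((max (-od f u) 0 : ℤ) : ℝ)) := by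
  have h := (lf_od hf).comp (g := fun x => max (-x) 0) (by simp)
  have e : (fun u => ((max (-od f u) 0 : ℤ) : ℝ)) = fun u => max (-(od f u : ℝ)) 0 := by
    funext u; push_cast; rfl
  rw [e]; exact h

private lemma S_abs_eq {f : ℂ → ℂ} (hf : Mer f) {r : ℝ} (h0 : 0 < r) (h1 : r < 1) :
    S (fun u => |(od f u : ℝ)|) r =
      S (fun u => ((max (od f u) 0 : ℤ) : ℝ)) r + S (fun u => ((max (-od f u) 0 : ℤ) : ℝ)) r := by
  rw [← S_add (lfP hf) (lfQ hf) h0 h1]
  congr 1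
  funext u
  push_cast
  rcases le_total 0 (od f u : ℝ) with h | h
  · rw [abs_of_nonneg h, max_eq_left h, max_eq_right (by linarith), add_zero]
  · rw [abs_of_nonpos h, max_eq_right h, max_eq_left (by linarith), zero_add]

private lemma S_od_eq {f : ℂ → ℂ} (hf : Mer f) {r : ℝ} (h0 : 0 < r) (h1 : r < 1) :
    S (fun u => (od f u : ℝ)) r =
      S (fun u => ((max (od f u) 0 : ℤ) : ℝ)) r - S (fun u => ((max (-od f u) 0 : ℤ) : ℝ)) r := by
  have h2 : LF (fun u => (-1 : ℝ) * ((max (-od f u) 0 : ℤ) : ℝ)) :=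
    (lfQ hf).comp (g := fun x => (-1 : ℝ) * x) (by simp)
  rw [sub_eq_add_neg, ← neg_one_mul (S (fun u => ((max (-od f u) 0 : ℤ) : ℝ)) r), ← S_smul,
    ← S_add (lfP hf) h2 h0 h1]
  congr 1
  funext u
  push_cast
  rcases le_total 0 (od f u : ℝ) with h | h
  · rw [max_eq_left h, max_eq_right (by linarith)]; ring
  · rw [max_eq_right h, max_eq_left (by linarith)]; ring

private lemma nnP (f : ℂ → ℂ) {r : ℝ} (h0 : 0 < r) (h1 : r < 1) :
    0 ≤ S (fun u => ((max (od f u) 0 : ℤ) : ℝ)) r :=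
  S_nonneg (fun u _ _ => by exact_mod_cast le_max_right _ _) h0 h1

private lemma nnQ (f : ℂ → ℂ) {r : ℝ} (h0 : 0 < r) (h1 : r < 1) :
    0 ≤ S (fun u => ((max (-od f u) 0 : ℤ) : ℝ)) r :=
  S_nonneg (fun u _ _ => by exact_mod_cast le_max_right _ _) h0 h1

private lemma prox_nonneg (f : ℂ → ℂ) (r : ℝ) : 0 ≤ prox f r := by
  unfold prox
  exact circleAverage_nonneg_of_nonneg fun z _ => posLog_nonneg

private lemma log_bd {r : ℝ} (h0 : 1 / 2 < r) (h1 : r < 1) : |Real.log r| ≤ 1 := by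
  have hr : 0 < r := by linarith
  have h2 : Real.log r ≤ 0 := Real.log_nonpos hr.le h1.le
  have h3 := Real.one_sub_inv_le_log_of_pos hr
  have h4 : r⁻¹ ≤ 2 := by
    rw [inv_le_comm₀ hr (by norm_num)]
    linarith
  rw [abs_of_nonpos h2]
  linarith

theorem slow_abs {f : ℂ → ℂ} (hf : Slow f) : ∃ K : ℝ, ∀ᶠ r in 𝓝[<] (1 : ℝ),
    circleAverage (fun z => |Real.log ‖f z‖|) 0 r ≤ K * L r ∧
      S (fun u => |(od f u : ℝ)|) r ≤ K * L r := by
  obtain ⟨hM, K0, hK⟩ := hf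
  obtain ⟨c, hc⟩ := jensen hM
  refine ⟨2 * K0 + 1, ?_⟩
  set a : ℝ := (od f 0 : ℝ) with ha
  set m0 : ℝ := ((max (-od f 0) 0 : ℤ) : ℝ) with hm0
  have hm0' : 0 ≤ m0 := by rw [hm0]; exact_mod_cast le_max_right _ _
  filter_upwards [hK, ev_half, L_tendsto.eventually_ge_atTop (2 * m0 + |a| + |c|)] with r h1 h2 h3
  have h0 : 0 < r := by linarith [h2.1]
  have hlog := log_bd h2.1 h2.2
  have hl := abs_le.1 hlog
  have hP := nnP f h0 h2.2
  have hQ := nnQ f h0 h2.2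
  have hp := prox_nonneg f r
  have hJ := hc r h0 h2.2
  rw [S_od_eq hM h0 h2.2] at hJ
  rw [S_abs_eq hM h0 h2.2]
  unfold T cnt at h1
  set P := S (fun u => ((max (od f u) 0 : ℤ) : ℝ)) r with hPd
  set Q := S (fun u => ((max (-od f u) 0 : ℤ) : ℝ)) r with hQd
  have hmono : circleAverage (fun z => Real.log ‖f z‖) 0 r ≤ prox f r := by
    unfold prox
    refine circleAverage_mono (ci_log hM h0 h2.2) (ci_pos hM.1 h0 h2.2) fun z _ => ?_
    rw [posLog_apply]
    exact le_max_right _ _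
  have hsub : circleAverage (fun z => |Real.log ‖f z‖|) 0 r =
      2 * prox f r - circleAverage (fun z => Real.log ‖f z‖) 0 r := by
    have e : (fun z => |Real.log ‖f z‖|) = fun z => (2 : ℝ) • log⁺ ‖f z‖ - Real.log ‖f z‖ := by
      funext z
      rw [← half_mul_log_add_log_abs, smul_eq_mul]
      ring
    have hi : CircleIntegrable (fun z => (2 : ℝ) • log⁺ ‖f z‖) 0 r :=
      (ci_pos hM.1 h0 h2.2).const_smul
    rw [e, circleAverage_fun_sub hi (ci_log hM h0 h2.2), circleAverage_fun_smul, smul_eq_mul]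
    rfl
  have hal : |a * Real.log r| ≤ |a| := by
    rw [abs_mul]
    exact mul_le_of_le_one_right (abs_nonneg a) hlog
  have hal' := abs_le.1 hal
  have hc1 := neg_abs_le c
  have hc2 := le_abs_self c
  have hml : -m0 ≤ m0 * Real.log r := by nlinarith [hl.1]
  have hma : m0 * Real.log r ≤ |m0 * Real.log r| := le_abs_self _
  constructor
  · rw [hsub, hJ]
    nlinarith
  · nlinarith

theorem slow_of {f : ℂ → ℂ} (hf : Mer f) (K : ℝ) (h : ∀ᶠ r in 𝓝[<] (1 : ℝ),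
    prox f r ≤ K * L r ∧ S (fun u => ((max (-od f u) 0 : ℤ) : ℝ)) r ≤ K * L r) : Slow f := by
  refine ⟨hf, 2 * K, ?_⟩
  filter_upwards [h, ev_half] with r h1 h2
  have h0 : 0 < r := by linarith [h2.1]
  have hlog : Real.log r ≤ 0 := Real.log_nonpos h0.le h2.2.le
  have hm0 : (0 : ℝ) ≤ ((max (-od f 0) 0 : ℤ) : ℝ) := by exact_mod_cast le_max_right _ _
  have h3 := mul_nonneg_of_nonpos_of_nonpos
    (by linarith : -(((max (-od f 0) 0 : ℤ) : ℝ)) ≤ 0) hlog
  unfold T cnt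
  linarith [h1.1, h1.2]

end Pool.Agent.MP4b24a5
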