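import Mathlib
import Pool.Agent.Lib.MP_4b24a5_an.Defs
import Pool.Agent.Lib.MP_4b24a5_an.LdA
import Pool.Agent.Lib.MP_4b24a5_an.LdB

set_option autoImplicit false

noncomputable section

namespace Pool.Agent.MP4b24a5

open Complex Metric Real MeasureTheory Filter Topology

private lemma ld_exists_R {f : ℂ → ℂ} (hf : Mer f) {a b : ℝ} (hab : a < b) (hb : b < 1) :
    ∃ R : ℝ, a < R ∧ R < b ∧ ∀ u : ℂ, ‖u‖ = R → od f u = 0 := by
  have hfin : ((fun u : ℂ => ‖u‖) '' {u : ℂ | ‖u‖ ≤ b ∧ (od f u : ℝ) ≠ 0}).Finite :=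
    (lf_od hf b hb).image _
  obtain ⟨R, hR, hRn⟩ := (Set.Ioo_infinite hab).exists_notMem_finite hfin
  refine ⟨R, hR.1, hR.2, fun u hu => ?_⟩
  by_contra hne
  exact hRn ⟨u, ⟨hu.le.trans hR.2.le, by exact_mod_cast hne⟩, hu⟩

private lemma ld_L_nonneg {r : ℝ} (h0 : 0 ≤ r) (h1 : r < 1) : 0 ≤ L r := by
  unfold L
  have := Real.log_nonpos (by linarith : (0 : ℝ) ≤ 1 - r) (by linarith)
  linarith

/-- comparison of the values of `L` -/
private lemma ld_L_le {r x : ℝ} (h0 : 0 ≤ r) (h1 : r < 1) (hx : (1 - r) / 8 ≤ 1 - x) :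
    L x ≤ 8 * (L r + 1) := by
  unfold L
  have h2 : (0 : ℝ) < (1 - r) / 8 := by linarith
  have h3 := Real.log_le_log h2 hx
  rw [Real.log_div (by linarith) (by norm_num)] at h3
  have h4 : Real.log 8 ≤ 8 - 1 := Real.log_le_sub_one_of_pos (by norm_num)
  have h5 := Real.log_nonpos (by linarith : (0 : ℝ) ≤ 1 - r) (by linarith)
  linarith

private lemma ld_core {f : ℂ → ℂ} (hf : Slow f) {s : ℝ} (hs : 0 < s) (hs1 : s < 1) :
    ∃ K1 : ℝ, 0 ≤ K1 ∧ ∀ᶠ r in 𝓝[<] (1 : ℝ),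
      CircleIntegrable (fun z => ‖logDeriv f z‖ ^ s) 0 r ∧
      circleAverage (fun z => ‖logDeriv f z‖ ^ s) 0 r ≤ K1 * ((L r + 1) / (1 - r)) := by
  obtain ⟨K0, hK0⟩ := slow_abs hf
  obtain ⟨C, hC, hA⟩ := ldA hs hs1
  set K : ℝ := max K0 1 with hKdef
  have hK1 : 1 ≤ K := le_max_right _ _
  have hKp : 0 < K := by linarith
  obtain ⟨r0, hr0, hr0s⟩ := (mem_nhdsLT_iff_exists_Ioo_subset).1 hK0
  have hr01 : r0 < 1 := hr0
  set c0 : ℝ := |(od f 0 : ℝ)| with hc0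
  have hc0n : 0 ≤ c0 := abs_nonneg _
  refine ⟨1 + 32 * K + 2 * C * (c0 + 64 * K), by positivity, ?_⟩
  have hmem : Set.Ioo (max r0 (1 / 2)) 1 ∈ 𝓝[<] (1 : ℝ) :=
    Ioo_mem_nhdsLT (max_lt hr01 (by norm_num))
  filter_upwards [hmem] with r hr
  have hrr0 : r0 < r := (le_max_left _ _).trans_lt hr.1
  have hrh : 1 / 2 < r := (le_max_right _ _).trans_lt hr.1
  have hr1 : r < 1 := hr.2
  have hr0' : 0 < r := by linarith
  obtain ⟨R, hR1, hR2, hRo⟩ := ld_exists_R hf.1 (a := (1 + r) / 2) (b := (3 + r) / 4)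
    (by linarith) (by linarith)
  have hRlt : R < 1 := by linarith
  have hrR : r < R := by linarith
  have hRpos : 0 < R := by linarith
  set R' : ℝ := (7 + r) / 8 with hR'def
  have hRR' : R < R' := by rw [hR'def]; linarith
  have hR'1 : R' < 1 := by rw [hR'def]; linarith
  have hR'0 : 0 < R' := by linarith
  have hLr : 0 ≤ L r := ld_L_nonneg hr0'.le hr1
  have hLR : L R ≤ 8 * (L r + 1) := ld_L_le hr0'.le hr1 (by linarith)
  have hLR' : L R' ≤ 8 * (L r + 1) := ld_L_le hr0'.le hr1 (by rw [hR'def]; linarith)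
  have hLR0 : 0 ≤ L R := ld_L_nonneg hRpos.le hRlt
  have hLR'0 : 0 ≤ L R' := ld_L_nonneg hR'0.le hR'1
  have hKR : K0 * L R ≤ 8 * K * (L r + 1) := by
    have h1 : K0 * L R ≤ K * L R := mul_le_mul_of_nonneg_right (le_max_left _ _) hLR0
    have h2 : K * L R ≤ K * (8 * (L r + 1)) := mul_le_mul_of_nonneg_left hLR hKp.le
    linarith
  have hKR' : K0 * L R' ≤ 8 * K * (L r + 1) := by
    have h1 : K0 * L R' ≤ K * L R' := mul_le_mul_of_nonneg_right (le_max_left _ _) hLR'0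
    have h2 : K * L R' ≤ K * (8 * (L r + 1)) := mul_le_mul_of_nonneg_left hLR' hKp.le
    linarith
  have hb1 := (hr0s (⟨by linarith, hRlt⟩ : R ∈ Set.Ioo r0 1)).1
  have hb2 := (hr0s (⟨by linarith, hR'1⟩ : R' ∈ Set.Ioo r0 1)).2
  set q : ℝ := (L r + 1) / (1 - r) with hq
  have h1r : 0 < 1 - r := by linarith
  have hq1 : 1 ≤ q := by
    rw [hq, le_div_iff₀ h1r]
    linarith
  -- the number of zeros and poles
  have hLF : LF (fun u => |(od f u : ℝ)|) := by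
    have h := (lf_od hf.1).comp (g := fun x => |x|) abs_zero
    exact h
  have hcount := S_count hLF (fun u => abs_nonneg _) hRpos hRR' hR'1
  have hlog : (1 - r) / 8 ≤ Real.log (R' / R) := by
    have h1 := Real.one_sub_inv_le_log_of_pos (div_pos hR'0 hRpos)
    have h2 : (1 - r) / 8 ≤ 1 - (R' / R)⁻¹ := by
      rw [inv_div, le_sub_iff_add_le, ← le_sub_iff_add_le', div_le_iff₀ hR'0]
      have h3 : (1 - r) / 8 ≤ R' - R := by rw [hR'def]; linarith
      nlinarith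
    exact h2.trans h1
  have hlogp : 0 < Real.log (R' / R) := lt_of_lt_of_le (by linarith) hlog
  have hS : S (fun u => |(od f u : ℝ)|) R' / Real.log (R' / R) ≤ 64 * K * q := by
    have h1 : S (fun u => |(od f u : ℝ)|) R' ≤ 8 * K * (L r + 1) := hb2.trans hKR'
    have h2 : 0 ≤ 8 * K * (L r + 1) := by positivity
    calc S (fun u => |(od f u : ℝ)|) R' / Real.log (R' / R)
        ≤ 8 * K * (L r + 1) / Real.log (R' / R) := by
          exact div_le_div_of_nonneg_right h1 hlogp.le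
      _ ≤ 8 * K * (L r + 1) / ((1 - r) / 8) :=
          div_le_div_of_nonneg_left h2 (by linarith) hlog
      _ = 64 * K * q := by rw [hq]; field_simp; ring
  have hn : ∑ᶠ u : ℂ, (if ‖u‖ < R then |(od f u : ℝ)| else 0) ≤ (c0 + 64 * K) * q := by
    have h1 : c0 ≤ c0 * q := by nlinarith
    calc ∑ᶠ u : ℂ, (if ‖u‖ < R then |(od f u : ℝ)| else 0)
        ≤ c0 + S (fun u => |(od f u : ℝ)|) R' / Real.log (R' / R) := hcount
      _ ≤ c0 * q + 64 * K * q := add_le_add h1 hS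
      _ = (c0 + 64 * K) * q := by ring
  have hn0 : 0 ≤ (c0 + 64 * K) * q := by positivity
  have hrs : r ^ (-s) ≤ 2 := by
    rw [Real.rpow_neg hr0'.le, ← Real.inv_rpow hr0'.le]
    have h1 : r⁻¹ ≤ 2 := by
      rw [inv_le_comm₀ hr0' (by norm_num)]
      linarith
    have h2 : 1 ≤ r⁻¹ := (one_le_inv₀ hr0').2 hr1.le
    calc (r⁻¹) ^ s ≤ (r⁻¹) ^ (1 : ℝ) := Real.rpow_le_rpow_of_exponent_le h2 hs1.le
      _ = r⁻¹ := Real.rpow_one _
      _ ≤ 2 := h1
  have hrs0 : 0 ≤ r ^ (-s) := Real.rpow_nonneg hr0'.le _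
  obtain ⟨hci, hle⟩ := hA f hf.1 r R hr0' hrR hRlt hRo
  refine ⟨hci, hle.trans ?_⟩
  have hT2 : 2 * R / (R ^ 2 - r ^ 2) * circleAverage (fun z => |Real.log ‖f z‖|) 0 R ≤
      32 * K * q := by
    have hd : 0 < R ^ 2 - r ^ 2 := by nlinarith
    have h1 : 2 * R / (R ^ 2 - r ^ 2) ≤ 4 / (1 - r) := by
      rw [div_le_div_iff₀ hd h1r]
      have h2 : (1 - r) / 2 ≤ R - r := by linarith
      have h3 : (1 - r) / 2 * R ≤ (R - r) * (R + r) := by
        have := mul_le_mul h2 (by linarith : R ≤ R + r) hRpos.le (by linarith : 0 ≤ R - r)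
        exact this
      nlinarith
    have h4 : 0 ≤ circleAverage (fun z => |Real.log ‖f z‖|) 0 R :=
      circleAverage_nonneg_of_nonneg fun z _ => abs_nonneg _
    have h5 : circleAverage (fun z => |Real.log ‖f z‖|) 0 R ≤ 8 * K * (L r + 1) := hb1.trans hKR
    calc 2 * R / (R ^ 2 - r ^ 2) * circleAverage (fun z => |Real.log ‖f z‖|) 0 R
        ≤ 4 / (1 - r) * (8 * K * (L r + 1)) :=
          mul_le_mul h1 h5 h4 (by positivity)
      _ = 32 * K * q := by rw [hq]; field_simp; ring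
  have hT3 : C * r ^ (-s) * ∑ᶠ u : ℂ, (if ‖u‖ < R then |(od f u : ℝ)| else 0) ≤
      2 * C * (c0 + 64 * K) * q := by
    have h1 : C * r ^ (-s) ≤ C * 2 := mul_le_mul_of_nonneg_left hrs hC
    calc C * r ^ (-s) * ∑ᶠ u : ℂ, (if ‖u‖ < R then |(od f u : ℝ)| else 0)
        ≤ C * r ^ (-s) * ((c0 + 64 * K) * q) :=
          mul_le_mul_of_nonneg_left hn (mul_nonneg hC hrs0)
      _ ≤ C * 2 * ((c0 + 64 * K) * q) := mul_le_mul_of_nonneg_right h1 hn0
      _ = 2 * C * (c0 + 64 * K) * q := by ring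
  calc 1 + 2 * R / (R ^ 2 - r ^ 2) * circleAverage (fun z => |Real.log ‖f z‖|) 0 R +
        C * r ^ (-s) * ∑ᶠ u : ℂ, (if ‖u‖ < R then |(od f u : ℝ)| else 0)
      ≤ q + 32 * K * q + 2 * C * (c0 + 64 * K) * q := add_le_add (add_le_add hq1 hT2) hT3
    _ = (1 + 32 * K + 2 * C * (c0 + 64 * K)) * q := by ring

/-- the pointwise bound -/
private lemma ld_point {s : ℝ} (hs : 0 < s) (hs1 : s < 1) {x y A : ℝ} (hx : 0 ≤ x) (hy : 0 ≤ y)
    (hA : 0 < A) :
    log⁺ (x + y) ≤ s⁻¹ * (Real.log A - 1 + A⁻¹) + s⁻¹ * A⁻¹ * (x ^ s + y ^ s) := by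
  have hxs : 0 ≤ x ^ s := Real.rpow_nonneg hx _
  have hys : 0 ≤ y ^ s := Real.rpow_nonneg hy _
  have h1 : log⁺ (x + y) ≤ s⁻¹ * Real.log (1 + (x ^ s + y ^ s)) := by
    have h0 : 0 ≤ Real.log (1 + (x ^ s + y ^ s)) := Real.log_nonneg (by linarith)
    rcases le_or_gt (x + y) 1 with h | h
    · have h2 : log⁺ (x + y) = 0 := by
        rw [Real.posLog_eq_zero_iff, abs_of_nonneg (by positivity)]
        exact h
      rw [h2]
      positivity
    · have h2 : log⁺ (x + y) = Real.log (x + y) := by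
        rw [Real.posLog_eq_log]
        rw [abs_of_nonneg (by positivity)]
        exact h.le
      have h3 := Real.rpow_add_le_add_rpow hx hy hs.le hs1.le
      have h4 : Real.log ((x + y) ^ s) ≤ Real.log (1 + (x ^ s + y ^ s)) :=
        Real.log_le_log (Real.rpow_pos_of_pos (by linarith) _) (by linarith)
      rw [Real.log_rpow (by linarith)] at h4
      rw [h2, inv_mul_eq_div, le_div_iff₀ hs]
      linarith
  have h5 : Real.log (1 + (x ^ s + y ^ s)) ≤ Real.log A - 1 + A⁻¹ + A⁻¹ * (x ^ s + y ^ s) := by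
    have h6 : 0 < 1 + (x ^ s + y ^ s) := by linarith
    have h7 := Real.log_le_sub_one_of_pos (div_pos h6 hA)
    rw [Real.log_div h6.ne' hA.ne'] at h7
    have h8 : (1 + (x ^ s + y ^ s)) / A = A⁻¹ + A⁻¹ * (x ^ s + y ^ s) := by
      field_simp
    rw [h8] at h7
    linarith
  have h9 := mul_le_mul_of_nonneg_left h5 (inv_nonneg.2 hs.le)
  calc log⁺ (x + y) ≤ s⁻¹ * Real.log (1 + (x ^ s + y ^ s)) := h1
    _ ≤ s⁻¹ * (Real.log A - 1 + A⁻¹ + A⁻¹ * (x ^ s + y ^ s)) := h9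
    _ = _ := by ring

private lemma ld_mer {f : ℂ → ℂ} (hf : Mer f) : MeromorphicOn (logDeriv f) (ball 0 1) := by
  intro z hz
  have h := hf.1 z hz
  exact h.deriv.div h

private lemma ld_small {c ε : ℝ} (hε : 0 < ε) :
    ∀ᶠ r in 𝓝[<] (1 : ℝ), (1 + ε / 2) * (c + Real.log (L r + 1)) ≤ ε / 2 * L r := by
  have h1 : ∀ᶠ x : ℝ in atTop, (1 + ε / 2) * (c + Real.log (x + 1)) ≤ ε / 2 * x := by
    have hδ : 0 < ε / 4 / (1 + ε / 2) := by positivity
    have h2 := (Real.isLittleO_log_id_atTop).bound hδ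
    have h3 : Tendsto (fun x : ℝ => x + 1) atTop atTop := tendsto_atTop_add_const_right _ _ tendsto_id
    have h4 := h3.eventually h2
    filter_upwards [h4, eventually_ge_atTop (0 : ℝ),
      eventually_ge_atTop (((1 + ε / 2) * c + ε / 4) / (ε / 4))] with x hx hx0 hxc
    simp only [id_eq, Real.norm_eq_abs] at hx
    rw [abs_of_nonneg (Real.log_nonneg (by linarith)), abs_of_nonneg (by linarith)] at hx
    rw [div_le_iff₀ (by positivity)] at hxc
    have h5 : (1 + ε / 2) * Real.log (x + 1) ≤ (1 + ε / 2) * (ε / 4 / (1 + ε / 2) * (x + 1)) :=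
      mul_le_mul_of_nonneg_left hx (by positivity)
    have h6 : (1 + ε / 2) * (ε / 4 / (1 + ε / 2) * (x + 1)) = ε / 4 * (x + 1) := by
      field_simp
    rw [h6] at h5
    nlinarith
  exact L_tendsto.eventually h1

theorem ld {f g : ℂ → ℂ} (hf : Slow f) (hg : Slow g) {ε : ℝ} (hε : 0 < ε) :
    ∀ᶠ r in 𝓝[<] (1 : ℝ),
      CircleIntegrable (fun z => log⁺ (‖logDeriv f z‖ + ‖logDeriv g z‖)) 0 r ∧
      circleAverage (fun z => log⁺ (‖logDeriv f z‖ + ‖logDeriv g z‖)) 0 r ≤ (1 + ε) * L r := by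
  set s : ℝ := (1 + ε / 2)⁻¹ with hsdef
  have hden : (0 : ℝ) < 1 + ε / 2 := by positivity
  have hs : 0 < s := inv_pos.2 hden
  have hs1 : s < 1 := inv_lt_one_of_one_lt₀ (by linarith)
  have hsi : s⁻¹ = 1 + ε / 2 := by rw [hsdef, inv_inv]
  obtain ⟨Kf, hKf, hf1⟩ := ld_core hf hs hs1
  obtain ⟨Kg, hKg, hg1⟩ := ld_core hg hs hs1
  have hmem : Set.Ioo (0 : ℝ) 1 ∈ 𝓝[<] (1 : ℝ) := Ioo_mem_nhdsLT (by norm_num)
  filter_upwards [hf1, hg1, ld_small (c := Real.log (Kf + Kg + 1)) hε, hmem] with r hfr hgr hsm hr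
  obtain ⟨hfi, hfa⟩ := hfr
  obtain ⟨hgi, hga⟩ := hgr
  have hr0 : 0 < r := hr.1
  have hr1 : r < 1 := hr.2
  have h1r : 0 < 1 - r := by linarith
  have hLr : 0 ≤ L r := ld_L_nonneg hr0.le hr1
  set q : ℝ := (L r + 1) / (1 - r) with hq
  have hq1 : 1 ≤ q := by
    rw [hq, le_div_iff₀ h1r]
    linarith
  set A : ℝ := (Kf + Kg + 1) * q with hAdef
  have hA : 0 < A := by positivity
  have hA1 : 1 ≤ A := by
    rw [hAdef]
    nlinarith [mul_nonneg hKf (by linarith : (0 : ℝ) ≤ q), mul_nonneg hKg (by linarith : (0 : ℝ) ≤ q)]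
  have hXi : CircleIntegrable (fun z => ‖logDeriv f z‖ ^ s + ‖logDeriv g z‖ ^ s) 0 r :=
    hfi.add hgi
  have hBi : CircleIntegrable (fun z => s⁻¹ * (Real.log A - 1 + A⁻¹) +
      s⁻¹ * A⁻¹ * (‖logDeriv f z‖ ^ s + ‖logDeriv g z‖ ^ s)) 0 r := by
    have h1 : CircleIntegrable (fun _ : ℂ => s⁻¹ * (Real.log A - 1 + A⁻¹)) 0 r :=
      circleIntegrable_const _ _ _
    have h2 : CircleIntegrable (fun z => s⁻¹ * A⁻¹ * (‖logDeriv f z‖ ^ s + ‖logDeriv g z‖ ^ s))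
        0 r := by
      have h3 := IntervalIntegrable.const_mul hXi (s⁻¹ * A⁻¹)
      exact h3
    exact h1.add h2
  have hpt : ∀ z : ℂ, log⁺ (‖logDeriv f z‖ + ‖logDeriv g z‖) ≤ s⁻¹ * (Real.log A - 1 + A⁻¹) +
      s⁻¹ * A⁻¹ * (‖logDeriv f z‖ ^ s + ‖logDeriv g z‖ ^ s) := fun z =>
    ld_point hs hs1 (norm_nonneg _) (norm_nonneg _) hA
  have hci : CircleIntegrable (fun z => log⁺ (‖logDeriv f z‖ + ‖logDeriv g z‖)) 0 r := by
    have hm1 := (ci_meas (ld_mer hf.1) hr0 hr1).norm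
    have hm2 := (ci_meas (ld_mer hg.1) hr0 hr1).norm
    have hm3 := Real.continuous_posLog.comp_aestronglyMeasurable (hm1.add hm2)
    have hm4 : AEStronglyMeasurable
        (fun θ : ℝ => log⁺ (‖logDeriv f (circleMap 0 r θ)‖ + ‖logDeriv g (circleMap 0 r θ)‖))
        (volume.restrict (Set.uIoc 0 (2 * π))) := hm3
    refine IntervalIntegrable.mono_fun' (g := fun θ : ℝ => s⁻¹ * (Real.log A - 1 + A⁻¹) +
      s⁻¹ * A⁻¹ * (‖logDeriv f (circleMap 0 r θ)‖ ^ s + ‖logDeriv g (circleMap 0 r θ)‖ ^ s))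
      hBi hm4 ?_
    filter_upwards with θ
    rw [Real.norm_of_nonneg Real.posLog_nonneg]
    exact hpt _
  refine ⟨hci, ?_⟩
  have h1 := circleAverage_mono hci hBi (fun z _ => hpt z)
  have h2 : circleAverage (fun z => s⁻¹ * (Real.log A - 1 + A⁻¹) +
      s⁻¹ * A⁻¹ * (‖logDeriv f z‖ ^ s + ‖logDeriv g z‖ ^ s)) 0 r =
      s⁻¹ * (Real.log A - 1 + A⁻¹) + s⁻¹ * A⁻¹ *
      (circleAverage (fun z => ‖logDeriv f z‖ ^ s) 0 r +
        circleAverage (fun z => ‖logDeriv g z‖ ^ s) 0 r) := by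
    have h3 : CircleIntegrable (fun z => s⁻¹ * A⁻¹ * (‖logDeriv f z‖ ^ s + ‖logDeriv g z‖ ^ s))
        0 r := by
      have h3 := IntervalIntegrable.const_mul hXi (s⁻¹ * A⁻¹)
      exact h3
    rw [circleAverage_fun_add (circleIntegrable_const _ _ _) h3, circleAverage_const]
    congr 1
    have h4 := circleAverage_fun_smul (a := s⁻¹ * A⁻¹)
      (f := fun z => ‖logDeriv f z‖ ^ s + ‖logDeriv g z‖ ^ s) (c := 0) (R := r)
    simp only [smul_eq_mul] at h4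
    rw [h4, circleAverage_fun_add hfi hgi]
  rw [h2] at h1
  have h5 : circleAverage (fun z => ‖logDeriv f z‖ ^ s) 0 r +
      circleAverage (fun z => ‖logDeriv g z‖ ^ s) 0 r ≤ A - 1 := by
    rw [hAdef]
    nlinarith
  have h6 : s⁻¹ * A⁻¹ * (circleAverage (fun z => ‖logDeriv f z‖ ^ s) 0 r +
      circleAverage (fun z => ‖logDeriv g z‖ ^ s) 0 r) ≤ s⁻¹ * A⁻¹ * (A - 1) :=
    mul_le_mul_of_nonneg_left h5 (by positivity)
  have h7 : s⁻¹ * (Real.log A - 1 + A⁻¹) + s⁻¹ * A⁻¹ * (A - 1) = s⁻¹ * Real.log A := by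
    field_simp
    ring
  have h8 : Real.log A = Real.log (Kf + Kg + 1) + Real.log (L r + 1) + L r := by
    rw [hAdef, hq, Real.log_mul (by positivity) (by positivity),
      Real.log_div (by positivity) h1r.ne']
    unfold L
    ring
  calc circleAverage (fun z => log⁺ (‖logDeriv f z‖ + ‖logDeriv g z‖)) 0 r
      ≤ s⁻¹ * (Real.log A - 1 + A⁻¹) + s⁻¹ * A⁻¹ *
      (circleAverage (fun z => ‖logDeriv f z‖ ^ s) 0 r +
        circleAverage (fun z => ‖logDeriv g z‖ ^ s) 0 r) := h1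
    _ ≤ s⁻¹ * Real.log A := by linarith
    _ = (1 + ε / 2) * (Real.log (Kf + Kg + 1) + Real.log (L r + 1)) + (1 + ε / 2) * L r := by
        rw [hsi, h8]; ring
    _ ≤ ε / 2 * L r + (1 + ε / 2) * L r := by linarith
    _ = (1 + ε) * L r := by ring

theorem ld1 {f : ℂ → ℂ} (hf : Slow f) {ε : ℝ} (hε : 0 < ε) :
    ∀ᶠ r in 𝓝[<] (1 : ℝ), prox (logDeriv f) r ≤ (1 + ε) * L r := by
  have hmem : Set.Ioo (0 : ℝ) 1 ∈ 𝓝[<] (1 : ℝ) := Ioo_mem_nhdsLT (by norm_num)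
  filter_upwards [ld hf hf hε, hmem] with r hr hr1
  refine le_trans ?_ hr.2
  unfold prox
  refine circleAverage_mono (ci_pos (ld_mer hf.1) hr1.1 hr1.2) hr.1 (fun z _ => ?_)
  exact Real.posLog_le_posLog (norm_nonneg _) (by linarith [norm_nonneg (logDeriv f z)])

end Pool.Agent.MP4b24a5
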