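import Mathlib
import Pool.Agent.Lib.MP_4b24a5_an.Defs
import Pool.Agent.Lib.MP_4b24a5_an.LdB

set_option autoImplicit false

noncomputable section

namespace Pool.Agent.MP4b24a5

open Complex Metric Real MeasureTheory Filter Topology

theorem Mer.mul {f g : ℂ → ℂ} (hf : Mer f) (hg : Mer g) : Mer (fun z => f z * g z) := by
  refine ⟨hf.1.mul hg.1, fun z hz => ?_⟩
  rw [fun_meromorphicOrderAt_mul (hf.1 z hz) (hg.1 z hz)]
  exact WithTop.add_ne_top.mpr ⟨hf.2 z hz, hg.2 z hz⟩

private theorem tc_const {c : ℂ} (hc : c ≠ 0) : Mer (fun _ => c) := by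
  refine ⟨fun z _ => MeromorphicAt.const c z, fun z _ => ?_⟩
  classical
  rw [meromorphicOrderAt_const, if_neg hc]
  exact WithTop.zero_ne_top

theorem Mer.pow {f : ℂ → ℂ} (hf : Mer f) (n : ℕ) : Mer (fun z => f z ^ n) := by
  induction n with
  | zero => simpa using tc_const one_ne_zero
  | succ n ih =>
    have h := ih.mul hf
    simpa [pow_succ] using h

theorem Mer.inv {f : ℂ → ℂ} (hf : Mer f) : Mer (fun z => (f z)⁻¹) := by
  refine ⟨hf.1.inv, fun z hz => ?_⟩
  rw [fun_meromorphicOrderAt_inv]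
  have h := hf.2 z hz
  lift meromorphicOrderAt f z to ℤ using h with n
  exact WithTop.coe_ne_top

private theorem tc_ev : ∀ᶠ r in 𝓝[<] (1 : ℝ), 0 < r ∧ r < 1 := by
  filter_upwards [Ioo_mem_nhdsLT (zero_lt_one' ℝ)] with r hr
  exact hr

private theorem tc_lf {f : ℂ → ℂ} (hf : Mer f) : LF (fun u => ((max (-od f u) 0 : ℤ) : ℝ)) := by
  have h := (lf_od hf).comp (g := fun x : ℝ => max (-x) 0) (by simp)
  have h2 : (fun u => ((max (-od f u) 0 : ℤ) : ℝ)) = fun u => max (-(od f u : ℝ)) 0 := by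
    funext u
    push_cast
    rfl
  rw [h2]
  exact h

private theorem tc_bd {f : ℂ → ℂ} (hf : Slow f) : ∃ K : ℝ, ∀ᶠ r in 𝓝[<] (1 : ℝ),
    prox f r ≤ K * L r ∧ S (fun u => ((max (-od f u) 0 : ℤ) : ℝ)) r ≤ K * L r := by
  obtain ⟨K, hK⟩ := slow_abs hf
  refine ⟨K, ?_⟩
  filter_upwards [hK, tc_ev] with r hr hr0
  refine ⟨le_trans ?_ hr.1, le_trans ?_ hr.2⟩
  · unfold prox
    refine circleAverage_mono (ci_pos hf.1.1 hr0.1 hr0.2) (ci_log hf.1 hr0.1 hr0.2).abs ?_
    intro z _
    simp only [posLog_apply]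
    exact max_le (abs_nonneg _) (le_abs_self _)
  · refine S_mono (tc_lf hf.1) ((lf_od hf.1).comp (g := fun x : ℝ => |x|) (by simp)) ?_ hr0.1 hr0.2
    intro u _ _
    push_cast
    exact max_le (neg_le_abs _) (abs_nonneg _)

private theorem tc_od_mul {f g : ℂ → ℂ} (hf : Mer f) (hg : Mer g) {u : ℂ} (hu : ‖u‖ < 1) :
    od (fun z => f z * g z) u = od f u + od g u := by
  have hu' : u ∈ ball (0 : ℂ) 1 := by rwa [mem_ball_zero_iff]
  unfold od
  rw [fun_meromorphicOrderAt_mul (hf.1 u hu') (hg.1 u hu')]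
  exact WithTop.untop₀_add (hf.2 u hu') (hg.2 u hu')

theorem Slow.mul {f g : ℂ → ℂ} (hf : Slow f) (hg : Slow g) : Slow (fun z => f z * g z) := by
  obtain ⟨K1, h1⟩ := tc_bd hf
  obtain ⟨K2, h2⟩ := tc_bd hg
  refine slow_of (hf.1.mul hg.1) (K1 + K2) ?_
  filter_upwards [h1, h2, tc_ev] with r hr1 hr2 hr0
  constructor
  · have h3 : prox (fun z => f z * g z) r ≤ prox f r + prox g r := by
      unfold prox
      have c1 := ci_pos hf.1.1 hr0.1 hr0.2
      have c2 := ci_pos hg.1.1 hr0.1 hr0.2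
      rw [← circleAverage_add c1 c2]
      refine circleAverage_mono (ci_pos (hf.1.mul hg.1).1 hr0.1 hr0.2) (c1.add c2) ?_
      intro z _
      simp only [norm_mul, Pi.add_apply]
      exact posLog_mul
    nlinarith [hr1.1, hr2.1]
  · have h3 : S (fun u => ((max (-od (fun z => f z * g z) u) 0 : ℤ) : ℝ)) r ≤
        S (fun u => ((max (-od f u) 0 : ℤ) : ℝ)) r +
          S (fun u => ((max (-od g u) 0 : ℤ) : ℝ)) r := by
      rw [← S_add (tc_lf hf.1) (tc_lf hg.1) hr0.1 hr0.2]
      refine S_mono (tc_lf (hf.1.mul hg.1)) ((tc_lf hf.1).add (tc_lf hg.1)) ?_ hr0.1 hr0.2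
      intro u _ hu
      rw [tc_od_mul hf.1 hg.1 hu]
      have h4 : max (-(od f u + od g u)) 0 ≤ max (-od f u) 0 + max (-od g u) 0 := by
        rcases le_total (-od f u) 0 with a | a <;> rcases le_total (-od g u) 0 with b | b <;>
          simp only [max_eq_left, max_eq_right, a, b] <;> omega
      exact_mod_cast h4
    nlinarith [hr1.2, hr2.2]

private theorem tc_slow_const {c : ℂ} (hc : c ≠ 0) : Slow (fun _ => c) := by
  refine slow_of (tc_const hc) 1 ?_
  have hL := L_tendsto.eventually_ge_atTop (max (log⁺ ‖c‖) 0)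
  filter_upwards [hL, tc_ev] with r hr hr0
  constructor
  · unfold prox
    rw [circleAverage_const, one_mul]
    exact (le_max_left _ _).trans hr
  · have h1 : (fun u => ((max (-od (fun _ => c) u) 0 : ℤ) : ℝ)) = fun _ => (0 : ℝ) := by
      funext u
      have h2 : od (fun _ => c) u = 0 := by
        classical
        unfold od
        rw [meromorphicOrderAt_const, if_neg hc]
        rfl
      rw [h2]
      simp
    rw [h1]
    have h3 : S (fun _ => (0 : ℝ)) r = 0 := by
      unfold S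
      simp
    rw [h3, one_mul]
    exact (le_max_right _ _).trans hr

theorem Slow.pow {f : ℂ → ℂ} (hf : Slow f) (n : ℕ) : Slow (fun z => f z ^ n) := by
  induction n with
  | zero => simpa using tc_slow_const one_ne_zero
  | succ n ih =>
    have h := ih.mul hf
    simpa [pow_succ] using h

private theorem tc_od_sub {f : ℂ → ℂ} (hf : Mer f) (w : ℂ) (hw : Mer (fun z => f z - w)) {u : ℂ}
    (hu : ‖u‖ < 1) : max (-od (fun z => f z - w) u) 0 ≤ max (-od f u) 0 := by
  classical
  have hu' : u ∈ ball (0 : ℂ) 1 := by rwa [mem_ball_zero_iff]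
  have h1 := meromorphicOrderAt_add (hf.1 u hu') (MeromorphicAt.const (-w) u)
  have h2 : (f + fun _ => -w) = fun z => f z - w := by
    funext z
    simp [sub_eq_add_neg]
  rw [h2, meromorphicOrderAt_const] at h1
  have h3 := hf.2 u hu'
  have h4 := hw.2 u hu'
  unfold od
  lift meromorphicOrderAt f u to ℤ using h3 with a
  lift meromorphicOrderAt (fun z => f z - w) u to ℤ using h4 with b
  have h5 : min a 0 ≤ b := by
    have h6 : ((min a 0 : ℤ) : WithTop ℤ) ≤ (b : WithTop ℤ) := by
      refine le_trans ?_ h1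
      split_ifs
      · rw [min_top_right]
        exact_mod_cast min_le_left a 0
      · rw [WithTop.coe_min]
        rfl
    exact_mod_cast h6
  simp only [WithTop.untop₀_coe]
  rcases le_total a 0 with c | c
  · rw [min_eq_left c] at h5
    exact max_le_max (by omega) le_rfl
  · rw [min_eq_right c] at h5
    rw [max_eq_right (by omega : -b ≤ 0)]
    exact le_max_right _ _

theorem Slow.sub_const {f : ℂ → ℂ} (hf : Slow f) (w : ℂ) (hw : Mer (fun z => f z - w)) :
    Slow (fun z => f z - w) := by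
  obtain ⟨K1, h1⟩ := tc_bd hf
  refine slow_of hw (K1 + 1) ?_
  have hL := L_tendsto.eventually_ge_atTop (max (log⁺ ‖w‖ + Real.log 2) 0)
  filter_upwards [h1, hL, tc_ev] with r hr1 hr hr0
  have hL0 : 0 ≤ L r := (le_max_right _ _).trans hr
  constructor
  · have h3 : prox (fun z => f z - w) r ≤ prox f r + (log⁺ ‖w‖ + Real.log 2) := by
      unfold prox
      have c1 := ci_pos hf.1.1 hr0.1 hr0.2
      have c2 : CircleIntegrable (fun _ : ℂ => log⁺ ‖w‖ + Real.log 2) 0 r :=
        circleIntegrable_const _ _ _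
      have c3 : circleAverage (fun _ : ℂ => log⁺ ‖w‖ + Real.log 2) 0 r =
          log⁺ ‖w‖ + Real.log 2 := circleAverage_const _ _ _
      conv_rhs => rw [← c3]
      rw [← circleAverage_add c1 c2]
      refine circleAverage_mono (ci_pos hw.1 hr0.1 hr0.2) (c1.add c2) ?_
      intro z _
      simp only [Pi.add_apply]
      have h4 := posLog_norm_add_le (f z) (-w)
      rw [norm_neg, ← sub_eq_add_neg] at h4
      linarith
    have h5 := (le_max_left _ _).trans hr
    nlinarith [hr1.1]
  · have h3 : S (fun u => ((max (-od (fun z => f z - w) u) 0 : ℤ) : ℝ)) r ≤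
        S (fun u => ((max (-od f u) 0 : ℤ) : ℝ)) r := by
      refine S_mono (tc_lf hw) (tc_lf hf.1) ?_ hr0.1 hr0.2
      intro u _ hu
      exact_mod_cast tc_od_sub hf.1 w hw hu
    nlinarith [hr1.2]

end Pool.Agent.MP4b24a5
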