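import Mathlib
import Pool.Agent.Lib.MP_4b24a5_an.Defs
import Pool.Agent.Lib.MP_4b24a5_an.Ld
import Pool.Agent.Lib.MP_4b24a5_an.Tc

set_option autoImplicit false

noncomputable section

namespace Pool.Agent.MP4b24a5

open Complex Metric Real MeasureTheory Filter Topology

/-- a nowhere locally zero meromorphic function has finitely many zeros in a smaller disc -/
private theorem td_zeros_finite {f : ℂ → ℂ} (hf : Mer f) {r : ℝ} (h1 : r < 1) :
    {z : ℂ | ‖z‖ ≤ r ∧ f z = 0}.Finite := by
  have hloc : ∀ z ∈ closedBall (0 : ℂ) r, {x | x = z ∨ f x ≠ 0} ∈ 𝓝 z := by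
    intro z hz
    have hz1 : z ∈ ball (0 : ℂ) 1 := closedBall_subset_ball h1 hz
    have hc := (meromorphicOrderAt_ne_top_iff_eventually_ne_zero (hf.1 z hz1)).1 (hf.2 z hz1)
    rw [eventually_nhdsWithin_iff] at hc
    filter_upwards [hc] with x hx
    by_cases hxz : x = z
    · exact Or.inl hxz
    · exact Or.inr (hx hxz)
  obtain ⟨t, _, hcov⟩ := (isCompact_closedBall (0 : ℂ) r).elim_nhds_subcover _ hloc
  refine t.finite_toSet.subset ?_
  rintro z ⟨hz, hz0⟩
  have hzb : z ∈ closedBall (0 : ℂ) r := by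
    rw [mem_closedBall, dist_zero_right]
    exact hz
  obtain ⟨y, hy, hzy⟩ := Set.mem_iUnion₂.mp (hcov hzb)
  rcases hzy with h | h
  · rw [h]
    exact hy
  · exact absurd hz0 h

/-- the order of the derivative -/
private theorem td_order {f : ℂ → ℂ} {u : ℂ} (hf : MeromorphicAt f u)
    (ht : meromorphicOrderAt f u ≠ ⊤) (ht' : meromorphicOrderAt (deriv f) u ≠ ⊤) :
    (((max (-od (deriv f) u) 0 : ℤ)) : ℝ) ≤ 2 * |(od f u : ℝ)| := by
  obtain ⟨n, hn⟩ := WithTop.ne_top_iff_exists.1 ht
  obtain ⟨n', hn'⟩ := WithTop.ne_top_iff_exists.1 ht'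
  have e : od f u = n := by
    unfold od
    rw [← hn]
    rfl
  have e' : od (deriv f) u = n' := by
    unfold od
    rw [← hn']
    rfl
  rw [e, e', ← Int.cast_abs]
  have key : max (-n') 0 ≤ 2 * |n| := by
    rcases lt_or_ge n 0 with hneg | hpos
    · have h1 : (n : ℂ) ≠ 0 := by exact_mod_cast hneg.ne
      have h2 := meromorphicOrderAt_deriv_eq_sub_one h1 hn.symm
      rw [← hn'] at h2
      have h3 : n' = n - 1 := by exact_mod_cast h2
      rw [abs_of_neg hneg]
      omega
    · have h1 : (0 : WithTop ℤ) ≤ meromorphicOrderAt f u := by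
        rw [← hn]
        exact_mod_cast hpos
      have h2 := hf.meromorphicOrderAt_nonneg_iff_analyticAt_toMeromorphicNFAt.1 h1
      have h3 := hf.eq_nhdsNE_toMeromorphicNFAt.nhdsNE_deriv
      have h4 : (0 : WithTop ℤ) ≤ meromorphicOrderAt (deriv f) u := by
        rw [meromorphicOrderAt_congr h3]
        exact h2.deriv.meromorphicOrderAt_nonneg
      rw [← hn'] at h4
      have h5 : 0 ≤ n' := by exact_mod_cast h4
      have h6 : 0 ≤ |n| := abs_nonneg n
      omega
  exact_mod_cast key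

theorem Slow.deriv {f : ℂ → ℂ} (hf : Slow f) (h : Mer (deriv f)) : Slow (deriv f) := by
  obtain ⟨K, hK⟩ := slow_abs hf
  have hld := ld1 hf one_pos
  have hmer : MeromorphicOn (logDeriv f) (ball 0 1) := fun z hz =>
    (h.1 z hz).div (hf.1.1 z hz)
  refine slow_of h (2 * |K| + 2) ?_
  have hr : ∀ᶠ r : ℝ in 𝓝[<] (1 : ℝ), 0 < r ∧ r < 1 := by
    have h1 : Set.Ioo (0 : ℝ) 1 ∈ 𝓝[<] (1 : ℝ) := Ioo_mem_nhdsLT one_pos
    filter_upwards [h1] with r hr
    exact hr
  filter_upwards [hK, hld, hr] with r hK hld hr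
  obtain ⟨h0, h1⟩ := hr
  have hL : 0 ≤ L r := by
    unfold L
    have := Real.log_nonpos (x := 1 - r) (by linarith) (by linarith)
    linarith
  have hKabs : K * L r ≤ |K| * L r := mul_le_mul_of_nonneg_right (le_abs_self K) hL
  constructor
  · have i1 : CircleIntegrable (fun z => log⁺ ‖_root_.deriv f z‖) 0 r := ci_pos h.1 h0 h1
    have i2 : CircleIntegrable (fun z => |Real.log ‖f z‖|) 0 r := (ci_log hf.1 h0 h1).abs
    have i3 : CircleIntegrable (fun z => log⁺ ‖logDeriv f z‖) 0 r := ci_pos hmer h0 h1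
    have hle : circleAverage (fun z => log⁺ ‖_root_.deriv f z‖) 0 r ≤
        circleAverage (fun z => |Real.log ‖f z‖| + log⁺ ‖logDeriv f z‖) 0 r := by
      refine circleAverage_le h0 i1 (i2.add i3) (td_zeros_finite hf.1 h1) ?_
      intro z hz hzE
      have hfz : f z ≠ 0 := fun h2 => hzE ⟨hz.le, h2⟩
      have e : _root_.deriv f z = f z * logDeriv f z := by
        rw [logDeriv_apply]
        field_simp
      rw [e, norm_mul]
      have h3 : log⁺ (‖f z‖ * ‖logDeriv f z‖) ≤ log⁺ ‖f z‖ + log⁺ ‖logDeriv f z‖ :=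
        Real.posLog_mul
      have h4 : log⁺ ‖f z‖ ≤ |Real.log ‖f z‖| := by
        rw [Real.posLog]
        exact max_le (abs_nonneg _) (le_abs_self _)
      linarith
    have hadd : circleAverage (fun z => |Real.log ‖f z‖| + log⁺ ‖logDeriv f z‖) 0 r =
        circleAverage (fun z => |Real.log ‖f z‖|) 0 r + prox (logDeriv f) r :=
      circleAverage_add i2 i3
    have hp : prox (_root_.deriv f) r ≤ K * L r + (1 + 1) * L r := by
      unfold prox at hld ⊢
      rw [hadd] at hle
      unfold prox at hle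
      linarith [hK.1]
    have : (2 * |K| + 2) * L r = |K| * L r + |K| * L r + (1 + 1) * L r := by ring
    have h5 : 0 ≤ |K| * L r := mul_nonneg (abs_nonneg K) hL
    linarith
  · have hmono : S (fun u => ((max (-od (_root_.deriv f) u) 0 : ℤ) : ℝ)) r ≤
        S (fun u => 2 * |(od f u : ℝ)|) r := by
      have l1 : LF (fun u => ((max (-od (_root_.deriv f) u) 0 : ℤ) : ℝ)) := by
        have := (lf_od h).comp (g := fun x => max (-x) 0) (by simp)
        simpa using this
      have l2 : LF (fun u => 2 * |(od f u : ℝ)|) :=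
        (lf_od hf.1).comp (g := fun x => 2 * |x|) (by simp)
      refine S_mono l1 l2 (fun u _ hu => ?_) h0 h1
      have hub : u ∈ ball (0 : ℂ) 1 := by
        rw [mem_ball_zero_iff]
        exact hu
      exact td_order (hf.1.1 u hub) (hf.1.2 u hub) (h.2 u hub)
    have hs : S (fun u => 2 * |(od f u : ℝ)|) r = 2 * S (fun u => |(od f u : ℝ)|) r := S_smul 2
    rw [hs] at hmono
    have : (2 * |K| + 2) * L r = 2 * (|K| * L r) + 2 * L r := by ring
    linarith [hK.2]

theorem Slow.iter {f : ℂ → ℂ} (hf : Slow f) {k : ℕ} (h : ∀ j ≤ k, Mer (iteratedDeriv j f)) :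
    ∀ j ≤ k, Slow (iteratedDeriv j f) := by
  intro j
  induction j with
  | zero =>
    intro _
    rw [iteratedDeriv_zero]
    exact hf
  | succ j ih =>
    intro hj
    have h1 := h (j + 1) hj
    rw [iteratedDeriv_succ] at h1 ⊢
    exact (ih (by omega)).deriv h1

theorem Slow.Psi {k : ℕ} (m : Fin (k + 1) → ℕ) {f : ℂ → ℂ} (hf : Slow f)
    (h : ∀ j ≤ k, Mer (iteratedDeriv j f)) : Slow (Psi m f) := by
  have key : ∀ s : Finset (Fin (k + 1)),
      Slow (fun z => ∏ j ∈ s, iteratedDeriv (j : ℕ) f z ^ m j) := by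
    intro s
    induction s using Finset.induction_on with
    | empty => simpa using hf.pow 0
    | insert a s ha ih =>
      have h1 := ((hf.iter h a (Nat.lt_succ_iff.1 a.2)).pow (m a)).mul ih
      have e : (fun z => ∏ j ∈ insert a s, iteratedDeriv (j : ℕ) f z ^ m j) =
          fun z => iteratedDeriv (a : ℕ) f z ^ m a * ∏ j ∈ s, iteratedDeriv (j : ℕ) f z ^ m j := by
        funext z
        rw [Finset.prod_insert ha]
      rw [e]
      exact h1
  exact key Finset.univ

end Pool.Agent.MP4b24a5
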