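import Mathlib
import Pool.Agent.Lib.MP_4b24a5_an.Defs
import Pool.Agent.Lib.MP_4b24a5_an.Td

set_option autoImplicit false

noncomputable section

namespace Pool.Agent.MP4b24a5

open Complex Metric Real MeasureTheory Filter Topology

/-- only finitely many zeros on a circle -/
private lemma prx_fin {g : ℂ → ℂ} (hg : Mer g) {r : ℝ} (h1 : r < 1) :
    {z : ℂ | ‖z‖ = r ∧ g z = 0}.Finite := by
  by_contra hinf
  have hinf' : {z : ℂ | ‖z‖ = r ∧ g z = 0}.Infinite := hinf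
  obtain ⟨x, hx, hacc⟩ := hinf'.exists_accPt_of_subset_isCompact (isCompact_sphere (0 : ℂ) r)
    (fun z hz => by simpa using hz.1)
  have hxb : x ∈ ball (0 : ℂ) 1 := by
    have : ‖x‖ = r := by simpa using hx
    simpa [this] using h1
  have hne : ∀ᶠ y in 𝓝[≠] x, g y ≠ 0 :=
    (meromorphicOrderAt_ne_top_iff_eventually_ne_zero (hg.1 x hxb)).1 (hg.2 x hxb)
  rw [accPt_iff_frequently_nhdsNE] at hacc
  obtain ⟨y, hy, hy'⟩ := (hacc.and_eventually hne).exists
  exact hy' hy.2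

/-- the quotient of a derivative by the function is a product of logarithmic derivatives -/
private lemma prx_prod {f : ℂ → ℂ} {z : ℂ} {k : ℕ} (h : ∀ j ≤ k, iteratedDeriv j f z ≠ 0) :
    ∀ j ≤ k, iteratedDeriv j f z =
      f z * ∏ i ∈ Finset.range j, logDeriv (iteratedDeriv i f) z := by
  intro j
  induction j with
  | zero => intro _; simp
  | succ j ih =>
    intro hj
    have hjk : j ≤ k := by omega
    rw [Finset.prod_range_succ, ← mul_assoc, ← ih hjk, logDeriv_apply, ← iteratedDeriv_succ,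
      mul_div_cancel₀ _ (h j hjk)]

/-- the pointwise inequality -/
private lemma prx_point {k : ℕ} (m : Fin (k + 1) → ℕ) {f : ℂ → ℂ} {z : ℂ}
    (h : ∀ j ≤ k, iteratedDeriv j f z ≠ 0) :
    (deg m : ℝ) * log⁺ ‖(f z)⁻¹‖ ≤ log⁺ ‖(Psi m f z)⁻¹‖ +
      ∑ j : Fin (k + 1), (m j : ℝ) *
        ∑ i ∈ Finset.range (j : ℕ), log⁺ ‖logDeriv (iteratedDeriv i f) z‖ := by
  have hPsi : Psi m f z = f z ^ deg m *
      ∏ j : Fin (k + 1), (∏ i ∈ Finset.range (j : ℕ), logDeriv (iteratedDeriv i f) z) ^ m j := by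
    unfold Psi deg
    rw [← Finset.prod_pow_eq_pow_sum, ← Finset.prod_mul_distrib]
    refine Finset.prod_congr rfl fun j _ => ?_
    rw [prx_prod h (j : ℕ) (Nat.lt_succ_iff.1 j.2), mul_pow]
  have hf0 : f z ≠ 0 := by simpa using h 0 (Nat.zero_le _)
  have hPsi0 : Psi m f z ≠ 0 := by
    unfold Psi
    exact Finset.prod_ne_zero_iff.2 fun j _ => pow_ne_zero _ (h _ (Nat.lt_succ_iff.1 j.2))
  have hkey : ((f z)⁻¹) ^ deg m = (Psi m f z)⁻¹ *
      ∏ j : Fin (k + 1), (∏ i ∈ Finset.range (j : ℕ), logDeriv (iteratedDeriv i f) z) ^ m j := by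
    rw [inv_pow, eq_comm, inv_mul_eq_iff_eq_mul₀ hPsi0, eq_mul_inv_iff_mul_eq₀ (pow_ne_zero _ hf0),
      mul_comm]
    exact hPsi.symm
  calc (deg m : ℝ) * log⁺ ‖(f z)⁻¹‖ = log⁺ ‖((f z)⁻¹) ^ deg m‖ := by
        rw [norm_pow, posLog_pow]
    _ = log⁺ (‖(Psi m f z)⁻¹‖ * ∏ j : Fin (k + 1),
          (∏ i ∈ Finset.range (j : ℕ), ‖logDeriv (iteratedDeriv i f) z‖) ^ m j) := by
        rw [hkey, norm_mul, norm_prod]
        congr 2
        refine Finset.prod_congr rfl fun j _ => ?_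
        rw [norm_pow, norm_prod]
    _ ≤ log⁺ ‖(Psi m f z)⁻¹‖ + log⁺ (∏ j : Fin (k + 1),
          (∏ i ∈ Finset.range (j : ℕ), ‖logDeriv (iteratedDeriv i f) z‖) ^ m j) := posLog_mul
    _ ≤ log⁺ ‖(Psi m f z)⁻¹‖ + ∑ j : Fin (k + 1), (m j : ℝ) *
        ∑ i ∈ Finset.range (j : ℕ), log⁺ ‖logDeriv (iteratedDeriv i f) z‖ := by
        gcongr
        refine (posLog_prod _ _).trans ?_
        refine Finset.sum_le_sum fun j _ => ?_
        rw [posLog_pow]
        gcongr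
        exact posLog_prod _ _

theorem prx {k : ℕ} (m : Fin (k + 1) → ℕ) {f : ℂ → ℂ} (hs : Slow f)
    (h : ∀ j ≤ k, Mer (iteratedDeriv j f)) {ε : ℝ} (hε : 0 < ε) : ∀ᶠ r in 𝓝[<] (1 : ℝ),
      (deg m : ℝ) * prox (fun z => (f z)⁻¹) r ≤
        prox (fun z => (Psi m f z)⁻¹) r + ((wgt m : ℝ) + ε) * L r := by
  have hw : (0 : ℝ) < (wgt m : ℝ) + 1 := by positivity
  have hε' : 0 < ε / ((wgt m : ℝ) + 1) := div_pos hε hw
  have hSlow := hs.iter h
  have hld : ∀ᶠ r in 𝓝[<] (1 : ℝ), ∀ i ∈ Finset.range (k + 1),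
      prox (logDeriv (iteratedDeriv i f)) r ≤ (1 + ε / ((wgt m : ℝ) + 1)) * L r := by
    rw [Filter.eventually_all_finset]
    intro i hi
    exact ld1 (hSlow i (Nat.lt_succ_iff.1 (Finset.mem_range.1 hi))) hε'
  have h01 : ∀ᶠ r in 𝓝[<] (1 : ℝ), r ∈ Set.Ioo (0 : ℝ) 1 :=
    Ioo_mem_nhdsLT (by norm_num)
  filter_upwards [hld, h01] with r hr h01
  obtain ⟨h0, h1⟩ := h01
  have hL : 0 ≤ L r := by
    unfold L
    have : Real.log (1 - r) ≤ 0 := Real.log_nonpos (by linarith) (by linarith)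
    linarith
  -- integrability
  have hmf : MeromorphicOn f (ball 0 1) := hs.1.1
  have hci1 : CircleIntegrable (fun z => (deg m : ℝ) * log⁺ ‖(f z)⁻¹‖) 0 r := by
    have := (ci_pos (f := fun z => (f z)⁻¹) hmf.inv h0 h1).const_fun_smul (a := (deg m : ℝ))
    simpa [smul_eq_mul] using this
  have hci2 : CircleIntegrable (fun z => log⁺ ‖(Psi m f z)⁻¹‖) 0 r :=
    ci_pos (f := fun z => (Psi m f z)⁻¹) (hs.Psi m h).1.1.inv h0 h1
  have hci3 : ∀ i ≤ k, CircleIntegrable (fun z => log⁺ ‖logDeriv (iteratedDeriv i f) z‖) 0 r := by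
    intro i hi
    exact ci_pos (f := logDeriv (iteratedDeriv i f)) ((h i hi).1.deriv.div (h i hi).1) h0 h1
  have hci4 : ∀ j : Fin (k + 1), CircleIntegrable
      (fun z => ∑ i ∈ Finset.range (j : ℕ), log⁺ ‖logDeriv (iteratedDeriv i f) z‖) 0 r := by
    intro j
    refine CircleIntegrable.fun_sum _ fun i hi => hci3 i ?_
    have := Finset.mem_range.1 hi
    have := j.2
    omega
  have hci5 : ∀ j : Fin (k + 1), CircleIntegrable (fun z => (m j : ℝ) *
      ∑ i ∈ Finset.range (j : ℕ), log⁺ ‖logDeriv (iteratedDeriv i f) z‖) 0 r := by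
    intro j
    have := (hci4 j).const_fun_smul (a := (m j : ℝ))
    simpa [smul_eq_mul] using this
  have hci6 : CircleIntegrable (fun z => ∑ j : Fin (k + 1), (m j : ℝ) *
      ∑ i ∈ Finset.range (j : ℕ), log⁺ ‖logDeriv (iteratedDeriv i f) z‖) 0 r :=
    CircleIntegrable.fun_sum _ fun j _ => hci5 j
  -- the exceptional set
  have hE : (⋃ j ∈ Finset.range (k + 1), {z : ℂ | ‖z‖ = r ∧ iteratedDeriv j f z = 0}).Finite := by
    refine Set.Finite.biUnion (Finset.finite_toSet _) fun j hj => ?_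
    exact prx_fin (h j (Nat.lt_succ_iff.1 (Finset.mem_range.1 hj))) h1
  have hle := circleAverage_le h0 hci1 (hci2.fun_add hci6) hE (fun z hz hzE => by
    refine prx_point m fun j hj hzero => hzE ?_
    simp only [Set.mem_iUnion]
    exact ⟨j, Finset.mem_range.2 (Nat.lt_succ_iff.2 hj), hz, hzero⟩)
  rw [circleAverage_fun_add hci2 hci6, circleAverage_fun_sum (fun j _ => hci5 j)] at hle
  have e1 : circleAverage (fun z => (deg m : ℝ) * log⁺ ‖(f z)⁻¹‖) 0 r =
      (deg m : ℝ) * prox (fun z => (f z)⁻¹) r := by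
    have := circleAverage_fun_smul (a := (deg m : ℝ)) (f := fun z => log⁺ ‖(f z)⁻¹‖) (c := 0)
      (R := r)
    simpa [smul_eq_mul, prox] using this
  have e2 : ∀ j : Fin (k + 1), circleAverage (fun z => (m j : ℝ) *
      ∑ i ∈ Finset.range (j : ℕ), log⁺ ‖logDeriv (iteratedDeriv i f) z‖) 0 r ≤
      (m j : ℝ) * ((j : ℕ) * ((1 + ε / ((wgt m : ℝ) + 1)) * L r)) := by
    intro j
    have h2 := circleAverage_fun_smul (a := (m j : ℝ))
      (f := fun z => ∑ i ∈ Finset.range (j : ℕ), log⁺ ‖logDeriv (iteratedDeriv i f) z‖) (c := 0)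
      (R := r)
    simp only [smul_eq_mul] at h2
    rw [h2]
    gcongr
    rw [circleAverage_fun_sum (fun i hi => hci3 i (by
      have := Finset.mem_range.1 hi
      have := j.2
      omega))]
    have h3 : ∀ i ∈ Finset.range (j : ℕ), circleAverage
        (fun z => log⁺ ‖logDeriv (iteratedDeriv i f) z‖) 0 r ≤
        (1 + ε / ((wgt m : ℝ) + 1)) * L r := by
      intro i hi
      refine hr i ?_
      have := Finset.mem_range.1 hi
      have := j.2
      exact Finset.mem_range.2 (by omega)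
    refine (Finset.sum_le_sum h3).trans ?_
    rw [Finset.sum_const, Finset.card_range, nsmul_eq_mul]
  have e3 : ∑ j : Fin (k + 1), (m j : ℝ) * ((j : ℕ) * ((1 + ε / ((wgt m : ℝ) + 1)) * L r)) =
      (wgt m : ℝ) * ((1 + ε / ((wgt m : ℝ) + 1)) * L r) := by
    unfold wgt
    push_cast
    rw [Finset.sum_mul]
    refine Finset.sum_congr rfl fun j _ => ?_
    ring
  have e4 : (wgt m : ℝ) * ((1 + ε / ((wgt m : ℝ) + 1)) * L r) ≤ ((wgt m : ℝ) + ε) * L r := by
    rw [← mul_assoc]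
    refine mul_le_mul_of_nonneg_right ?_ hL
    have : (wgt m : ℝ) * (ε / ((wgt m : ℝ) + 1)) ≤ ε := by
      rw [mul_div_assoc', div_le_iff₀ hw]
      nlinarith
    linarith
  have e5 := Finset.sum_le_sum (fun j (_ : j ∈ Finset.univ) => e2 j)
  rw [e1] at hle
  have e6 : circleAverage (fun z => log⁺ ‖(Psi m f z)⁻¹‖) 0 r =
      prox (fun z => (Psi m f z)⁻¹) r := rfl
  rw [e6] at hle
  linarith

end Pool.Agent.MP4b24a5
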