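import Mathlib
import Pool.Agent.Lib.MP_4b24a5_an.Defs
import Pool.Agent.Lib.MP_4b24a5_an.Prx

set_option autoImplicit false

noncomputable section

namespace Pool.Agent.MP4b24a5

open Complex Metric Real MeasureTheory Filter Topology

/-- orders of the iterated derivatives at a pole -/
private theorem cst_ord_pole {f : ℂ → ℂ} {u : ℂ} {n : ℤ} (hn : n < 0)
    (h : meromorphicOrderAt f u = n) (j : ℕ) :
    meromorphicOrderAt (iteratedDeriv j f) u = ((n - j : ℤ) : WithTop ℤ) := by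
  induction j with
  | zero => simpa using h
  | succ j ih =>
    rw [iteratedDeriv_succ]
    have h1 : ((n - j : ℤ) : ℂ) ≠ 0 := by
      have : n - j ≠ 0 := by omega
      exact_mod_cast this
    rw [meromorphicOrderAt_deriv_eq_sub_one h1 ih]
    congr 1
    push_cast
    ring

private theorem cst_analytic_iter {f : ℂ → ℂ} {u : ℂ} (h : AnalyticAt ℂ f u) (j : ℕ) :
    AnalyticAt ℂ (iteratedDeriv j f) u := by
  induction j with
  | zero => simpa using h
  | succ j ih =>
    rw [iteratedDeriv_succ]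
    exact ih.deriv

private theorem cst_order_Psi {k : ℕ} (m : Fin (k + 1) → ℕ) {f : ℂ → ℂ} {u : ℂ}
    (h : ∀ j ≤ k, MeromorphicAt (iteratedDeriv j f) u) :
    meromorphicOrderAt (Psi m f) u =
      ∑ j : Fin (k + 1), (m j : WithTop ℤ) * meromorphicOrderAt (iteratedDeriv (j : ℕ) f) u := by
  have h1 : Psi m f = fun z => ∏ j : Fin (k + 1), iteratedDeriv (j : ℕ) f z ^ m j := rfl
  rw [h1, meromorphicOrderAt_fun_prod (f := fun (j : Fin (k + 1)) z =>
    iteratedDeriv (j : ℕ) f z ^ m j) fun j _ => (h j (Nat.lt_succ_iff.1 j.2)).fun_pow (m j)]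
  refine Finset.sum_congr rfl fun j _ => ?_
  exact meromorphicOrderAt_pow (h j (Nat.lt_succ_iff.1 j.2)) (n := m j)

/-- a nowhere locally zero meromorphic monomial of order zero comes from a function of order
zero -/
private theorem cst_ord_zero {k : ℕ} (m : Fin (k + 1) → ℕ) {f : ℂ → ℂ} {u : ℂ}
    (hf : MeromorphicNFAt f u) (hm : 1 ≤ m 0)
    (h : ∀ j ≤ k, MeromorphicAt (iteratedDeriv j f) u)
    (ht : ∀ j ≤ k, meromorphicOrderAt (iteratedDeriv j f) u ≠ ⊤)
    (h0 : meromorphicOrderAt (Psi m f) u = 0) : meromorphicOrderAt f u = 0 := by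
  rw [cst_order_Psi m h] at h0
  have hft : meromorphicOrderAt f u ≠ ⊤ := by simpa using ht 0 (Nat.zero_le k)
  obtain ⟨n, hn⟩ := WithTop.ne_top_iff_exists.1 hft
  rcases lt_trichotomy n 0 with hneg | hz | hpos
  · exfalso
    have h1 : ∀ j : Fin (k + 1), (m j : WithTop ℤ) *
        meromorphicOrderAt (iteratedDeriv (j : ℕ) f) u = (((m j : ℤ) * (n - (j : ℕ)) : ℤ) : WithTop ℤ) := by
      intro j
      rw [cst_ord_pole hneg hn.symm]
      push_cast
      rfl
    rw [Finset.sum_congr rfl fun j _ => h1 j] at h0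
    have h2 : (∑ j : Fin (k + 1), ((m j : ℤ) * (n - (j : ℕ)) : ℤ)) = 0 := by
      have h3 : (((∑ j : Fin (k + 1), ((m j : ℤ) * (n - (j : ℕ)) : ℤ)) : ℤ) : WithTop ℤ) = ((0 : ℤ) : WithTop ℤ) := by
        rw [WithTop.coe_sum]
        exact h0
      exact WithTop.coe_injective h3
    have h4 : ∑ j : Fin (k + 1), ((m j : ℤ) * (n - (j : ℕ)) : ℤ) < 0 := by
      refine Finset.sum_neg' (fun j _ => ?_) ⟨0, Finset.mem_univ _, ?_⟩
      · exact mul_nonpos_of_nonneg_of_nonpos (Int.natCast_nonneg _) (by omega)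
      · have : (1 : ℤ) ≤ (m 0 : ℤ) := by exact_mod_cast hm
        simp only [Fin.val_zero, Nat.cast_zero, sub_zero]
        nlinarith
    omega
  · rw [← hn, hz]
    rfl
  · exfalso
    have han : AnalyticAt ℂ f u := by
      refine hf.meromorphicOrderAt_nonneg_iff_analyticAt.1 ?_
      rw [← hn]
      exact_mod_cast hpos.le
    have h1 : ∀ j ≤ k, 0 ≤ meromorphicOrderAt (iteratedDeriv j f) u := fun j _ =>
      (cst_analytic_iter han j).meromorphicOrderAt_nonneg
    choose! p hp using fun j (hj : j ≤ k) => WithTop.ne_top_iff_exists.1 (ht j hj)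
    have hp0 : ∀ j ≤ k, 0 ≤ p j := by
      intro j hj
      have := h1 j hj
      rw [← hp j hj] at this
      exact_mod_cast this
    have h2 : ∀ j : Fin (k + 1), (m j : WithTop ℤ) *
        meromorphicOrderAt (iteratedDeriv (j : ℕ) f) u = (((m j : ℤ) * p j : ℤ) : WithTop ℤ) := by
      intro j
      rw [← hp j (Nat.lt_succ_iff.1 j.2)]
      push_cast
      rfl
    rw [Finset.sum_congr rfl fun j _ => h2 j] at h0
    have h3 : (∑ j : Fin (k + 1), ((m j : ℤ) * p j : ℤ)) = 0 := by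
      have h4 : (((∑ j : Fin (k + 1), ((m j : ℤ) * p j : ℤ)) : ℤ) : WithTop ℤ) = ((0 : ℤ) : WithTop ℤ) := by
        rw [WithTop.coe_sum]
        exact h0
      exact WithTop.coe_injective h4
    have h5 := (Finset.sum_eq_zero_iff_of_nonneg fun (j : Fin (k + 1)) _ =>
      mul_nonneg (Int.natCast_nonneg (m j)) (hp0 j (Nat.lt_succ_iff.1 j.2))).1 h3 0
      (Finset.mem_univ _)
    have h6 : p 0 = n := by
      have := hp 0 (Nat.zero_le k)
      rw [iteratedDeriv_zero, ← hn] at this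
      exact WithTop.coe_injective this
    have h7 : (1 : ℤ) ≤ (m 0 : ℤ) := by exact_mod_cast hm
    rw [show ((0 : Fin (k + 1)) : ℕ) = 0 from rfl, h6] at h5
    nlinarith

/-- the sum `S` vanishes when the divisor vanishes in the disc -/
private theorem cst_S_zero {D : ℂ → ℝ} (h : ∀ u : ℂ, ‖u‖ < 1 → D u = 0) {r : ℝ} (h0 : 0 < r)
    (hr : r < 1) : S D r = 0 := by
  unfold S
  have h1 : ∀ u : ℂ, D u * log⁺ (r / ‖u‖) = 0 := by
    intro u
    by_cases hu : ‖u‖ < 1
    · rw [h u hu, zero_mul]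
    · have h2 : log⁺ (r / ‖u‖) = 0 := by
        rw [Real.posLog_eq_zero_iff, abs_of_nonneg (div_nonneg h0.le (norm_nonneg u))]
        exact div_le_one_of_le₀ (by linarith) (norm_nonneg u)
      rw [h2, mul_zero]
  simp only [h1]
  exact finsum_zero

theorem cst_case {k : ℕ} (m : Fin (k + 1) → ℕ) {f : ℂ → ℂ} (hf : MeromorphicNFOn f (ball 0 1))
    (hs : Slow f) (hm : 1 ≤ m 0) (h : ∀ j ≤ k, Mer (iteratedDeriv j f))
    (hd : ¬ Mer (deriv (Psi m f))) {ε : ℝ} (hε : 0 < ε) : ∀ᶠ r in 𝓝[<] (1 : ℝ),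
      (deg m : ℝ) * T f r ≤ ((wgt m : ℝ) + ε) * L r := by
  have hP : Mer (Psi m f) := (Slow.Psi m hs h).1
  have hdm : MeromorphicOn (deriv (Psi m f)) (ball 0 1) := fun z hz => (hP.1 z hz).deriv
  have hex : ∃ z ∈ ball (0 : ℂ) 1, meromorphicOrderAt (deriv (Psi m f)) z = ⊤ := by
    by_contra hcon
    push Not at hcon
    exact hd ⟨hdm, hcon⟩
  obtain ⟨z0, hz0, hz0t⟩ := hex
  have htop : ∀ u ∈ ball (0 : ℂ) 1, meromorphicOrderAt (deriv (Psi m f)) u = ⊤ := by
    intro u hu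
    by_contra hcon
    exact hdm.meromorphicOrderAt_ne_top_of_isPreconnected (convex_ball (0 : ℂ) 1).isPreconnected
      hu hz0 hcon hz0t
  have hP0 : ∀ u ∈ ball (0 : ℂ) 1, meromorphicOrderAt (Psi m f) u = 0 := by
    intro u hu
    obtain ⟨q, hq⟩ := WithTop.ne_top_iff_exists.1 (hP.2 u hu)
    by_cases hq0 : q = 0
    · rw [← hq, hq0]
      rfl
    · exfalso
      have h1 : (q : ℂ) ≠ 0 := by exact_mod_cast hq0
      have h2 := meromorphicOrderAt_deriv_eq_sub_one h1 hq.symm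
      rw [htop u hu] at h2
      exact WithTop.coe_ne_top h2.symm
  have hf0 : ∀ u ∈ ball (0 : ℂ) 1, meromorphicOrderAt f u = 0 := fun u hu =>
    cst_ord_zero m (hf hu) hm (fun j hj => (h j hj).1 u hu) (fun j hj => (h j hj).2 u hu)
      (hP0 u hu)
  have hod : ∀ u : ℂ, ‖u‖ < 1 → od f u = 0 := by
    intro u hu
    unfold od
    rw [hf0 u (by simpa using hu)]
    rfl
  have hod0 : od f 0 = 0 := hod 0 (by simp)
  have han : ∀ u ∈ ball (0 : ℂ) 1, AnalyticAt ℂ f u := fun u hu =>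
    (hf hu).meromorphicOrderAt_nonneg_iff_analyticAt.1 (hf0 u hu).ge
  have hPan : ∀ u ∈ ball (0 : ℂ) 1, AnalyticAt ℂ (Psi m f) u := by
    intro u hu
    have h1 : Psi m f = fun z => ∏ j : Fin (k + 1), iteratedDeriv (j : ℕ) f z ^ m j := rfl
    rw [h1]
    exact Finset.analyticAt_fun_prod _ fun j _ => (cst_analytic_iter (han u hu) j).fun_pow (m j)
  have hder : ∀ u ∈ ball (0 : ℂ) 1, deriv (Psi m f) u = 0 := by
    intro u hu
    have h1 := meromorphicOrderAt_eq_top_iff.1 (htop u hu)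
    have h2 : ContinuousAt (deriv (Psi m f)) u := (hPan u hu).deriv.continuousAt
    have h3 : Tendsto (deriv (Psi m f)) (𝓝[≠] u) (𝓝 (deriv (Psi m f) u)) :=
      h2.tendsto.mono_left nhdsWithin_le_nhds
    have h4 : Tendsto (deriv (Psi m f)) (𝓝[≠] u) (𝓝 0) :=
      (tendsto_congr' h1).2 tendsto_const_nhds
    exact tendsto_nhds_unique h3 h4
  have hconst : ∀ u ∈ ball (0 : ℂ) 1, Psi m f u = Psi m f 0 := by
    intro u hu
    refine (isOpen_ball (x := (0 : ℂ)) (ε := 1)).is_const_of_deriv_eq_zero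
      (convex_ball (0 : ℂ) 1).isPreconnected
      (fun z hz => (hPan z hz).differentiableAt.differentiableWithinAt)
      (fun z hz => hder z hz) hu (mem_ball_self one_pos)
  obtain ⟨c, hc⟩ := jensen hs.1
  set C1 : ℝ := log⁺ ‖(Psi m f 0)⁻¹‖ + (deg m : ℝ) * c with hC1
  have hL : ∀ᶠ r in 𝓝[<] (1 : ℝ), 2 * C1 / ε ≤ L r := L_tendsto.eventually_ge_atTop _
  have hpos : ∀ᶠ r in 𝓝[<] (1 : ℝ), 0 < r ∧ r < 1 := by
    have h1 : Set.Ioo (0 : ℝ) 1 ∈ 𝓝[<] (1 : ℝ) := Ioo_mem_nhdsLT one_pos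
    exact h1
  filter_upwards [hL, hpos, prx m hs h (half_pos hε)] with r hLr hr hprx
  obtain ⟨h0, h1⟩ := hr
  -- the proximity function of the constant
  have hpP : prox (fun z => (Psi m f z)⁻¹) r = log⁺ ‖(Psi m f 0)⁻¹‖ := by
    unfold prox
    refine circleAverage_const_on_circle fun z hz => ?_
    have hz' : z ∈ ball (0 : ℂ) 1 := by
      rw [mem_sphere, dist_zero_right, abs_of_pos h0] at hz
      rw [mem_ball, dist_zero_right, hz]
      exact h1
    simp only [hconst z hz']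
  have hcnt : cnt f r = 0 := by
    unfold cnt
    rw [cst_S_zero (fun u hu => by rw [hod u hu]; simp) h0 h1, hod0]
    simp
  have hav : circleAverage (fun z => Real.log ‖f z‖) 0 r = c := by
    rw [hc r h0 h1, cst_S_zero (fun u hu => by rw [hod u hu]; simp) h0 h1, hod0]
    simp
  have hfi : Mer (fun z => (f z)⁻¹) := hs.1.inv
  have hsub : prox f r - prox (fun z => (f z)⁻¹) r = c := by
    rw [← hav]
    unfold prox
    rw [← circleAverage_fun_sub (ci_pos hs.1.1 h0 h1) (ci_pos hfi.1 h0 h1)]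
    congr 1
    funext z
    rw [norm_inv, Real.posLog_sub_posLog_inv]
  have hT : T f r = prox (fun z => (f z)⁻¹) r + c := by
    unfold T
    rw [hcnt]
    linarith
  rw [hT, mul_add]
  have hLe : C1 ≤ ε / 2 * L r := by
    rw [div_le_iff₀ hε] at hLr
    linarith
  rw [hpP] at hprx
  rw [hC1] at hLe
  have h2 : ((wgt m : ℝ) + ε) * L r = ((wgt m : ℝ) + ε / 2) * L r + ε / 2 * L r := by ring
  rw [h2]
  linarith

end Pool.Agent.MP4b24a5
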