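import Mathlib
import Pool.Agent.Lib.MP_4b24a5_an.Defs
import Pool.Agent.Lib.MP_4b24a5_an.Jen

set_option autoImplicit false

noncomputable section

namespace Pool.Agent.MP4b24a5

open Complex Metric Real MeasureTheory Filter Topology

private theorem poly_bdd (j : ℕ) : ∀ h : ℂ → ℂ, (∀ z ∈ ball (0 : ℂ) 1, AnalyticAt ℂ h z) →
    (∀ z ∈ ball (0 : ℂ) 1, deriv^[j] h z = 0) → ∃ M : ℝ, ∀ z ∈ ball (0 : ℂ) 1, ‖h z‖ ≤ M := by
  induction j with
  | zero =>
    intro h _ h0
    refine ⟨0, fun z hz => ?_⟩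
    have h1 := h0 z hz
    simp only [Function.iterate_zero, id] at h1
    rw [h1, norm_zero]
  | succ j ih =>
    intro h ha h0
    obtain ⟨M, hM⟩ := ih (deriv h) (fun z hz => (ha z hz).deriv) (fun z hz => by
      have h1 := h0 z hz
      rwa [Function.iterate_succ, Function.comp_apply] at h1)
    have hmem : (0 : ℂ) ∈ ball (0 : ℂ) 1 := mem_ball_self one_pos
    have hM0 : 0 ≤ M := (norm_nonneg _).trans (hM 0 hmem)
    refine ⟨‖h 0‖ + M, fun z hz => ?_⟩
    have h1 : ‖h z - h 0‖ ≤ M * ‖z - 0‖ :=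
      Convex.norm_image_sub_le_of_norm_deriv_le
        (fun x hx => (ha x hx).differentiableAt) hM (convex_ball 0 1) hmem hz
    have h2 : ‖z - 0‖ ≤ 1 := by
      rw [sub_zero]
      exact (mem_ball_zero_iff.mp hz).le
    have h3 : ‖h z‖ ≤ ‖h 0‖ + ‖h z - h 0‖ := by
      have h4 : h z = h 0 + (h z - h 0) := by ring
      calc ‖h z‖ = ‖h 0 + (h z - h 0)‖ := by rw [← h4]
        _ ≤ _ := norm_add_le _ _
    have h5 : M * ‖z - 0‖ ≤ M * 1 := mul_le_mul_of_nonneg_left h2 hM0
    linarith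

private theorem poly_ord {f : ℂ → ℂ} {z : ℂ} {n : ℤ} (hn : n < 0)
    (h : meromorphicOrderAt f z = n) (i : ℕ) :
    meromorphicOrderAt (deriv^[i] f) z = ((n - i : ℤ) : WithTop ℤ) := by
  induction i with
  | zero => simpa using h
  | succ i ih =>
    rw [Function.iterate_succ', Function.comp_apply]
    have h1 : ((n - i : ℤ) : ℂ) ≠ 0 := by
      have h2 : n - (i : ℤ) ≠ 0 := by omega
      exact_mod_cast h2
    rw [meromorphicOrderAt_deriv_eq_sub_one h1 ih]
    congr 1
    push_cast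
    ring

theorem poly_case {f : ℂ → ℂ} (hf : MeromorphicNFOn f (ball 0 1)) {j : ℕ}
    (h : ¬ Mer (iteratedDeriv j f)) : ∃ C : ℝ, ∀ r : ℝ, 0 < r → r < 1 → T f r ≤ C := by
  have hfm : MeromorphicOn f (ball 0 1) := hf.meromorphicOn
  have hg : MeromorphicOn (deriv^[j] f) (ball 0 1) := hfm.iterated_deriv
  rw [iteratedDeriv_eq_iterate] at h
  have h1 : ∃ z ∈ ball (0 : ℂ) 1, meromorphicOrderAt (deriv^[j] f) z = ⊤ := by
    by_contra h2
    push Not at h2
    exact h ⟨hg, h2⟩
  obtain ⟨z1, hz1, htop1⟩ := h1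
  have htop : ∀ z ∈ ball (0 : ℂ) 1, meromorphicOrderAt (deriv^[j] f) z = ⊤ := by
    intro z hz
    by_contra h2
    exact hg.meromorphicOrderAt_ne_top_of_isPreconnected
      (convex_ball (0 : ℂ) 1).isPreconnected hz hz1 h2 htop1
  have hord : ∀ z ∈ ball (0 : ℂ) 1, 0 ≤ meromorphicOrderAt f z := by
    intro z hz
    by_contra h2
    rw [not_le] at h2
    have h3 : meromorphicOrderAt f z ≠ ⊤ := ne_top_of_lt h2
    obtain ⟨n, hn⟩ := WithTop.ne_top_iff_exists.mp h3
    rw [← hn] at h2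
    have h4 : n < 0 := by exact_mod_cast h2
    have h5 := poly_ord h4 hn.symm j
    rw [htop z hz] at h5
    exact WithTop.top_ne_coe h5
  have hana : ∀ z ∈ ball (0 : ℂ) 1, AnalyticAt ℂ f z := fun z hz =>
    (hf hz).meromorphicOrderAt_nonneg_iff_analyticAt.mp (hord z hz)
  have hana' : ∀ i : ℕ, ∀ z ∈ ball (0 : ℂ) 1, AnalyticAt ℂ (deriv^[i] f) z := by
    intro i
    induction i with
    | zero => exact hana
    | succ i ih =>
      intro z hz
      rw [Function.iterate_succ', Function.comp_apply]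
      exact (ih z hz).deriv
  have hzero : ∀ z ∈ ball (0 : ℂ) 1, deriv^[j] f z = 0 := by
    intro z hz
    have h2 := htop z hz
    rw [(hana' j z hz).meromorphicOrderAt_eq] at h2
    have h3 : analyticOrderAt (deriv^[j] f) z = ⊤ := by
      simpa using h2
    exact (analyticOrderAt_eq_top.mp h3).self_of_nhds
  obtain ⟨M, hM⟩ := poly_bdd j f hana hzero
  refine ⟨log⁺ M, fun r h0 h1 => ?_⟩
  have hprox : prox f r ≤ log⁺ M := by
    unfold prox
    refine circleAverage_mono_on_of_le_circle ?_ ?_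
    · refine MeromorphicOn.circleIntegrable_posLog_norm fun z hz => hfm z ?_
      rw [abs_of_pos h0, mem_sphere_zero_iff_norm] at hz
      rw [mem_ball_zero_iff, hz]
      exact h1
    · intro z hz
      rw [abs_of_pos h0, mem_sphere_zero_iff_norm] at hz
      refine Real.posLog_le_posLog (norm_nonneg _) (hM z ?_)
      rw [mem_ball_zero_iff, hz]
      exact h1
  have hod : ∀ u ∈ ball (0 : ℂ) 1, max (-od f u) 0 = 0 := by
    intro u hu
    have h2 : 0 ≤ od f u := by
      unfold od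
      rw [WithTop.untop₀_nonneg]
      exact hord u hu
    omega
  have hcnt : cnt f r = 0 := by
    unfold cnt S
    rw [hod 0 (mem_ball_self one_pos)]
    have h2 : ∀ u : ℂ, ((max (-od f u) 0 : ℤ) : ℝ) * log⁺ (r / ‖u‖) = 0 := by
      intro u
      by_cases hu : u ∈ ball (0 : ℂ) 1
      · rw [hod u hu]
        simp
      · rw [mem_ball_zero_iff, not_lt] at hu
        have h3 : log⁺ (r / ‖u‖) = 0 := by
          rw [Real.posLog_eq_zero_iff, abs_of_nonneg (by positivity)]
          exact (div_le_one (by linarith)).mpr (by linarith)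
        rw [h3, mul_zero]
    simp only [h2, finsum_zero]
    simp
  unfold T
  rw [hcnt, add_zero]
  exact hprox

end Pool.Agent.MP4b24a5
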