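import Mathlib
import Pool.Agent.Lib.MP_4b24a5_an.Defs
import Pool.Agent.Lib.MP_4b24a5_an.Tc

set_option autoImplicit false

noncomputable section

namespace Pool.Agent.MP4b24a5

open Complex Metric Real MeasureTheory Filter Topology

namespace Ord

/-- the order is the integer `o` -/
theorem od_of_eq {f : ℂ → ℂ} {u : ℂ} {o : ℤ} (h : meromorphicOrderAt f u = (o : WithTop ℤ)) :
    od f u = o := by
  unfold od
  rw [h, WithTop.untop₀_coe]

theorem eq_od {f : ℂ → ℂ} {u : ℂ} (h : meromorphicOrderAt f u ≠ ⊤) :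
    meromorphicOrderAt f u = ((od f u : ℤ) : WithTop ℤ) := by
  unfold od
  rw [WithTop.coe_untop₀_of_ne_top h]

/-- the order of a constant multiple of an integer in `WithTop ℤ` -/
theorem nat_mul_coe (n : ℕ) (o : ℤ) : (n : WithTop ℤ) * (o : WithTop ℤ) =
    (((n : ℤ) * o : ℤ) : WithTop ℤ) := by
  rw [WithTop.coe_mul]
  rfl

theorem order_Psi {k : ℕ} (m : Fin (k + 1) → ℕ) {f : ℂ → ℂ} {u : ℂ} (o : Fin (k + 1) → ℤ)
    (hM : ∀ j : Fin (k + 1), MeromorphicAt (iteratedDeriv (j : ℕ) f) u)
    (ho : ∀ j : Fin (k + 1), meromorphicOrderAt (iteratedDeriv (j : ℕ) f) u = (o j : WithTop ℤ)) :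
    MeromorphicAt (Psi m f) u ∧
      meromorphicOrderAt (Psi m f) u = ((∑ j : Fin (k + 1), (m j : ℤ) * o j : ℤ) : WithTop ℤ) := by
  have hpow : ∀ j : Fin (k + 1), MeromorphicAt (fun z => iteratedDeriv (j : ℕ) f z ^ m j) u :=
    fun j => (hM j).pow (m j)
  have hP : Psi m f = fun z => ∏ j : Fin (k + 1), iteratedDeriv (j : ℕ) f z ^ m j := rfl
  constructor
  · rw [hP]
    exact MeromorphicAt.fun_prod (fun j _ => hpow j)
  · rw [hP, meromorphicOrderAt_fun_prod (fun j _ => hpow j)]
    have : ∀ j ∈ (Finset.univ : Finset (Fin (k + 1))),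
        meromorphicOrderAt (fun z => iteratedDeriv (j : ℕ) f z ^ m j) u =
          (((m j : ℤ) * o j : ℤ) : WithTop ℤ) := by
      intro j _
      have h1 := meromorphicOrderAt_pow (hM j) (n := m j)
      rw [ho j, nat_mul_coe] at h1
      exact h1
    rw [Finset.sum_congr rfl this]
    push_cast
    rfl

end Ord

theorem ord_H {k : ℕ} (m : Fin (k + 1) → ℕ) {f : ℂ → ℂ} (hf : MeromorphicNFOn f (ball 0 1))
    (hm : 1 ≤ m 0) (h : ∀ j ≤ k, Mer (iteratedDeriv j f)) (hd : Mer (deriv (Psi m f)))
    {w : ℂ} (hw : w ≠ 0) :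
    Mer (fun z => Psi m f z - w) ∧ Mer (logDeriv (fun z => Psi m f z - w)) ∧
    ∀ u ∈ ball (0 : ℂ) 1, ((m 0 : ℤ) - 1) * max (od f u) 0 - (if od f u < 0 then 1 else 0) -
      (if Psi m f u = w then 1 else 0) ≤ od (logDeriv (fun z => Psi m f z - w)) u := by
  have hM : ∀ u ∈ ball (0 : ℂ) 1, ∀ j : Fin (k + 1),
      MeromorphicAt (iteratedDeriv (j : ℕ) f) u := fun u hu j =>
    (h j (Nat.lt_succ_iff.1 j.2)).1 u hu
  have ho : ∀ u ∈ ball (0 : ℂ) 1, ∀ j : Fin (k + 1),
      meromorphicOrderAt (iteratedDeriv (j : ℕ) f) u =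
        ((od (iteratedDeriv (j : ℕ) f) u : ℤ) : WithTop ℤ) := fun u hu j =>
    Ord.eq_od ((h j (Nat.lt_succ_iff.1 j.2)).2 u hu)
  have hPsi : ∀ u ∈ ball (0 : ℂ) 1, MeromorphicAt (Psi m f) u ∧
      meromorphicOrderAt (Psi m f) u =
        ((∑ j : Fin (k + 1), (m j : ℤ) * od (iteratedDeriv (j : ℕ) f) u : ℤ) : WithTop ℤ) :=
    fun u hu => Ord.order_Psi m (fun j => od (iteratedDeriv (j : ℕ) f) u) (hM u hu) (ho u hu)
  have hGM : ∀ u ∈ ball (0 : ℂ) 1, MeromorphicAt (fun z => Psi m f z - w) u := fun u hu =>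
    (hPsi u hu).1.fun_sub (MeromorphicAt.const w u)
  have hGtop : ∀ u ∈ ball (0 : ℂ) 1, meromorphicOrderAt (fun z => Psi m f z - w) u ≠ ⊤ := by
    intro u hu htop
    rw [meromorphicOrderAt_eq_top_iff] at htop
    have h1 : Psi m f =ᶠ[𝓝[≠] u] fun _ => w := by
      filter_upwards [htop] with z hz
      exact sub_eq_zero.1 hz
    have h2 := h1.nhdsNE_deriv
    apply hd.2 u hu
    rw [meromorphicOrderAt_eq_top_iff]
    filter_upwards [h2] with z hz
    rw [hz, deriv_const]
  have hderiv : deriv (fun z => Psi m f z - w) = deriv (Psi m f) := by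
    funext z
    rw [deriv_sub_const]
  have hlog : logDeriv (fun z => Psi m f z - w) =
      deriv (Psi m f) / (fun z => Psi m f z - w) := by
    rw [logDeriv, hderiv]
  have hLM : ∀ u ∈ ball (0 : ℂ) 1, MeromorphicAt (logDeriv (fun z => Psi m f z - w)) u := by
    intro u hu
    rw [hlog]
    exact (hd.1 u hu).div (hGM u hu)
  have hLo : ∀ u ∈ ball (0 : ℂ) 1, meromorphicOrderAt (logDeriv (fun z => Psi m f z - w)) u =
      ((od (deriv (Psi m f)) u - od (fun z => Psi m f z - w) u : ℤ) : WithTop ℤ) := by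
    intro u hu
    rw [hlog, meromorphicOrderAt_div (hd.1 u hu) (hGM u hu), Ord.eq_od (hd.2 u hu),
      Ord.eq_od (hGtop u hu)]
    rfl
  refine ⟨⟨hGM, hGtop⟩, ⟨hLM, fun u hu => ?_⟩, fun u hu => ?_⟩
  · rw [hLo u hu]
    exact WithTop.coe_ne_top
  · -- the order at `u`
    have hlog0 : logDeriv (fun z => Psi m f z - w) = logDeriv (fun z => Psi m f z - w) := rfl
    have hfo : meromorphicOrderAt f u = ((od f u : ℤ) : WithTop ℤ) := by
      have := ho u hu 0
      simpa using this
    have hconst : meromorphicOrderAt (fun _ : ℂ => -w) u = 0 := by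
      classical
      rw [meromorphicOrderAt_const, if_neg (neg_ne_zero.2 hw)]
    have hGadd : (fun z => Psi m f z - w) = Psi m f + fun _ => -w := by
      funext z
      simp [sub_eq_add_neg]
    have hite1 : (0 : ℤ) ≤ (if Psi m f u = w then 1 else 0) := by split_ifs <;> norm_num
    rcases lt_trichotomy (od f u) 0 with hneg | hzero | hpos
    · -- pole
      have hj : ∀ j : ℕ, meromorphicOrderAt (iteratedDeriv j f) u =
          ((od f u - j : ℤ) : WithTop ℤ) := by
        intro j
        induction j with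
        | zero => simpa using hfo
        | succ n ih =>
          rw [iteratedDeriv_succ]
          have hne : ((od f u - n : ℤ) : ℂ) ≠ 0 := by
            rw [Int.cast_ne_zero]
            omega
          rw [meromorphicOrderAt_deriv_eq_sub_one hne ih]
          congr 1
          push_cast
          ring
      have hPo := (Ord.order_Psi m (fun j : Fin (k + 1) => od f u - ((j : ℕ) : ℤ)) (hM u hu)
        (fun j => hj j)).2
      have hneg' : (∑ j : Fin (k + 1), (m j : ℤ) * (od f u - ((j : ℕ) : ℤ)) : ℤ) < 0 := by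
        rw [Fin.sum_univ_succ]
        have h1 : (m 0 : ℤ) * (od f u - ((0 : Fin (k + 1)) : ℕ)) < 0 := by
          have : (1 : ℤ) ≤ m 0 := by exact_mod_cast hm
          simp only [Fin.val_zero, Nat.cast_zero, sub_zero]
          nlinarith
        have h2 : ∑ j : Fin k, (m j.succ : ℤ) * (od f u - ((j.succ : Fin (k + 1)) : ℕ)) ≤ 0 := by
          refine Finset.sum_nonpos fun j _ => ?_
          refine mul_nonpos_of_nonneg_of_nonpos (Int.natCast_nonneg _) ?_
          have : (0 : ℤ) ≤ (((j.succ : Fin (k + 1)) : ℕ) : ℤ) := Int.natCast_nonneg _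
          omega
        omega
      have hGo : meromorphicOrderAt (fun z => Psi m f z - w) u =
          ((∑ j : Fin (k + 1), (m j : ℤ) * (od f u - ((j : ℕ) : ℤ)) : ℤ) : WithTop ℤ) := by
        rw [hGadd, meromorphicOrderAt_add_eq_left_of_lt (MeromorphicAt.const (-w) u), hPo]
        rw [hPo, hconst]
        exact_mod_cast hneg'
      have hH := meromorphicOrderAt_logDeriv_eq_neg_one (hGM u hu)
        (by rw [hGo]; exact_mod_cast hneg'.ne) (hGtop u hu)
      have hH' : od (logDeriv (fun z => Psi m f z - w)) u = -1 :=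
        Ord.od_of_eq (by rw [hH]; rfl)
      rw [hH', max_eq_right hneg.le, if_pos hneg]
      omega
    · -- neither zero nor pole
      have hfan : AnalyticAt ℂ f u := by
        rw [← (hf hu).meromorphicOrderAt_nonneg_iff_analyticAt, hfo, hzero]
        exact le_rfl
      have hPan : AnalyticAt ℂ (Psi m f) u := by
        have hP : Psi m f = fun z => ∏ j : Fin (k + 1), iteratedDeriv (j : ℕ) f z ^ m j := rfl
        rw [hP]
        refine Finset.analyticAt_fun_prod _ fun j _ => ?_
        have h1 : AnalyticAt ℂ (iteratedDeriv (j : ℕ) f) u := by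
          rw [iteratedDeriv_eq_iterate]
          exact hfan.iterated_deriv _
        exact h1.pow _
      have hGan : AnalyticAt ℂ (fun z => Psi m f z - w) u := hPan.sub analyticAt_const
      have hiff := hGan.meromorphicNFAt.meromorphicOrderAt_eq_zero_iff
      rw [hzero, max_self, mul_zero, if_neg (lt_irrefl 0)]
      by_cases hPw : Psi m f u = w
      · have hne : meromorphicOrderAt (fun z => Psi m f z - w) u ≠ 0 := by
          intro h0
          exact hiff.1 h0 (sub_eq_zero.2 hPw)
        have hH := meromorphicOrderAt_logDeriv_eq_neg_one (hGM u hu) hne (hGtop u hu)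
        have hH' : od (logDeriv (fun z => Psi m f z - w)) u = -1 :=
          Ord.od_of_eq (by rw [hH]; rfl)
        rw [hH', if_pos hPw]
        norm_num
      · have h0 : meromorphicOrderAt (fun z => Psi m f z - w) u = 0 :=
          hiff.2 (sub_ne_zero.2 hPw)
        have hH := meromorphicOrderAt_logDeriv_nonneg (hGM u hu) h0
        have hH' : 0 ≤ od (logDeriv (fun z => Psi m f z - w)) u := by
          unfold od
          rw [WithTop.untop₀_nonneg]
          exact hH
        rw [if_neg hPw]
        omega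
    · -- zero
      have hfan : AnalyticAt ℂ f u := by
        rw [← (hf hu).meromorphicOrderAt_nonneg_iff_analyticAt, hfo]
        exact_mod_cast hpos.le
      have hoj : ∀ j : Fin (k + 1), 0 ≤ od (iteratedDeriv (j : ℕ) f) u := by
        intro j
        have h1 : AnalyticAt ℂ (iteratedDeriv (j : ℕ) f) u := by
          rw [iteratedDeriv_eq_iterate]
          exact hfan.iterated_deriv _
        unfold od
        rw [WithTop.untop₀_nonneg]
        exact h1.meromorphicOrderAt_nonneg
      set q : ℤ := ∑ j : Fin (k + 1), (m j : ℤ) * od (iteratedDeriv (j : ℕ) f) u with hq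
      have hq1 : (m 0 : ℤ) * od f u ≤ q := by
        rw [hq, Fin.sum_univ_succ]
        have h2 : 0 ≤ ∑ j : Fin k, (m j.succ : ℤ) *
            od (iteratedDeriv ((j.succ : Fin (k + 1)) : ℕ) f) u :=
          Finset.sum_nonneg fun j _ => mul_nonneg (Int.natCast_nonneg _) (hoj _)
        have h3 : od (iteratedDeriv ((0 : Fin (k + 1)) : ℕ) f) u = od f u := by simp
        rw [h3]
        omega
      have hm' : (1 : ℤ) ≤ m 0 := by exact_mod_cast hm
      have hq0 : 0 < q := by nlinarith
      have hPo : meromorphicOrderAt (Psi m f) u = (q : WithTop ℤ) := (hPsi u hu).2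
      have hGo : meromorphicOrderAt (fun z => Psi m f z - w) u = 0 := by
        rw [hGadd, meromorphicOrderAt_add_eq_right_of_lt (hPsi u hu).1, hconst]
        rw [hPo, hconst]
        exact_mod_cast hq0
      have hdo : meromorphicOrderAt (deriv (Psi m f)) u = ((q - 1 : ℤ) : WithTop ℤ) := by
        refine meromorphicOrderAt_deriv_eq_sub_one ?_ hPo
        rw [Int.cast_ne_zero]
        omega
      have hH : od (logDeriv (fun z => Psi m f z - w)) u = q - 1 := by
        refine Ord.od_of_eq ?_
        rw [hLo u hu, Ord.od_of_eq hdo, Ord.od_of_eq (o := 0) (by rw [hGo]; rfl), sub_zero]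
      rw [hH, max_eq_left hpos.le, if_neg (not_lt.2 hpos.le)]
      have : ((m 0 : ℤ) - 1) * od f u = (m 0 : ℤ) * od f u - od f u := by ring
      omega

end Pool.Agent.MP4b24a5
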