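import Mathlib
import Pool.Agent.Lib.MP_4b24a5_an.Defs
import Pool.Agent.Lib.MP_4b24a5_an.Td
import Pool.Agent.Lib.MP_4b24a5_an.Ord

set_option autoImplicit false

noncomputable section

namespace Pool.Agent.MP4b24a5

open Complex Metric Real MeasureTheory Filter Topology

/-- finitely many bad points on a circle -/
private theorem finite_bad {f : ℂ → ℂ} (hf : Mer f) {r : ℝ} (hr : r < 1) :
    {z : ℂ | ‖z‖ = r ∧ ¬ (AnalyticAt ℂ f z ∧ f z ≠ 0)}.Finite := by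
  by_contra hcon
  have hinf : {z : ℂ | ‖z‖ = r ∧ ¬ (AnalyticAt ℂ f z ∧ f z ≠ 0)}.Infinite := hcon
  obtain ⟨x, hxK, hx⟩ := hinf.exists_accPt_of_subset_isCompact (isCompact_sphere (0 : ℂ) r)
    (fun z hz => by rw [mem_sphere_zero_iff_norm]; exact hz.1)
  rw [mem_sphere_zero_iff_norm] at hxK
  have hxb : x ∈ ball (0 : ℂ) 1 := by rw [mem_ball_zero_iff, hxK]; exact hr
  have h1 : ∀ᶠ z in 𝓝[≠] x, AnalyticAt ℂ f z := (hf.1 x hxb).eventually_analyticAt
  have h2 : ∀ᶠ z in 𝓝[≠] x, f z ≠ 0 := by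
    rcases (hf.1 x hxb).eventually_eq_zero_or_eventually_ne_zero with h | h
    · exact absurd (meromorphicOrderAt_eq_top_iff.mpr h) (hf.2 x hxb)
    · exact h
  rw [accPt_iff_frequently] at hx
  have h3 := h1.and h2
  rw [eventually_nhdsWithin_iff] at h3
  obtain ⟨z, ⟨hz1, hz2⟩, hz3⟩ := (hx.and_eventually h3).exists
  exact hz2.2 (hz3 hz1)

private theorem lf_Zf {f : ℂ → ℂ} (hf : Mer f) : LF (Zf f) := by
  have h : Zf f = fun u => (fun x : ℝ => max x 0) ((od f u : ℝ)) := by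
    funext u
    simp [Zf]
  rw [h]
  exact LF.comp (lf_od hf) (g := fun x : ℝ => max x 0) (by simp)

private theorem lf_Pf {f : ℂ → ℂ} (hf : Mer f) : LF (Pf f) := by
  have h : Pf f = fun u => (fun x : ℝ => if x < 0 then (1 : ℝ) else 0) ((od f u : ℝ)) := by
    funext u
    simp only [Pf, Int.cast_lt_zero]
  rw [h]
  exact LF.comp (lf_od hf) (g := fun x : ℝ => if x < 0 then (1 : ℝ) else 0) (by simp)

private theorem pointwise {a b c w : ℂ} (hb : b ≠ 0) (hw : w ≠ 0) (hbw : b - w ≠ 0)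
    (hc : c = a / (b - w)) (hc0 : c ≠ 0) :
    Real.log ‖c‖ + log⁺ ‖b⁻¹‖ ≤ log⁺ (‖c‖ + ‖a / b‖) + log⁺ ‖w⁻¹‖ := by
  have h1 : c * (w / b) = c - a / b := by
    rw [hc]
    field_simp
    ring
  have hcpos : 0 < ‖c‖ := norm_pos_iff.mpr hc0
  have h2 : ‖c‖ * ‖w / b‖ ≤ ‖c‖ + ‖a / b‖ := by
    rw [← norm_mul, h1]
    exact norm_sub_le _ _
  have h3 : log⁺ ‖b⁻¹‖ ≤ log⁺ ‖w⁻¹‖ + log⁺ ‖w / b‖ := by
    have h4 : ‖b⁻¹‖ = ‖w⁻¹‖ * ‖w / b‖ := by
      rw [← norm_mul]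
      congr 1
      field_simp
    rw [h4]
    exact posLog_mul
  have h5 : Real.log ‖c‖ + log⁺ ‖w / b‖ ≤ log⁺ (‖c‖ + ‖a / b‖) := by
    rcases le_total ‖w / b‖ 1 with h6 | h6
    · have h7 : log⁺ ‖w / b‖ = 0 := by
        rw [posLog_eq_zero_iff, abs_of_nonneg (norm_nonneg _)]
        exact h6
      rw [h7, add_zero]
      refine le_trans ?_ (le_max_right _ _)
      exact Real.log_le_log hcpos (le_add_of_nonneg_right (norm_nonneg _))
    · have h7 : log⁺ ‖w / b‖ = Real.log ‖w / b‖ := posLog_eq_log (by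
        rw [abs_of_nonneg (norm_nonneg _)]; exact h6)
      rw [h7, ← Real.log_mul hcpos.ne' (by linarith [h6] : ‖w / b‖ ≠ 0)]
      refine le_trans ?_ (le_max_right _ _)
      exact Real.log_le_log (mul_pos hcpos (by linarith)) h2
  linarith

theorem smt {k : ℕ} (m : Fin (k + 1) → ℕ) {f : ℂ → ℂ} (hf : MeromorphicNFOn f (ball 0 1))
    (hs : Slow f) (hm : 1 ≤ m 0) (h : ∀ j ≤ k, Mer (iteratedDeriv j f))
    (hd : Mer (deriv (Psi m f))) {w : ℂ} (hw : w ≠ 0) (hW : (Wset m f w).Finite) {ε : ℝ}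
    (hε : 0 < ε) : ∀ᶠ r in 𝓝[<] (1 : ℝ),
      prox (fun z => (Psi m f z)⁻¹) r + ((m 0 : ℝ) - 1) * S (Zf f) r ≤
        S (Pf f) r + (1 + ε) * L r := by
  classical
  obtain ⟨hG, hH, hord⟩ := ord_H m hf hm h hd hw
  have hsP : Slow (Psi m f) := Slow.Psi m hs h
  have hsG : Slow (fun z => Psi m f z - w) := hsP.sub_const w hG
  obtain ⟨c, hc⟩ := jensen hH
  -- the exceptional points
  have hfin : {u : ℂ | ‖u‖ < 1 ∧ Psi m f u = w}.Finite := by
    refine hW.subset ?_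
    rintro u ⟨hu1, hu2⟩
    have hub : u ∈ ball (0 : ℂ) 1 := mem_ball_zero_iff.mpr hu1
    refine ⟨hub, ?_, hu2⟩
    have hfu : f u ≠ 0 := by
      intro h0
      apply hw
      rw [← hu2, Psi]
      refine Finset.prod_eq_zero (Finset.mem_univ 0) ?_
      rw [Fin.val_zero, iteratedDeriv_zero, h0]
      exact zero_pow (by omega)
    have h1 := (hf hub).meromorphicOrderAt_eq_zero_iff.mpr hfu
    exact (hf hub).meromorphicOrderAt_nonneg_iff_analyticAt.mp h1.ge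
  set Qf : ℂ → ℝ := fun u => if ‖u‖ < 1 ∧ Psi m f u = w then 1 else 0 with hQ
  have hQfin : {u : ℂ | ‖u‖ < 1 ∧ Qf u ≠ 0}.Finite := by
    refine hfin.subset ?_
    rintro u ⟨-, hu2⟩
    by_contra hcon
    exact hu2 (if_neg hcon)
  have hQlf : LF Qf := by
    intro r hr
    refine hQfin.subset ?_
    rintro u ⟨hu1, hu2⟩
    exact ⟨hu1.trans_lt hr, hu2⟩
  obtain ⟨C, hC⟩ := S_bdd hQfin
  have hZ := lf_Zf hs.1
  have hP := lf_Pf hs.1
  have hZ' : LF (fun u => ((m 0 : ℝ) - 1) * Zf f u) :=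
    LF.comp hZ (g := fun x : ℝ => ((m 0 : ℝ) - 1) * x) (by simp)
  have hP' : LF (fun u => (-1 : ℝ) * Pf f u) := LF.comp hP (g := fun x : ℝ => (-1) * x) (by simp)
  have hQ' : LF (fun u => (-1 : ℝ) * Qf u) := LF.comp hQlf (g := fun x : ℝ => (-1) * x) (by simp)
  have hS : ∀ r : ℝ, 0 < r → r < 1 →
      ((m 0 : ℝ) - 1) * S (Zf f) r - S (Pf f) r - S Qf r ≤
        S (fun u => (od (logDeriv (fun z => Psi m f z - w)) u : ℝ)) r := by
    intro r h0 h1
    have e1 : S (fun u => (((m 0 : ℝ) - 1) * Zf f u + (-1) * Pf f u) + (-1) * Qf u) r =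
        ((m 0 : ℝ) - 1) * S (Zf f) r - S (Pf f) r - S Qf r := by
      rw [S_add (hZ'.add hP') hQ' h0 h1, S_add hZ' hP' h0 h1, S_smul, S_smul, S_smul]
      ring
    rw [← e1]
    refine S_mono ((hZ'.add hP').add hQ') (lf_od hH) ?_ h0 h1
    intro u _ hu
    have h2 := hord u (mem_ball_zero_iff.mpr hu)
    have h3 : (((((m 0 : ℤ) - 1) * max (od f u) 0 - (if od f u < 0 then 1 else 0) -
      (if Psi m f u = w then 1 else 0) : ℤ)) : ℝ) ≤
        (od (logDeriv (fun z => Psi m f z - w)) u : ℝ) := by exact_mod_cast h2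
    have h4 : (((((m 0 : ℤ) - 1) * max (od f u) 0 - (if od f u < 0 then 1 else 0) -
      (if Psi m f u = w then 1 else 0) : ℤ)) : ℝ) =
      (((m 0 : ℝ) - 1) * Zf f u + (-1) * Pf f u) + (-1) * Qf u := by
      simp only [hQ, hu, true_and, Zf, Pf]
      push_cast
      ring
    rw [← h4]
    exact h3
  -- the estimate on circles
  have hld := ld hsG hsP (half_pos hε)
  set K0 : ℝ := C + log⁺ ‖w⁻¹‖ +
    |(od (logDeriv (fun z => Psi m f z - w)) 0 : ℝ)| * Real.log 2 + |c| with hK0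
  have hL : ∀ᶠ r in 𝓝[<] (1 : ℝ), K0 ≤ ε / 2 * L r := by
    have h1 := L_tendsto.eventually_ge_atTop (K0 / (ε / 2))
    filter_upwards [h1] with r hr
    rw [div_le_iff₀ (half_pos hε)] at hr
    linarith
  have hr2 : ∀ᶠ r in 𝓝[<] (1 : ℝ), 1 / 2 < r := by
    have : Set.Ioi (1 / 2 : ℝ) ∈ 𝓝 (1 : ℝ) := Ioi_mem_nhds (by norm_num)
    exact nhdsWithin_le_nhds this
  filter_upwards [hld, hL, hr2, self_mem_nhdsWithin] with r hldr hLr hr2 hr1
  have hr1' : r < 1 := hr1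
  have hr0 : 0 < r := by linarith
  obtain ⟨hci, hav⟩ := hldr
  have hinv : Mer (fun z => (Psi m f z)⁻¹) := hsP.1.inv
  have hci1 := ci_log hH hr0 hr1'
  have hci2 := ci_pos hinv.1 hr0 hr1'
  have hcc : CircleIntegrable (fun _ : ℂ => log⁺ ‖w⁻¹‖) 0 r := circleIntegrable_const _ _ _
  set E : Set ℂ := {z : ℂ | ‖z‖ = r ∧ ¬ (AnalyticAt ℂ (Psi m f) z ∧ Psi m f z ≠ 0)} ∪
    ({z : ℂ | ‖z‖ = r ∧ ¬ (AnalyticAt ℂ (fun z => Psi m f z - w) z ∧ Psi m f z - w ≠ 0)} ∪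
    {z : ℂ | ‖z‖ = r ∧ ¬ (AnalyticAt ℂ (logDeriv (fun z => Psi m f z - w)) z ∧
      logDeriv (fun z => Psi m f z - w) z ≠ 0)}) with hE
  have hEfin : E.Finite := (finite_bad hsP.1 hr1').union
    ((finite_bad hG hr1').union (finite_bad hH hr1'))
  have hmain := circleAverage_le (g := fun z => Real.log ‖logDeriv (fun z => Psi m f z - w) z‖ +
      log⁺ ‖(Psi m f z)⁻¹‖)
    (h := fun z => log⁺ (‖logDeriv (fun z => Psi m f z - w) z‖ + ‖logDeriv (Psi m f) z‖) +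
      log⁺ ‖w⁻¹‖) hr0 (hci1.add hci2) (hci.add hcc) hEfin (by
      intro z hz hzE
      have hz1 : AnalyticAt ℂ (Psi m f) z ∧ Psi m f z ≠ 0 := by
        by_contra hcon
        exact hzE (Or.inl ⟨hz, hcon⟩)
      have hz2 : AnalyticAt ℂ (fun z => Psi m f z - w) z ∧ Psi m f z - w ≠ 0 := by
        by_contra hcon
        exact hzE (Or.inr (Or.inl ⟨hz, hcon⟩))
      have hz3 : AnalyticAt ℂ (logDeriv (fun z => Psi m f z - w)) z ∧
          logDeriv (fun z => Psi m f z - w) z ≠ 0 := by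
        by_contra hcon
        exact hzE (Or.inr (Or.inr ⟨hz, hcon⟩))
      have h5 : logDeriv (fun z => Psi m f z - w) z = deriv (Psi m f) z / (Psi m f z - w) := by
        rw [logDeriv_apply, deriv_sub_const]
      have h6 : logDeriv (Psi m f) z = deriv (Psi m f) z / Psi m f z := logDeriv_apply _ _
      rw [h6]
      exact pointwise hz1.2 hw hz2.2 h5 hz3.2)
  have e1 : circleAverage (fun z => Real.log ‖logDeriv (fun z => Psi m f z - w) z‖ +
      log⁺ ‖(Psi m f z)⁻¹‖) 0 r =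
      circleAverage (fun z => Real.log ‖logDeriv (fun z => Psi m f z - w) z‖) 0 r +
        prox (fun z => (Psi m f z)⁻¹) r := circleAverage_fun_add hci1 hci2
  have e2 : circleAverage (fun z => log⁺ (‖logDeriv (fun z => Psi m f z - w) z‖ +
      ‖logDeriv (Psi m f) z‖) + log⁺ ‖w⁻¹‖) 0 r =
      circleAverage (fun z => log⁺ (‖logDeriv (fun z => Psi m f z - w) z‖ +
        ‖logDeriv (Psi m f) z‖)) 0 r + log⁺ ‖w⁻¹‖ := by
    rw [circleAverage_fun_add hci hcc, circleAverage_const]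
  rw [e1, e2, hc r hr0 hr1'] at hmain
  have h7 := hS r hr0 hr1'
  have h8 := (abs_le.mp (hC r hr0 hr1')).2
  have h9 : -(|(od (logDeriv (fun z => Psi m f z - w)) 0 : ℝ)| * Real.log 2) ≤
      (od (logDeriv (fun z => Psi m f z - w)) 0 : ℝ) * Real.log r := by
    have h10 : |Real.log r| ≤ Real.log 2 := by
      rw [abs_of_nonpos (Real.log_nonpos hr0.le hr1'.le), ← Real.log_inv]
      refine Real.log_le_log (inv_pos.mpr hr0) ?_
      rw [inv_le_comm₀ hr0 (by norm_num)]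
      linarith
    have h11 : |(od (logDeriv (fun z => Psi m f z - w)) 0 : ℝ) * Real.log r| ≤
        |(od (logDeriv (fun z => Psi m f z - w)) 0 : ℝ)| * Real.log 2 := by
      rw [abs_mul]
      exact mul_le_mul_of_nonneg_left h10 (abs_nonneg _)
    exact (abs_le.mp h11).1
  have h12 : -|c| ≤ c := neg_abs_le c
  have h13 : (1 + ε) * L r = (1 + ε / 2) * L r + ε / 2 * L r := by ring
  rw [h13]
  linarith

end Pool.Agent.MP4b24a5
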