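import Mathlib
import Pool.Agent.Lib.MP_4b24a5_an.Defs
import Pool.Agent.Lib.MP_4b24a5_an.Smt
import Pool.Agent.Lib.MP_4b24a5_an.Prx
import Pool.Agent.Lib.MP_4b24a5_an.Cst
import Pool.Agent.Lib.MP_4b24a5_an.Poly

set_option autoImplicit false

noncomputable section

namespace Pool.Agent.MP4b24a5

open Complex Metric Real MeasureTheory Filter Topology

private theorem fin_L_tendsto : Tendsto L (𝓝[<] (1 : ℝ)) atTop := by
  unfold L
  apply tendsto_neg_atBot_atTop.comp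
  apply Real.tendsto_log_nhdsGT_zero.comp
  rw [tendsto_nhdsWithin_iff]
  constructor
  · have h : Tendsto (fun r : ℝ => 1 - r) (𝓝 1) (𝓝 (1 - 1)) := (continuous_const.sub continuous_id).tendsto 1
    rw [sub_self] at h
    exact h.mono_left nhdsWithin_le_nhds
  · filter_upwards [self_mem_nhdsWithin] with r hr
    exact Set.mem_Ioi.mpr (sub_pos.mpr (Set.mem_Iio.mp hr))

private theorem fin_Ioo : ∀ᶠ r in 𝓝[<] (1 : ℝ), (1 / 2 : ℝ) < r ∧ r < 1 :=
  Ioo_mem_nhdsLT (by norm_num)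

private theorem fin_alph_le {f : ℂ → ℂ} {c : ℝ}
    (h : ∀ ε : ℝ, 0 < ε → ∃ C : ℝ, ∀ᶠ r in 𝓝[<] (1 : ℝ), T f r ≤ (c + ε) * L r + C) :
    alph f ≤ (c : EReal) := by
  have key : ∀ ε : ℝ, 0 < ε → alph f ≤ ((c + ε : ℝ) : EReal) := by
    intro ε hε
    obtain ⟨C, hC⟩ := h (ε / 2) (by positivity)
    unfold alph
    refine limsup_le_of_le (h := ?_)
    have h1 : ∀ᶠ r in 𝓝[<] (1 : ℝ), max 1 (2 * C / ε) ≤ L r :=
      fin_L_tendsto.eventually_ge_atTop _
    filter_upwards [hC, h1] with r hr h1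
    have hL1 : 1 ≤ L r := (le_max_left _ _).trans h1
    have hL2 : 2 * C / ε ≤ L r := (le_max_right _ _).trans h1
    rw [EReal.coe_le_coe_iff, div_le_iff₀ (by linarith)]
    rw [div_le_iff₀ hε] at hL2
    nlinarith
  by_contra hcon
  rw [not_le] at hcon
  obtain ⟨q, hq1, hq2⟩ := EReal.lt_iff_exists_real_btwn.mp hcon
  rw [EReal.coe_lt_coe_iff] at hq1
  have h2 := key (q - c) (by linarith)
  rw [add_sub_cancel] at h2
  exact absurd hq2 (not_lt.mpr h2)

private theorem fin_log_nonpos {r : ℝ} (h0 : 0 < r) (h1 : r < 1) : Real.log r ≤ 0 :=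
  Real.log_nonpos h0.le h1.le

private theorem fin_neg_LF {f : ℂ → ℂ} (hf : Mer f) :
    LF (fun u => ((max (-od f u) 0 : ℤ) : ℝ)) := by
  have h : (fun u => ((max (-od f u) 0 : ℤ) : ℝ)) =
      fun u => (fun x : ℝ => max (-x) 0) ((od f u : ℝ)) := by
    funext u
    simp
  rw [h]
  exact LF.comp (lf_od hf) (g := fun x : ℝ => max (-x) 0) (by simp)

private theorem fin_Zf_LF {f : ℂ → ℂ} (hf : Mer f) : LF (Zf f) := by
  have h : Zf f = fun u => (fun x : ℝ => max x 0) ((od f u : ℝ)) := by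
    funext u
    simp [Zf]
  rw [h]
  exact LF.comp (lf_od hf) (g := fun x : ℝ => max x 0) (by simp)

private theorem fin_Pf_LF {f : ℂ → ℂ} (hf : Mer f) : LF (Pf f) := by
  have h : Pf f = fun u => (fun x : ℝ => if x < 0 then (1 : ℝ) else 0) ((od f u : ℝ)) := by
    funext u
    simp only [Pf, Int.cast_lt_zero]
  rw [h]
  exact LF.comp (lf_od hf) (g := fun x : ℝ => if x < 0 then (1 : ℝ) else 0) (by simp)

private theorem fin_jensen {f : ℂ → ℂ} (hf : Mer f) : ∃ C : ℝ, ∀ r : ℝ, 0 < r → r < 1 →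
    T f r ≤ prox (fun z => (f z)⁻¹) r + S (Zf f) r + C := by
  obtain ⟨c, hc⟩ := jensen hf
  refine ⟨c, fun r h0 h1 => ?_⟩
  have e1 : prox f r - prox (fun z => (f z)⁻¹) r = circleAverage (fun z => Real.log ‖f z‖) 0 r := by
    unfold prox
    rw [← circleAverage_fun_sub (ci_pos hf.1 h0 h1) (ci_pos (f := fun z => (f z)⁻¹) hf.1.inv h0 h1)]
    congr 1
    funext z
    rw [norm_inv, Real.posLog_sub_posLog_inv]
  have e2 : S (Zf f) r = S (fun u => (od f u : ℝ)) r +
      S (fun u => ((max (-od f u) 0 : ℤ) : ℝ)) r := by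
    rw [← S_add (lf_od hf) (fin_neg_LF hf) h0 h1]
    congr 1
    funext u
    unfold Zf
    have h2 : max (od f u) 0 = od f u + max (-od f u) 0 := by
      rcases le_total (od f u) 0 with h3 | h3
      · rw [max_eq_right h3, max_eq_left (by omega)]; ring
      · rw [max_eq_left h3, max_eq_right (by omega)]; ring
    rw [h2]
    push_cast
    ring
  have e3 := hc r h0 h1
  have hl := fin_log_nonpos h0 h1
  have e4 : (od f 0 : ℝ) * Real.log r + ((max (-od f 0) 0 : ℤ) : ℝ) * Real.log r ≤ 0 := by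
    have h2 : (0 : ℝ) ≤ (od f 0 : ℝ) + ((max (-od f 0) 0 : ℤ) : ℝ) := by
      have h3 : (0 : ℤ) ≤ od f 0 + max (-od f 0) 0 := by
        have := le_max_left (-od f 0) 0
        omega
      exact_mod_cast h3
    rw [← add_mul]
    exact mul_nonpos_of_nonneg_of_nonpos h2 hl
  unfold T cnt
  linarith

private theorem fin_prox_nonneg (g : ℂ → ℂ) (r : ℝ) : 0 ≤ prox g r := by
  unfold prox
  exact circleAverage_nonneg_of_nonneg fun z _ => posLog_nonneg

private theorem fin_S_Pf {f : ℂ → ℂ} (hf : Mer f) : ∃ C : ℝ, ∀ r : ℝ, 1 / 2 < r → r < 1 →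
    S (Pf f) r ≤ T f r + C := by
  refine ⟨((max (-od f 0) 0 : ℤ) : ℝ) * Real.log 2, fun r h0 h1 => ?_⟩
  have hr : 0 < r := by linarith
  have h2 : S (Pf f) r ≤ S (fun u => ((max (-od f u) 0 : ℤ) : ℝ)) r := by
    refine S_mono (fin_Pf_LF hf) (fin_neg_LF hf) ?_ hr h1
    intro u _ _
    unfold Pf
    split_ifs with h3
    · have h4 : (1 : ℤ) ≤ max (-od f u) 0 := le_max_of_le_left (by omega)
      exact_mod_cast h4
    · have h4 : (0 : ℤ) ≤ max (-od f u) 0 := le_max_right _ _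
      exact_mod_cast h4
  have h3 := fin_prox_nonneg f r
  have h4 : -Real.log 2 ≤ Real.log r := by
    rw [← Real.log_inv]
    apply Real.log_le_log (by norm_num)
    norm_num
    linarith
  have h5 : (0 : ℝ) ≤ ((max (-od f 0) 0 : ℤ) : ℝ) := by
    have : (0 : ℤ) ≤ max (-od f 0) 0 := le_max_right _ _
    exact_mod_cast this
  unfold T cnt
  nlinarith

private theorem fin_mer {f : ℂ → ℂ} (hf : MeromorphicNFOn f (ball 0 1))
    (hc : ¬ ∃ c, ∀ z ∈ ball (0 : ℂ) 1, f z = c) : Mer f := by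
  refine ⟨hf.meromorphicOn, ?_⟩
  by_contra hcon
  push Not at hcon
  obtain ⟨z0, hz0, hz0t⟩ := hcon
  have htop : ∀ u ∈ ball (0 : ℂ) 1, meromorphicOrderAt f u = ⊤ := by
    intro u hu
    by_contra hcon
    exact hf.meromorphicOn.meromorphicOrderAt_ne_top_of_isPreconnected
      (convex_ball (0 : ℂ) 1).isPreconnected hu hz0 hcon hz0t
  apply hc
  refine ⟨0, fun z hz => ?_⟩
  by_contra h0
  have h1 := (hf hz).meromorphicOrderAt_eq_zero_iff.mpr h0
  rw [htop z hz] at h1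
  exact absurd h1 (by simp)

private theorem fin_slow {f : ℂ → ℂ} (hf : MeromorphicNFOn f (ball 0 1))
    (hc : ¬ ∃ c, ∀ z ∈ ball (0 : ℂ) 1, f z = c) (ha : alph f < ⊤) : Slow f := by
  refine ⟨fin_mer hf hc, ?_⟩
  obtain ⟨K, hK1, _⟩ := EReal.lt_iff_exists_real_btwn.mp ha
  refine ⟨K, ?_⟩
  have h1 := Filter.eventually_lt_of_limsup_lt hK1
  have h2 : ∀ᶠ r in 𝓝[<] (1 : ℝ), 1 ≤ L r := fin_L_tendsto.eventually_ge_atTop _
  filter_upwards [h1, h2] with r h1 h2
  rw [EReal.coe_lt_coe_iff, div_lt_iff₀ (by linarith)] at h1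
  exact h1.le

private theorem fin_core {k : ℕ} (m : Fin (k + 1) → ℕ) {f : ℂ → ℂ}
    (hf : MeromorphicNFOn f (ball 0 1)) (hs : Slow f) (hm : 1 ≤ m 0) {w : ℂ} (hw : w ≠ 0)
    (hW : (Wset m f w).Finite) {t : ℝ} (ht0 : 0 < t) (ht1 : (wgt m : ℝ) / deg m ≤ t)
    (ha : (t : EReal) < alph f) : ∀ ε : ℝ, 0 < ε → ∃ C : ℝ, ∀ᶠ r in 𝓝[<] (1 : ℝ),
      ∃ x y : ℝ, 0 ≤ x ∧ 0 ≤ y ∧ x + ((m 0 : ℝ) - 1) * y ≤ S (Pf f) r + (1 + ε) * L r ∧
      (deg m : ℝ) * T f r ≤ x + ((wgt m : ℝ) + ε) * L r + (deg m : ℝ) * y + C := by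
  have hdeg : m 0 ≤ deg m := Finset.single_le_sum (fun i _ => Nat.zero_le (m i)) (Finset.mem_univ 0)
  have hd0 : (0 : ℝ) < deg m := by
    have : 0 < deg m := by omega
    exact_mod_cast this
  by_cases hA : ∀ j ≤ k, Mer (iteratedDeriv j f)
  · by_cases hB : Mer (deriv (Psi m f))
    · intro ε hε
      obtain ⟨C, hC⟩ := fin_jensen hs.1
      refine ⟨(deg m : ℝ) * C, ?_⟩
      filter_upwards [smt m hf hs hm hA hB hw hW hε, prx m hs hA hε, fin_Ioo] with r h1 h2 h3
      have h0 : 0 < r := by linarith [h3.1]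
      refine ⟨prox (fun z => (Psi m f z)⁻¹) r, S (Zf f) r, fin_prox_nonneg _ _, ?_, h1, ?_⟩
      · refine S_nonneg ?_ h0 h3.2
        intro u _ _
        unfold Zf
        have : (0 : ℤ) ≤ max (od f u) 0 := le_max_right _ _
        exact_mod_cast this
      · have h4 := mul_le_mul_of_nonneg_left (hC r h0 h3.2) hd0.le
        nlinarith
    · exfalso
      have h1 : alph f ≤ (t : EReal) := by
        refine fin_alph_le fun ε hε => ⟨0, ?_⟩
        have h2 : ∀ᶠ r in 𝓝[<] (1 : ℝ), 1 ≤ L r := fin_L_tendsto.eventually_ge_atTop _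
        filter_upwards [cst_case m hf hs hm hA hB (mul_pos hε hd0), h2] with r h3 h2
        have h4 : (wgt m : ℝ) ≤ t * deg m := by rwa [div_le_iff₀ hd0] at ht1
        have h5 : (deg m : ℝ) * T f r ≤ (deg m : ℝ) * ((t + ε) * L r) := by
          refine h3.trans ?_
          nlinarith
        have h6 := le_of_mul_le_mul_left h5 hd0
        linarith
      exact absurd ha (not_lt.mpr h1)
  · exfalso
    push Not at hA
    obtain ⟨j, _, hj⟩ := hA
    obtain ⟨C, hC⟩ := poly_case hf hj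
    have h1 : alph f ≤ (t : EReal) := by
      refine fin_alph_le fun ε hε => ⟨C, ?_⟩
      have h2 : ∀ᶠ r in 𝓝[<] (1 : ℝ), 1 ≤ L r := fin_L_tendsto.eventually_ge_atTop _
      filter_upwards [h2, fin_Ioo] with r h2 h3
      have h4 := hC r (by linarith [h3.1]) h3.2
      nlinarith [mul_pos (add_pos ht0 hε) (by linarith : 0 < L r)]
    exact absurd ha (not_lt.mpr h1)

private theorem fin_xy {x y M n U : ℝ} (hx : 0 ≤ x) (hM : 0 < M) (hn : M ≤ n)
    (h : x + M * y ≤ U) : x + n * y ≤ n / M * U := by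
  have h1 : n / M * (x + M * y) ≤ n / M * U := by
    apply mul_le_mul_of_nonneg_left h
    have : 0 < n := by linarith
    positivity
  have h2 : n / M * (x + M * y) = n / M * x + n * y := by
    field_simp
  have h3 : x ≤ n / M * x := by
    have h4 : 1 ≤ n / M := by rwa [le_div_iff₀ hM, one_mul]
    nlinarith
  linarith

theorem main_analytic {k : ℕ} (m : Fin (k + 1) → ℕ) (f : ℂ → ℂ)
    (hf : AnalyticOnNhd ℂ f (ball 0 1)) (hc : ¬ ∃ c, ∀ z ∈ ball (0 : ℂ) 1, f z = c)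
    (ha : alph f < ⊤) (hm : 2 ≤ m 0)
    (h : ((1 / ((m 0 : ℝ) - 1) + (wgt m : ℝ) / deg m : ℝ) : EReal) < alph f) (w : ℂ) (hw : w ≠ 0) :
    {z | z ∈ ball (0 : ℂ) 1 ∧ Psi m f z = w}.Infinite := by
  intro hfin
  have hW : (Wset m f w).Finite := hfin.subset fun z hz => ⟨hz.1, hz.2.2⟩
  have hNF : MeromorphicNFOn f (ball 0 1) := fun z hz => (hf z hz).meromorphicNFAt
  have hs := fin_slow hNF hc ha
  have hm' : (2 : ℝ) ≤ (m 0 : ℝ) := by exact_mod_cast hm
  have hM : (0 : ℝ) < (m 0 : ℝ) - 1 := by linarith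
  have hdeg : m 0 ≤ deg m := Finset.single_le_sum (fun i _ => Nat.zero_le (m i)) (Finset.mem_univ 0)
  have hdeg' : (m 0 : ℝ) ≤ deg m := by exact_mod_cast hdeg
  have hd0 : (0 : ℝ) < deg m := by linarith
  have hG : (0 : ℝ) ≤ (wgt m : ℝ) / deg m := by positivity
  have hinv : 0 < 1 / ((m 0 : ℝ) - 1) := by positivity
  have hcore := fin_core m hNF hs (by omega) hw hW (add_pos_of_pos_of_nonneg hinv hG)
    (by linarith) h
  have h1 : alph f ≤ ((1 / ((m 0 : ℝ) - 1) + (wgt m : ℝ) / deg m : ℝ) : EReal) := by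
    refine fin_alph_le fun ε hε => ?_
    set M : ℝ := (m 0 : ℝ) - 1 with hMdef
    set n : ℝ := (deg m : ℝ) with hn
    obtain ⟨C, hC⟩ := hcore (ε / (1 / M + 1 / n)) (by positivity)
    refine ⟨C / n, ?_⟩
    have h2 : ∀ᶠ r in 𝓝[<] (1 : ℝ), 1 ≤ L r := fin_L_tendsto.eventually_ge_atTop _
    filter_upwards [hC, fin_Ioo, h2] with r hr h3 h2
    obtain ⟨x, y, hx, hy, hxy, hT⟩ := hr
    have hP : S (Pf f) r = 0 := by
      have h4 : S (Pf f) r ≤ S (fun _ => 0) r := by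
        refine S_mono (fin_Pf_LF hs.1) ?_ ?_ (by linarith [h3.1]) h3.2
        · intro r _
          simp
        · intro u _ hu
          have h5 : 0 ≤ od f u := by
            have h6 := (hf u (by simpa using hu)).meromorphicOrderAt_nonneg
            unfold od
            exact WithTop.untop₀_nonneg.mpr h6
          unfold Pf
          rw [if_neg (by omega)]
      have h5 : S (fun _ => 0) r = 0 := by
        unfold S
        simp
      have h6 : 0 ≤ S (Pf f) r := by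
        refine S_nonneg ?_ (by linarith [h3.1]) h3.2
        intro u _ _
        unfold Pf
        split_ifs <;> norm_num
      linarith
    rw [hP, zero_add] at hxy
    have h4 := fin_xy hx hM (by linarith : M ≤ n) hxy
    set δ : ℝ := ε / (1 / M + 1 / n) with hδ
    have h5 : n * T f r ≤ n / M * ((1 + δ) * L r) + ((wgt m : ℝ) + δ) * L r + C := by linarith
    have h6 : n * ((1 / M + (wgt m : ℝ) / n + ε) * L r + C / n) =
        n / M * ((1 + δ) * L r) + ((wgt m : ℝ) + δ) * L r + C := by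
      have h7 : ε = δ * (1 / M + 1 / n) := by
        rw [hδ, div_mul_cancel₀]
        positivity
      rw [h7]
      field_simp
      ring
    rw [← h6] at h5
    exact le_of_mul_le_mul_left h5 hd0
  exact absurd h (not_lt.mpr h1)

theorem main_mero {k : ℕ} (m : Fin (k + 1) → ℕ) (f : ℂ → ℂ)
    (hf : MeromorphicNFOn f (ball 0 1)) (hc : ¬ ∃ c, ∀ z ∈ ball (0 : ℂ) 1, f z = c)
    (ha : alph f < ⊤) (hm : 3 ≤ m 0)
    (h : (((1 + ((m 0 : ℝ) - 1) * ((wgt m : ℝ) / deg m)) / ((m 0 : ℝ) - 2) : ℝ) : EReal) < alph f)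
    (w : ℂ) (hw : w ≠ 0) :
    {z | z ∈ ball (0 : ℂ) 1 ∧ AnalyticAt ℂ f z ∧ Psi m f z = w}.Infinite := by
  intro hfin
  have hW : (Wset m f w).Finite := hfin
  have hs := fin_slow hf hc ha
  have hm' : (3 : ℝ) ≤ (m 0 : ℝ) := by exact_mod_cast hm
  have hM : (0 : ℝ) < (m 0 : ℝ) - 1 := by linarith
  have hM2 : (0 : ℝ) < (m 0 : ℝ) - 2 := by linarith
  have hdeg : m 0 ≤ deg m := Finset.single_le_sum (fun i _ => Nat.zero_le (m i)) (Finset.mem_univ 0)
  have hdeg' : (m 0 : ℝ) ≤ deg m := by exact_mod_cast hdeg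
  have hd0 : (0 : ℝ) < deg m := by linarith
  have hG : (0 : ℝ) ≤ (wgt m : ℝ) / deg m := by positivity
  have ht0 : 0 < (1 + ((m 0 : ℝ) - 1) * ((wgt m : ℝ) / deg m)) / ((m 0 : ℝ) - 2) := by positivity
  have ht1 : (wgt m : ℝ) / deg m ≤
      (1 + ((m 0 : ℝ) - 1) * ((wgt m : ℝ) / deg m)) / ((m 0 : ℝ) - 2) := by
    rw [le_div_iff₀ hM2]
    nlinarith
  have hcore := fin_core m hf hs (by omega) hw hW ht0 ht1 h
  obtain ⟨C1, hC1⟩ := fin_S_Pf hs.1
  have h1 : alph f ≤
      (((1 + ((m 0 : ℝ) - 1) * ((wgt m : ℝ) / deg m)) / ((m 0 : ℝ) - 2) : ℝ) : EReal) := by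
    refine fin_alph_le fun ε hε => ?_
    set M : ℝ := (m 0 : ℝ) - 1 with hMdef
    set n : ℝ := (deg m : ℝ) with hn
    have hMm : (m 0 : ℝ) - 2 = M - 1 := by rw [hMdef]; ring
    rw [hMm] at hM2 ⊢
    obtain ⟨C, hC⟩ := hcore (ε * (M - 1) / M / (1 / M + 1 / n)) (by positivity)
    refine ⟨(C1 / M + C / n) * M / (M - 1), ?_⟩
    filter_upwards [hC, fin_Ioo] with r hr h3
    obtain ⟨x, y, hx, hy, hxy, hT⟩ := hr
    have hP := hC1 r h3.1 h3.2
    have h4 := fin_xy hx hM (by linarith : M ≤ n) hxy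
    set δ : ℝ := ε * (M - 1) / M / (1 / M + 1 / n) with hδ
    have h4' : n / M * (S (Pf f) r + (1 + δ) * L r) ≤ n / M * (T f r + C1 + (1 + δ) * L r) := by
      apply mul_le_mul_of_nonneg_left _ (by positivity)
      linarith
    have h5 : n * T f r ≤ n / M * (T f r + C1 + (1 + δ) * L r) + ((wgt m : ℝ) + δ) * L r + C := by
      linarith
    have h6 : n * ((M - 1) / M) * T f r = n * T f r - n / M * T f r := by
      field_simp
    have h7 : n * ((M - 1) / M) * (((1 + M * ((wgt m : ℝ) / n)) / (M - 1) + ε) * L r +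
        (C1 / M + C / n) * M / (M - 1)) =
        n / M * (C1 + (1 + δ) * L r) + ((wgt m : ℝ) + δ) * L r + C := by
      have h8 : ε = δ * (1 / M + 1 / n) * M / (M - 1) := by
        rw [hδ, div_mul_cancel₀ _ (by positivity)]
        field_simp
      rw [h8]
      field_simp
      ring
    have h9 : n * ((M - 1) / M) * T f r ≤
        n * ((M - 1) / M) * (((1 + M * ((wgt m : ℝ) / n)) / (M - 1) + ε) * L r +
        (C1 / M + C / n) * M / (M - 1)) := by
      rw [h7, h6]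
      have h10 : n / M * (T f r + C1 + (1 + δ) * L r) =
        n / M * T f r + n / M * (C1 + (1 + δ) * L r) := by ring
      linarith
    exact le_of_mul_le_mul_left h9 (by positivity)
  exact absurd h (not_lt.mpr h1)

end Pool.Agent.MP4b24a5
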